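import Pool.Agent.Lib.MP_8382de_an.W3.KNg

/-!
# W3.BInt: Binet's integral exists and tends to `0`

`K_abs`: `|K x v e^(-ζv)/v| ≤ C e^(-(ζ - max 0 (-x)) v)` with `C = 1/12 + |x|/2 + x²/2`, and
`ζ > max 0 (-x)`. Measurability: the integrand is continuous on `(0,∞)`
(`ContinuousOn.aestronglyMeasurable`). `B_lim`: the integral at `ζ + n` is at most
`C/(ζ + n - max 0 (-x))` in absolute value (`norm_integral_le_of_norm_le`,
`integral_exp_neg_mul..`/`integral_exp_mul_Ioi`).
-/

set_option autoImplicit false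

namespace Pool.Agent.Lib.MP_8382de_an.W3

open MeasureTheory Set Filter Topology

private theorem BInt_cont (x ζ : ℝ) :
    ContinuousOn (fun v : ℝ => K x v * Real.exp (-(ζ * v)) / v) (Ioi 0) := by
  unfold K
  have h1 : ∀ v ∈ Ioi (0 : ℝ), 1 - Real.exp (-v) ≠ 0 := by
    intro v hv
    have hv' : 0 < v := hv
    have : Real.exp (-v) < 1 := by
      rw [Real.exp_lt_one_iff]; linarith
    linarith
  have h2 : ∀ v ∈ Ioi (0 : ℝ), v ≠ 0 := fun v hv => (ne_of_gt hv)
  apply ContinuousOn.div _ continuousOn_id h2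
  apply ContinuousOn.mul
  · apply ContinuousOn.add _ continuousOn_const
    apply ContinuousOn.sub _ continuousOn_const
    apply ContinuousOn.sub
    · apply ContinuousOn.div (by fun_prop) (by fun_prop) h1
    · exact ContinuousOn.div continuousOn_const continuousOn_id h2
  · fun_prop

private theorem BInt_bound (x ζ : ℝ) {v : ℝ} (hv : 0 < v) :
    ‖K x v * Real.exp (-(ζ * v)) / v‖ ≤
      (1 / 12 + |x| / 2 + x ^ 2 / 2) * Real.exp (-(ζ - max 0 (-x)) * v) := by
  have h := K_abs x hv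
  rw [Real.norm_eq_abs, abs_div, abs_mul, abs_of_pos (Real.exp_pos _), abs_of_pos hv,
    div_le_iff₀ hv]
  have e : Real.exp (-(ζ - max 0 (-x)) * v) =
      Real.exp (max 0 (-x) * v) * Real.exp (-(ζ * v)) := by
    rw [← Real.exp_add]; congr 1; ring
  rw [e]
  calc |K x v| * Real.exp (-(ζ * v)) ≤
      (1 / 12 + |x| / 2 + x ^ 2 / 2) * (v * Real.exp (max 0 (-x) * v)) * Real.exp (-(ζ * v)) := by
        gcongr
    _ = _ := by ring

private theorem BInt_pos {x ζ : ℝ} (hζ : 0 < ζ) (hx : 0 < ζ + x) : 0 < ζ - max 0 (-x) := by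
  rcases le_total 0 x with h | h
  · rw [max_eq_left (by linarith)]; linarith
  · rw [max_eq_right (by linarith)]; linarith

theorem B_int {x ζ : ℝ} (hζ : 0 < ζ) (hx : 0 < ζ + x) :
    IntegrableOn (fun v : ℝ => K x v * Real.exp (-(ζ * v)) / v) (Ioi 0) := by
  have hs := BInt_pos hζ hx
  have hg : IntegrableOn (fun v : ℝ => (1 / 12 + |x| / 2 + x ^ 2 / 2) *
      Real.exp (-(ζ - max 0 (-x)) * v)) (Ioi 0) :=
    (integrableOn_exp_mul_Ioi (by linarith) 0).const_mul _
  refine Integrable.mono' hg ((BInt_cont x ζ).aestronglyMeasurable measurableSet_Ioi) ?_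
  refine (ae_restrict_iff' measurableSet_Ioi).2 (Filter.Eventually.of_forall fun v hv => ?_)
  exact BInt_bound x ζ hv

theorem B_lim {x ζ : ℝ} (hζ : 0 < ζ) (hx : 0 < ζ + x) :
    Tendsto (fun n : ℕ => ∫ v in Ioi (0 : ℝ), K x v * Real.exp (-((ζ + n) * v)) / v) atTop
      (𝓝 0) := by
  have hs := BInt_pos hζ hx
  have hbd : ∀ n : ℕ, ‖∫ v in Ioi (0 : ℝ), K x v * Real.exp (-((ζ + n) * v)) / v‖ ≤
      (1 / 12 + |x| / 2 + x ^ 2 / 2) * (1 / (ζ - max 0 (-x) + n)) := by
    intro n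
    have hn : (0 : ℝ) ≤ (n : ℝ) := Nat.cast_nonneg n
    have hg : IntegrableOn (fun v : ℝ => (1 / 12 + |x| / 2 + x ^ 2 / 2) *
        Real.exp (-((ζ + n) - max 0 (-x)) * v)) (Ioi 0) :=
      (integrableOn_exp_mul_Ioi (by linarith) 0).const_mul _
    have h1 := norm_integral_le_of_norm_le (μ := volume.restrict (Ioi (0 : ℝ)))
      (f := fun v : ℝ => K x v * Real.exp (-((ζ + n) * v)) / v) hg
      ((ae_restrict_iff' measurableSet_Ioi).2 (Filter.Eventually.of_forall fun v hv =>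
        BInt_bound x (ζ + n) hv))
    refine h1.trans (le_of_eq ?_)
    rw [integral_const_mul, integral_exp_mul_Ioi (by linarith) 0]
    congr 1
    rw [mul_zero, Real.exp_zero]
    have : -(ζ + (n : ℝ) - max 0 (-x)) = -(ζ - max 0 (-x) + n) := by ring
    rw [this, neg_div_neg_eq]
  have hlim : Tendsto (fun n : ℕ => (1 / 12 + |x| / 2 + x ^ 2 / 2) *
      (1 / (ζ - max 0 (-x) + n))) atTop (𝓝 0) := by
    have h1 : Tendsto (fun n : ℕ => ζ - max 0 (-x) + (n : ℝ)) atTop atTop :=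
      tendsto_atTop_add_const_left _ _ tendsto_natCast_atTop_atTop
    have h2 : Tendsto (fun n : ℕ => 1 / (ζ - max 0 (-x) + (n : ℝ))) atTop (𝓝 0) := by
      simp only [one_div]
      exact h1.inv_tendsto_atTop
    simpa using h2.const_mul (1 / 12 + |x| / 2 + x ^ 2 / 2)
  exact squeeze_zero_norm hbd hlim

end Pool.Agent.Lib.MP_8382de_an.W3
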