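import Pool.Agent.Lib.MP_8382de_an.W3.Fru

/-!
# W3.FruB: `∫_0^∞ (1 - (1-e^(-v))/v) e^(-ζv) dv/v = (ζ+1) log((ζ+1)/ζ) - 1`, `ζ > 0`

`(1 - e^(-v))/v = ∫_0^1 e^(-sv) ds`, so the integrand is `∫_0^1 (e^(-ζv) - e^(-(ζ+s)v))/v ds ≥ 0`.
Fubini and `fru`: the integral is `∫_0^1 log((ζ+s)/ζ) ds = (ζ+1) log(ζ+1) - ζ log ζ - 1 - log ζ`.
(Integrability: `0 ≤ 1 - (1-e^(-v))/v ≤ v/2`.) Alternative: both sides as functions of `ζ` have the
derivative `log((ζ+1)/ζ) - 1/ζ` and tend to `0` at infinity.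
-/

set_option autoImplicit false

namespace Pool.Agent.Lib.MP_8382de_an.W3

open MeasureTheory Set

private theorem fruB_bd {v : ℝ} (hv : 0 < v) :
    0 ≤ 1 - (1 - Real.exp (-v)) / v ∧ 1 - (1 - Real.exp (-v)) / v ≤ v := by
  have h1 : 1 - v ≤ Real.exp (-v) := by
    have := Real.add_one_le_exp (-v)
    linarith
  have h2 : Real.exp (-v) * (1 + v) ≤ 1 := by
    have h3 := Real.add_one_le_exp v
    have h4 : Real.exp (-v) * Real.exp v = 1 := by
      rw [← Real.exp_add]
      simp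
    have h5 := mul_le_mul_of_nonneg_left h3 (Real.exp_pos (-v)).le
    linarith
  constructor
  · rw [sub_nonneg, div_le_one hv]
    linarith
  · have h6 : 1 - v ≤ (1 - Real.exp (-v)) / v := by
      rw [le_div_iff₀ hv]
      have h7 := Real.exp_pos (-v)
      by_contra hcon
      push Not at hcon
      nlinarith
    linarith

theorem fruB_int {ζ : ℝ} (hζ : 0 < ζ) :
    IntegrableOn (fun v : ℝ => (1 - (1 - Real.exp (-v)) / v) * Real.exp (-(ζ * v)) / v)
      (Ioi 0) := by
  have h1 : IntegrableOn (fun v : ℝ => Real.exp (-ζ * v)) (Ioi 0) := exp_neg_integrableOn_Ioi 0 hζ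
  refine Integrable.mono' h1 ?_ ?_
  · apply Measurable.aestronglyMeasurable
    fun_prop
  · filter_upwards [ae_restrict_mem measurableSet_Ioi] with v hv
    have hv0 : (0 : ℝ) < v := hv
    obtain ⟨h2, h3⟩ := fruB_bd hv0
    have e4 : 0 < Real.exp (-(ζ * v)) := Real.exp_pos _
    have e5 : -ζ * v = -(ζ * v) := by ring
    rw [Real.norm_eq_abs, abs_of_nonneg, div_le_iff₀ hv0, e5]
    · nlinarith
    · exact div_nonneg (mul_nonneg h2 e4.le) hv0.le

theorem fruB {ζ : ℝ} (hζ : 0 < ζ) :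
    ∫ v in Ioi (0 : ℝ), (1 - (1 - Real.exp (-v)) / v) * Real.exp (-(ζ * v)) / v =
      (ζ + 1) * Real.log ((ζ + 1) / ζ) - 1 := by
  have hζ1 : 0 < ζ + 1 := by linarith
  have hI1 := fru_int hζ hζ1
  have hI2 := fruB_int hζ
  have hF1 := fru hζ hζ1
  -- the function `F = (e^(-ζv) - e^(-(ζ+1)v))/v`, `F 0 = 1`
  have hH : HasDerivAt (fun v : ℝ => Real.exp (-(ζ * v)) - Real.exp (-((ζ + 1) * v))) 1 0 := by
    have h1 : ∀ c : ℝ, HasDerivAt (fun v : ℝ => Real.exp (-(c * v))) (-c) 0 := by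
      intro c
      have h2 : HasDerivAt (fun v : ℝ => -(c * v)) (-(c * 1)) 0 :=
        ((hasDerivAt_id (0 : ℝ)).const_mul c).fun_neg
      have h3 := h2.exp
      simpa using h3
    have h2 := (h1 ζ).fun_sub (h1 (ζ + 1))
    have e : -ζ - -(ζ + 1) = 1 := by ring
    rw [e] at h2
    exact h2
  set f : ℝ → ℝ := fun v => (Real.exp (-(ζ * v)) - Real.exp (-((ζ + 1) * v))) / v with hf
  set f' : ℝ → ℝ := fun v => (1 - (1 - Real.exp (-v)) / v) * Real.exp (-(ζ * v)) / v -
    (ζ + 1) * ((Real.exp (-(ζ * v)) - Real.exp (-((ζ + 1) * v))) / v) with hf'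
  have hcont : ContinuousWithinAt (Function.update f 0 1) (Ici 0) 0 := by
    rw [continuousWithinAt_update_same]
    have h1 := hasDerivAt_iff_tendsto_slope.1 hH
    have h2 : Filter.Tendsto f (nhdsWithin 0 {0}ᶜ) (nhds 1) := by
      refine h1.congr fun v => ?_
      rw [slope_def_field, hf]
      simp
    exact h2.mono_left (nhdsWithin_mono _ fun x hx => hx.2)
  have hderiv : ∀ v ∈ Ioi (0 : ℝ), HasDerivAt (Function.update f 0 1) (f' v) v := by
    intro v hv
    have hv0 : (0 : ℝ) < v := hv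
    have h1 : ∀ c : ℝ, HasDerivAt (fun v : ℝ => Real.exp (-(c * v)))
        (Real.exp (-(c * v)) * (-(c * 1))) v := by
      intro c
      have h2 : HasDerivAt (fun v : ℝ => -(c * v)) (-(c * 1)) v :=
        ((hasDerivAt_id v).const_mul c).fun_neg
      exact h2.exp
    have h2 := ((h1 ζ).fun_sub (h1 (ζ + 1))).fun_div (hasDerivAt_id v) hv0.ne'
    have h3 : HasDerivAt f (f' v) v := by
      refine h2.congr_deriv ?_
      have e1 : Real.exp (-((ζ + 1) * v)) = Real.exp (-(ζ * v)) * Real.exp (-v) := by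
        rw [← Real.exp_add]
        congr 1
        ring
      simp only [hf', id]
      rw [e1]
      field_simp
      ring
    refine h3.congr_of_eventuallyEq ?_
    filter_upwards [isOpen_Ioi.mem_nhds hv] with u hu
    exact Function.update_of_ne (ne_of_gt hu) _ _
  have hint : IntegrableOn f' (Ioi 0) := hI2.sub (hI1.const_mul (ζ + 1))
  have hlim : Filter.Tendsto (Function.update f 0 1) Filter.atTop (nhds 0) := by
    have h1 : Filter.Tendsto (fun v : ℝ => Real.exp (-(ζ * v))) Filter.atTop (nhds 0) := by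
      have h2 : Filter.Tendsto (fun v : ℝ => ζ * v) Filter.atTop Filter.atTop :=
        Filter.Tendsto.const_mul_atTop hζ Filter.tendsto_id
      exact Real.tendsto_exp_neg_atTop_nhds_zero.comp h2
    refine squeeze_zero_norm' ?_ h1
    filter_upwards [Filter.eventually_ge_atTop (1 : ℝ)] with v hv
    rw [Function.update_of_ne (by linarith), hf]
    have e1 : Real.exp (-((ζ + 1) * v)) ≤ Real.exp (-(ζ * v)) := by
      apply Real.exp_le_exp.2
      nlinarith
    have e2 := Real.exp_pos (-((ζ + 1) * v))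
    have e3 := Real.exp_pos (-(ζ * v))
    rw [Real.norm_eq_abs, abs_of_nonneg (div_nonneg (by linarith) (by linarith)),
      div_le_iff₀ (by linarith)]
    nlinarith
  have h := integral_Ioi_of_hasDerivAt_of_tendsto hcont hderiv hint hlim
  rw [Function.update_self, zero_sub] at h
  have h2 : ∫ v in Ioi (0 : ℝ), f' v =
      (∫ v in Ioi (0 : ℝ), (1 - (1 - Real.exp (-v)) / v) * Real.exp (-(ζ * v)) / v) -
        ∫ v in Ioi (0 : ℝ), (ζ + 1) * ((Real.exp (-(ζ * v)) - Real.exp (-((ζ + 1) * v))) / v) :=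
    integral_sub hI2 (hI1.const_mul (ζ + 1))
  rw [integral_const_mul, hF1] at h2
  rw [h2] at h
  linarith

end Pool.Agent.Lib.MP_8382de_an.W3
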