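import Pool.Agent.Lib.MP_8382de_an.W3.BInt
import Pool.Agent.Lib.MP_8382de_an.W3.FruB

/-!
# W3.BStep: the functional equation of Binet's integral

`K x v (e^(-ζv) - e^(-(ζ+1)v)) / v = K x v (1-e^(-v)) e^(-ζv)/v` and
`K x v (1-e^(-v)) = e^(-xv) - (1-e^(-v))/v - (1/2-x)(1-e^(-v))
 = (e^(-xv) - 1) + (1 - (1-e^(-v))/v) - (1/2-x)(1-e^(-v))`. Hence the integrand is
`(e^(-(ζ+x)v) - e^(-ζv))/v + (1-(1-e^(-v))/v) e^(-ζv)/v - (1/2-x)(e^(-ζv) - e^(-(ζ+1)v))/v`,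
and by `fru`, `fruB`, `fru` the integral is
`log(ζ/(ζ+x)) + (ζ+1) log((ζ+1)/ζ) - 1 - (1/2-x) log((ζ+1)/ζ)`.
-/

set_option autoImplicit false

namespace Pool.Agent.Lib.MP_8382de_an.W3

open MeasureTheory Set

private theorem BStep_pt (x ζ : ℝ) {v : ℝ} (hv : 0 < v) :
    K x v * Real.exp (-(ζ * v)) / v - K x v * Real.exp (-((ζ + 1) * v)) / v =
    (Real.exp (-((ζ + x) * v)) - Real.exp (-(ζ * v))) / v +
      (1 - (1 - Real.exp (-v)) / v) * Real.exp (-(ζ * v)) / v -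
      (1 / 2 - x) * ((Real.exp (-(ζ * v)) - Real.exp (-((ζ + 1) * v))) / v) := by
  have hd : 0 < 1 - Real.exp (-v) := by
    have : Real.exp (-v) < 1 := by
      rw [Real.exp_lt_one_iff]; linarith
    linarith
  have e1 : Real.exp (-((ζ + 1) * v)) = Real.exp (-(ζ * v)) * Real.exp (-v) := by
    rw [← Real.exp_add]; congr 1; ring
  have e2 : Real.exp (-((ζ + x) * v)) = Real.exp (-(ζ * v)) * Real.exp (-(x * v)) := by
    rw [← Real.exp_add]; congr 1; ring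
  rw [e1, e2]
  unfold K
  have hne := hd.ne'
  field_simp
  ring

theorem B_step {x ζ : ℝ} (hζ : 0 < ζ) (hx : 0 < ζ + x) :
    (∫ v in Ioi (0 : ℝ), K x v * Real.exp (-(ζ * v)) / v) -
      (∫ v in Ioi (0 : ℝ), K x v * Real.exp (-((ζ + 1) * v)) / v) =
    (ζ + x + 1 / 2) * Real.log (ζ + 1) - (ζ + x - 1 / 2) * Real.log ζ - 1 - Real.log (ζ + x) := by
  have hζ1 : 0 < ζ + 1 := by linarith
  rw [← integral_sub (B_int hζ hx) (B_int hζ1 (by linarith))]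
  have h1 : ∫ v in Ioi (0 : ℝ), (K x v * Real.exp (-(ζ * v)) / v -
      K x v * Real.exp (-((ζ + 1) * v)) / v) =
      ∫ v in Ioi (0 : ℝ), ((Real.exp (-((ζ + x) * v)) - Real.exp (-(ζ * v))) / v +
      (1 - (1 - Real.exp (-v)) / v) * Real.exp (-(ζ * v)) / v -
      (1 / 2 - x) * ((Real.exp (-(ζ * v)) - Real.exp (-((ζ + 1) * v))) / v)) := by
    apply setIntegral_congr_fun measurableSet_Ioi
    intro v hv
    exact BStep_pt x ζ hv
  rw [h1]
  have iA := fru_int hx hζ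
  have iB := fruB_int hζ
  have iC := (fru_int hζ hζ1).const_mul (1 / 2 - x)
  have iAB : IntegrableOn (fun v : ℝ => (Real.exp (-((ζ + x) * v)) - Real.exp (-(ζ * v))) / v +
      (1 - (1 - Real.exp (-v)) / v) * Real.exp (-(ζ * v)) / v) (Ioi 0) := iA.add iB
  rw [integral_sub iAB iC, integral_add iA iB, integral_const_mul, fru hx hζ, fruB hζ,
    fru hζ hζ1, Real.log_div hζ.ne' hx.ne', Real.log_div hζ1.ne' hζ.ne']
  ring

end Pool.Agent.Lib.MP_8382de_an.W3
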