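import Pool.Agent.Lib.MP_8382de_an.W3.Defs

/-!
# W3.JStep: the functional equation of `J` and `J x (ζ+n) → 0` (Stirling)

`J_step`: `Γ(ζ+1+x) = (ζ+x) Γ(ζ+x)` (`Real.Gamma_add_one`), take logarithms, algebra.

`J_lim`: put `y = ζ + x > 0`. `log Γ(y + n + 1) = y log n + log n! + o(1)`: by
`Real.BohrMollerup.tendsto_logGammaSeq` (`logGammaSeq y n = y log n + log n! - ∑_{m ≤ n} log(y+m)`
tends to `log Γ(y)`), and `∑_{m ≤ n} log(y+m) = log Γ(y+n+1) - log Γ(y)` (induction on `n`).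
Stirling (`Stirling.tendsto_stirlingSeq_sqrt_pi`, or `Stirling.le_factorial_stirling` etc.):
`log n! = (n+1/2) log n - n + log(2π)/2 + o(1)`. Then with `m = n + 1`
`J x (ζ+m) = y log n + (n+1/2) log n - n + log(2π)/2 - (ζ+m+x-1/2) log(ζ+m) + ζ + m - log(2π)/2 + o(1)
 = -(y + n + 1/2) log((ζ+n+1)/n) + ζ + 1 + o(1)` and `(n + const) log(1 + (ζ+1)/n) → ζ + 1`
(`Real.tendsto_mul_log_one_add_div_atTop` or similar). Finally shift the index
(`tendsto_add_atTop_iff_nat`).
-/

set_option autoImplicit false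

namespace Pool.Agent.Lib.MP_8382de_an.W3

open Filter Topology

theorem J_step {x ζ : ℝ} (hζ : 0 < ζ) (hx : 0 < ζ + x) :
    J x ζ - J x (ζ + 1) =
    (ζ + x + 1 / 2) * Real.log (ζ + 1) - (ζ + x - 1 / 2) * Real.log ζ - 1 - Real.log (ζ + x) := by
  have h1 : Real.log (Real.Gamma (ζ + 1 + x)) = Real.log (ζ + x) + Real.log (Real.Gamma (ζ + x)) := by
    rw [show ζ + 1 + x = (ζ + x) + 1 by ring, Real.Gamma_add_one hx.ne',
      Real.log_mul hx.ne' (Real.Gamma_pos_of_pos hx).ne']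
  unfold J
  rw [h1]
  ring

private theorem JStep_sum {y : ℝ} (hy : 0 < y) (n : ℕ) :
    ∑ m ∈ Finset.range n, Real.log (y + m) =
      Real.log (Real.Gamma (y + n)) - Real.log (Real.Gamma y) := by
  induction n with
  | zero => simp
  | succ n ih =>
    have h0 : (0 : ℝ) < y + n := by positivity
    rw [Finset.sum_range_succ, ih]
    push_cast
    rw [← add_assoc, Real.Gamma_add_one h0.ne',
      Real.log_mul h0.ne' (Real.Gamma_pos_of_pos h0).ne']
    ring

theorem J_lim {x ζ : ℝ} (hζ : 0 < ζ) (hx : 0 < ζ + x) :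
    Tendsto (fun n : ℕ => J x (ζ + n)) atTop (𝓝 0) := by
  rw [← tendsto_add_atTop_iff_nat 1]
  -- first piece
  have h1 : Tendsto (fun n : ℕ => Real.log (Real.Gamma (ζ + x)) -
      Real.BohrMollerup.logGammaSeq (ζ + x) n) atTop (𝓝 0) := by
    have h := (tendsto_const_nhds (x := Real.log (Real.Gamma (ζ + x)))).sub
      (Real.BohrMollerup.tendsto_log_gamma hx)
    rwa [sub_self] at h
  -- Stirling
  have h2 : Tendsto (fun n : ℕ => Real.log (Stirling.stirlingSeq n) -
      Real.log Real.pi / 2) atTop (𝓝 0) := by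
    have hp : (0 : ℝ) < Real.sqrt Real.pi := Real.sqrt_pos.2 Real.pi_pos
    have h := ((Real.continuousAt_log hp.ne').tendsto.comp
      Stirling.tendsto_stirlingSeq_sqrt_pi).sub
      (tendsto_const_nhds (x := Real.log Real.pi / 2))
    rw [Real.log_sqrt Real.pi_pos.le, sub_self] at h
    exact h
  -- the logarithm
  have h3 : Tendsto (fun n : ℕ => (n : ℝ) * Real.log (1 + (ζ + 1) / (n : ℝ))) atTop
      (𝓝 (ζ + 1)) :=
    (Real.tendsto_mul_log_one_add_div_atTop (ζ + 1)).comp tendsto_natCast_atTop_atTop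
  have h4 : Tendsto (fun n : ℕ => Real.log (1 + (ζ + 1) / (n : ℝ))) atTop (𝓝 0) := by
    have h5 : Tendsto (fun n : ℕ => 1 + (ζ + 1) / (n : ℝ)) atTop (𝓝 (1 + 0)) :=
      tendsto_const_nhds.add (tendsto_const_div_atTop_nhds_zero_nat (ζ + 1))
    rw [add_zero] at h5
    have h6 := (Real.continuousAt_log (one_ne_zero (α := ℝ))).tendsto.comp h5
    rw [Real.log_one] at h6
    exact h6
  have h5 := (((h1.add h2).sub h3).sub (h4.const_mul (ζ + x + 1 / 2))).add_const (ζ + 1)
  have e0 : (0 : ℝ) + 0 - (ζ + 1) - (ζ + x + 1 / 2) * 0 + (ζ + 1) = 0 := by ring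
  rw [e0] at h5
  refine h5.congr' ?_
  filter_upwards [eventually_ge_atTop 1] with n hn
  have hn0 : (0 : ℝ) < n := by exact_mod_cast hn
  have e1 : Real.log (1 + (ζ + 1) / (n : ℝ)) = Real.log (ζ + (n + 1)) - Real.log n := by
    rw [← Real.log_div (by positivity) hn0.ne']
    congr 1
    field_simp
    ring
  have e2 := JStep_sum hx (n + 1)
  have e3 := Stirling.log_stirlingSeq_formula n
  have e4 : Real.log (2 * (n : ℝ)) = Real.log 2 + Real.log n :=
    Real.log_mul two_ne_zero hn0.ne'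
  have e5 : Real.log ((n : ℝ) / Real.exp 1) = Real.log n - 1 := by
    rw [Real.log_div hn0.ne' (Real.exp_pos 1).ne', Real.log_exp]
  have e6 : Real.log (2 * Real.pi) = Real.log 2 + Real.log Real.pi :=
    Real.log_mul two_ne_zero Real.pi_ne_zero
  rw [e4, e5] at e3
  unfold J Real.BohrMollerup.logGammaSeq
  rw [e1, e2, e3, e6]
  push_cast
  rw [show ζ + x + ((n : ℝ) + 1) = ζ + ((n : ℝ) + 1) + x by ring]
  ring

end Pool.Agent.Lib.MP_8382de_an.W3
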