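import Pool.Agent.Lib.MP_8382de_an.W3.BStep
import Pool.Agent.Lib.MP_8382de_an.W3.JStep

/-!
# W3.Bin: Binet's formula

`D(ζ) = B(ζ) - J x ζ` satisfies `D(ζ) = D(ζ+1)` (`B_step`, `J_step`), so `D(ζ) = D(ζ+n) → 0`
(`B_lim`, `J_lim`).
-/

set_option autoImplicit false

namespace Pool.Agent.Lib.MP_8382de_an.W3

open MeasureTheory Set Filter Topology

theorem binet {x ζ : ℝ} (hζ : 0 < ζ) (hx : 0 < ζ + x) :
    ∫ v in Ioi (0 : ℝ), K x v * Real.exp (-(ζ * v)) / v = J x ζ := by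
  have hstep : ∀ n : ℕ,
      (∫ v in Ioi (0 : ℝ), K x v * Real.exp (-((ζ + n) * v)) / v) - J x (ζ + n) =
      (∫ v in Ioi (0 : ℝ), K x v * Real.exp (-(ζ * v)) / v) - J x ζ := by
    intro n
    induction n with
    | zero => simp
    | succ n ih =>
      have hn : (0 : ℝ) ≤ (n : ℝ) := Nat.cast_nonneg n
      have h1 : 0 < ζ + n := by linarith
      have h2 : 0 < ζ + n + x := by linarith
      have hB := B_step h1 h2
      have hJ := J_step h1 h2
      have e : ζ + ((n + 1 : ℕ) : ℝ) = ζ + n + 1 := by push_cast; ring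
      rw [e, ← ih]
      linarith
  have hlim := (B_lim hζ hx).sub (J_lim hζ hx)
  rw [sub_zero] at hlim
  have hconst : Tendsto (fun n : ℕ =>
      (∫ v in Ioi (0 : ℝ), K x v * Real.exp (-((ζ + n) * v)) / v) - J x (ζ + n)) atTop
      (𝓝 ((∫ v in Ioi (0 : ℝ), K x v * Real.exp (-(ζ * v)) / v) - J x ζ)) := by
    rw [tendsto_congr hstep]
    exact tendsto_const_nhds
  have := tendsto_nhds_unique hconst hlim
  linarith

end Pool.Agent.Lib.MP_8382de_an.W3
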