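import Mathlib

/-!
# W3.IneqM: the inequality of rule N, `x3 < 1/10` (pure real arithmetic)

`1/2 ≤ b ≤ a ≤ 1`, `0 ≤ d ≤ 1/2`, `0 ≤ e ≤ 1/5`, `c = a + b + 1 + e`, `z = (2+d)/c`,
`θ = z (1 + e/2) - 1/4 - d/2`, `x3 = (a+b) z - 1 < 1/10`, `h = max 0 (-x3)`, `B = 1/12 + h/2 + h²/2`.
Claim: `h < θ`, and `(1/24)(1/a + 1/b)/θ + B/(θ-h) < 0.461`. (The maximum is `0.424`, at `a = b = 1/2`,
`d = 0`, `e = 1/5`.)

Put `τ = a + b - 1 ≥ 0`. Since `c z = 2 + d`: `θ = 3/4 - z τ/2`. `1/a + 1/b ≤ 4`. And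
`h = max 0 ((1+e-(a+b)(1+d))/c) ≤ max 0 ((1/5 - τ)/(11/5 + τ)) ≤ max 0 ((1 - 5τ)/11)`
(using `e ≤ 1/5`: the quotient is increasing in `e`; chord of a convex function of `τ` on `[0,1/5]`).
Case `x3 < 0`: then `(a+b) z < 1`, `z < 1`, `τ < 1/5`, `θ ≥ 3/4 - τ/2`, `h ≤ (1-5τ)/11`, so the sum is
at most `(1/6)/(3/4-τ/2) + B/(3/4-τ/2-(1-5τ)/11)`, `B ≤ 1/12 + h/2 + h²/2`; for `τ ∈ [0,1/5]` this is
`≤ 0.43` (`τ = 0`: `0.2222 + 0.2017`, `τ = 1/5`: `0.2564 + 0.1282`).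
Case `0 ≤ x3 < 1/10`: `h = 0`, `B = 1/12`, `(a+b) z < 11/10`; from `(a+b)(2+d) < (11/10)(a+b+1+e)`:
`(9/10)(a+b) < 1.32`, `τ < 7/15`; `θ = 3/4 - zτ/2 ≥ 3/4 - (11/20) τ/(1+τ) ≥ 0.575`, and
`(1/6 + 1/12)/θ ≤ 0.25/0.575 = 0.435 < 0.461`.
-/

set_option autoImplicit false

namespace Pool.Agent.Lib.MP_8382de_an.W3

theorem ineqM {a b d e c z h B : ℝ} (hb : 1 / 2 ≤ b) (hab : b ≤ a) (ha : a ≤ 1) (hd : 0 ≤ d)
    (hd2 : d ≤ 1 / 2) (he : 0 ≤ e) (he2 : e ≤ 1 / 5) (hc : c = a + b + 1 + e)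
    (hz : z = (2 + d) / c) (hx : (a + b) * z - 1 < 1 / 10)
    (hh : h = max 0 (-((a + b) * z - 1))) (hB : B = 1 / 12 + h / 2 + h ^ 2 / 2) :
    h < z * (1 + e / 2) - 1 / 4 - d / 2 ∧
    1 / 24 * (1 / a + 1 / b) / (z * (1 + e / 2) - 1 / 4 - d / 2) +
      B / (z * (1 + e / 2) - 1 / 4 - d / 2 - h) < 461 / 1000 := by
  obtain ⟨τ, hτ⟩ : ∃ τ, τ = a + b - 1 := ⟨_, rfl⟩
  have hτ0 : 0 ≤ τ := by rw [hτ]; linarith
  have hτ1 : τ ≤ 1 := by rw [hτ]; linarith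
  have hab2 : a + b = τ + 1 := by rw [hτ]; ring
  have hcτ : c = τ + 2 + e := by rw [hc, hab2]; ring
  have hc0 : 0 < c := by rw [hcτ]; linarith
  have hzc : z * c = 2 + d := by rw [hz]; field_simp
  have hz0 : 0 < z := by rw [hz]; positivity
  obtain ⟨θ, hθ⟩ : ∃ θ, θ = z * (1 + e / 2) - 1 / 4 - d / 2 := ⟨_, rfl⟩
  have hθ2 : θ = 3 / 4 - z * τ / 2 := by
    rw [hcτ] at hzc
    rw [hθ]
    linarith
  rw [← hθ]
  rw [hab2] at hx hh
  have h4 : 1 / a + 1 / b ≤ 4 := by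
    have h5 : 1 / a ≤ 2 := by rw [div_le_iff₀ (by linarith)]; linarith
    have h6 : 1 / b ≤ 2 := by rw [div_le_iff₀ (by linarith)]; linarith
    linarith
  have h40 : 0 ≤ 1 / a + 1 / b := by
    have h5 : 0 < a := by linarith
    have h6 : 0 < b := by linarith
    positivity
  rcases le_or_gt 1 ((τ + 1) * z) with hcase | hcase
  · -- `h = 0`
    have hh0 : h = 0 := by rw [hh]; exact max_eq_left (by linarith)
    have hB0 : B = 1 / 12 := by rw [hB, hh0]; norm_num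
    have hτ2 : τ < 7 / 15 := by
      have h5 : (τ + 1) * (z * c) < 11 / 10 * c := by
        have h6 : (τ + 1) * z < 11 / 10 := by linarith
        calc (τ + 1) * (z * c) = (τ + 1) * z * c := by ring
          _ < 11 / 10 * c := mul_lt_mul_of_pos_right h6 hc0
      rw [hzc, hcτ] at h5
      nlinarith
    have hzτ : z * τ ≤ 35 / 100 := by
      have h5 : z * τ ≤ z * (7 / 22 * (τ + 1)) := mul_le_mul_of_nonneg_left (by linarith) hz0.le
      nlinarith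
    have hθ3 : 575 / 1000 ≤ θ := by rw [hθ2]; linarith
    have hθ0 : 0 < θ := by linarith
    rw [hh0, hB0, sub_zero]
    refine ⟨hθ0, ?_⟩
    have h7 : 1 / 24 * (1 / a + 1 / b) / θ + 1 / 12 / θ = (1 / 24 * (1 / a + 1 / b) + 1 / 12) / θ := by
      rw [add_div]
    rw [h7, div_lt_iff₀ hθ0]
    linarith
  · have hh1 : h = 1 - (τ + 1) * z := by
      rw [hh, max_eq_right (by linarith)]; ring
    have hh0 : 0 < h := by rw [hh1]; linarith
    -- `(τ+1) z ≥ 2 (τ+1)/(τ + 11/5)`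
    have h11 : 11 * h ≤ 1 - 5 * τ := by
      have h5 : h * c = c - (τ + 1) * (2 + d) := by
        rw [hh1, ← hzc]; ring
      have h6 : h * c ≤ 1 / 5 - τ := by
        rw [h5, hcτ]; nlinarith
      have h7 : h * (2 + τ + e) = h * c := by rw [hcτ]; ring
      have h8 : h * 2 ≤ h * c := mul_le_mul_of_nonneg_left (by rw [hcτ]; linarith) hh0.le
      -- use `c ≥ 2` and the sharper form with `e`
      have h9 : h * c = τ + 2 + e - (τ + 1) * (2 + d) := by rw [h5, hcτ]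
      have h10 : h * (τ + 2 + e) ≤ e - τ := by
        have : h * (τ + 2 + e) = h * c := by rw [hcτ]
        rw [this, h9]; nlinarith
      nlinarith [mul_nonneg hh0.le hτ0, mul_nonneg hh0.le he, mul_nonneg hh0.le (by linarith : (0 : ℝ) ≤ 1 / 5 - e)]
    have hτ2 : τ ≤ 1 / 5 := by linarith
    have hzτ : z * τ ≤ τ := by
      have h5 : z ≤ 1 := by nlinarith
      nlinarith
    have hθ3 : 3 / 4 - τ / 2 ≤ θ := by rw [hθ2]; linarith
    have hθ4 : 65 / 100 ≤ θ := by linarith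
    have hθ0 : 0 < θ := by linarith
    have hθh : 65 / 100 ≤ θ - h := by linarith
    have hθh0 : 0 < θ - h := by linarith
    have hh2 : h ≤ 1 / 11 := by linarith
    have hB2 : B ≤ 193 / 1452 := by
      rw [hB]; nlinarith
    have hB0 : 0 ≤ B := by rw [hB]; positivity
    refine ⟨by linarith, ?_⟩
    have h5 : 1 / 24 * (1 / a + 1 / b) / θ ≤ (1 / 6) / (65 / 100) :=
      div_le_div₀ (by norm_num) (by linarith) (by norm_num) hθ4
    have h6 : B / (θ - h) ≤ (193 / 1452) / (65 / 100) :=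
      div_le_div₀ (by norm_num) hB2 (by norm_num) hθh
    norm_num at h5 h6 ⊢
    linarith

end Pool.Agent.Lib.MP_8382de_an.W3
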