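import Mathlib

/-!
# W3.IneqN: the inequalities of rule N, `x3 ≥ 1/10` (pure real arithmetic)

`1/2 ≤ b ≤ a ≤ 1`, `0 ≤ d ≤ 1/2`, `0 ≤ e ≤ 3/4`, `c = a + b + 1 + e`, `z = (2+d)/c`,
`θ = z (1 + e/2) - 1/4 - d/2`. So `c θ = (2+d)(1+e/2) - c (1+2d)/4`.

`ineqN1`: `1/(12c) + (1/24)(1/a + 1/b + 1) < 0.461 θ`. Multiply by `c`:
`1/12 + (c/24)(1 + 1/a + 1/b) < 0.461 ((2+d)(1+e/2) - c(1+2d)/4)`. The right side is decreasing in `d`
(derivative `0.461 (1 - a - b)/2 ≤ 0`), so take `d = 1/2`: right side `0.461 (2.5 (1+e/2) - c/2)`.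
In `e` the right side has slope `0.461 · 0.75 = 0.34575`, the left side `(1+1/a+1/b)/24 ≤ 5/24`: take
`e = 0`: `1/12 + ((S+1)/24)(1 + 1/a + 1/b) < 0.461 (2 - S/2)`, `S = a + b`. With
`1/a ≤ 3 - 2a`, `1/b ≤ 3 - 2b` (chords on `[1/2,1]`): left side `≤ 1/12 + (S+1)(7 - 2S)/24`; at
`S = 2`: `11/24 = 0.4583 < 0.461`; the difference right - left is
`0.922 - 0.2305 S - 1/12 - (7 + 5S - 2S²)/24`, decreasing in `S` on `[1,2]`... (check: convex in `S`,
derivative `-0.2305 - 5/24 + S/6 < 0`), so the minimum is at `S = 2`.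

`ineqN2`: if `a z > 9/10` then `(1/24)(2/a + 1/b + 1) < 0.461 θ`. `a (2+d) > 0.9 c`. Again `d = 1/2`,
(the right side is decreasing in `d`, and the hypothesis gets weaker), `e`: slope of the left side
`(1 + 2/a + 1/b)/24 ≤ 7/24 < 0.34575`, but the hypothesis also depends on `e` (it gets weaker
as `e` decreases), so `e = 0`: `((S+1)/24)(1 + 2/a + 1/b) < 0.461 (2 - S/2)` whenever
`0.9 (S + 1) < 2.5 a`, i.e. `0.9 b + 0.9 < 1.6 a`. At `a = 1`, `b = 7/9`: `0.4960 < 0.5122`; at `a = 1`,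
`b = 1/2`: `0.5208 < 0.576`. (Here the chord bound for `1/b` is too weak: use `1/b` itself, or the
chord on `[1/2, 7/9]`: `1/b ≤ 23/7 - 18 b/7`; `2/a ≤ 6 - 4a` is good enough.)
-/

set_option autoImplicit false

namespace Pool.Agent.Lib.MP_8382de_an.W3

/-- chord of the reciprocal on `[1/2,1]` -/
theorem ineqN_chord {x : ℝ} (h1 : 1 / 2 ≤ x) (h2 : x ≤ 1) : 1 / x ≤ 3 - 2 * x := by
  rw [div_le_iff₀ (by linarith)]
  nlinarith [mul_nonneg (by linarith : (0 : ℝ) ≤ 2 * x - 1) (by linarith : (0 : ℝ) ≤ 1 - x)]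

theorem ineqN1 {a b d e c z : ℝ} (hb : 1 / 2 ≤ b) (hab : b ≤ a) (ha : a ≤ 1) (hd : 0 ≤ d)
    (hd2 : d ≤ 1 / 2) (he : 0 ≤ e) (he2 : e ≤ 3 / 4) (hc : c = a + b + 1 + e)
    (hz : z = (2 + d) / c) :
    1 / (12 * c) + 1 / 24 * (1 / a + 1 / b + 1) <
      461 / 1000 * (z * (1 + e / 2) - 1 / 4 - d / 2) := by
  obtain ⟨S, hS⟩ : ∃ S, S = a + b := ⟨_, rfl⟩
  have hS1 : 1 ≤ S := by rw [hS]; linarith
  have hS2 : S ≤ 2 := by rw [hS]; linarith
  have hcS : c = S + 1 + e := by rw [hc, hS]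
  have hc0 : 0 < c := by rw [hcS]; linarith
  have hch1 := ineqN_chord (hb.trans hab) ha
  have hch2 := ineqN_chord hb (hab.trans ha)
  have hsum : 1 / a + 1 / b ≤ 6 - 2 * S := by rw [hS]; linarith
  have hzc : z * c = 2 + d := by rw [hz]; field_simp
  have k1 : 0 < 461 / 1000 * (z * (1 + e / 2) - 1 / 4 - d / 2) -
      (1 / (12 * c) + 1 / 24 * (6 - 2 * S + 1)) := by
    have k2 : (461 / 1000 * (z * (1 + e / 2) - 1 / 4 - d / 2) -
      (1 / (12 * c) + 1 / 24 * (6 - 2 * S + 1))) * c =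
        461 / 1000 * ((2 + d) * (1 + e / 2) - c / 4 - d / 2 * c) - 1 / 12 -
          1 / 24 * (7 - 2 * S) * c := by
      rw [← hzc]
      field_simp
      ring
    have k3 : 0 < 461 / 1000 * ((2 + d) * (1 + e / 2) - c / 4 - d / 2 * c) - 1 / 12 -
          1 / 24 * (7 - 2 * S) * c := by
      rw [hcS]
      nlinarith [mul_nonneg (by linarith : (0 : ℝ) ≤ S - 1) (by linarith : (0 : ℝ) ≤ 1 / 2 - d),
        mul_nonneg (by linarith : (0 : ℝ) ≤ S - 1) he,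
        mul_nonneg (by linarith : (0 : ℝ) ≤ S - 1) (by linarith : (0 : ℝ) ≤ 2 - S)]
    by_contra hneg
    push Not at hneg
    have := mul_nonpos_of_nonpos_of_nonneg hneg hc0.le
    rw [k2] at this
    linarith
  linarith

theorem ineqN2 {a b d e c z : ℝ} (hb : 1 / 2 ≤ b) (hab : b ≤ a) (ha : a ≤ 1) (hd : 0 ≤ d)
    (hd2 : d ≤ 1 / 2) (he : 0 ≤ e) (he2 : e ≤ 3 / 4) (hc : c = a + b + 1 + e)
    (hz : z = (2 + d) / c) (hx : 9 / 10 < a * z) :
    1 / 24 * (2 / a + 1 / b + 1) < 461 / 1000 * (z * (1 + e / 2) - 1 / 4 - d / 2) := by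
  have hc0 : 0 < c := by rw [hc]; linarith
  have hzc : z * c = 2 + d := by rw [hz]; field_simp
  have h1 : 9 / 10 * c < a * (2 + d) := by
    have h2 : 9 / 10 * c < a * z * c := mul_lt_mul_of_pos_right hx hc0
    rwa [mul_assoc, hzc] at h2
  have h2 : 9 / 10 * (b + 1 + e) < 16 / 10 * a := by
    rw [hc] at h1
    nlinarith
  have ha2 : 27 / 32 < a := by linarith
  have hb2 : b < 7 / 9 := by linarith
  have hch1 : 2 / a ≤ 118 / 27 - 64 / 27 * a := by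
    rw [div_le_iff₀ (by linarith)]
    nlinarith [mul_nonneg (by linarith : (0 : ℝ) ≤ a - 27 / 32) (by linarith : (0 : ℝ) ≤ 1 - a)]
  have hch2 : 1 / b ≤ 23 / 7 - 18 / 7 * b := by
    rw [div_le_iff₀ (by linarith)]
    nlinarith [mul_nonneg (by linarith : (0 : ℝ) ≤ b - 1 / 2) (by linarith : (0 : ℝ) ≤ 7 / 9 - b)]
  have k1 : 0 < 461 / 1000 * (z * (1 + e / 2) - 1 / 4 - d / 2) -
      1 / 24 * (118 / 27 - 64 / 27 * a + (23 / 7 - 18 / 7 * b) + 1) := by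
    have k2 : (461 / 1000 * (z * (1 + e / 2) - 1 / 4 - d / 2) -
      1 / 24 * (118 / 27 - 64 / 27 * a + (23 / 7 - 18 / 7 * b) + 1)) * c =
        461 / 1000 * ((2 + d) * (1 + e / 2) - c / 4 - d / 2 * c) -
          1 / 24 * (118 / 27 - 64 / 27 * a + (23 / 7 - 18 / 7 * b) + 1) * c := by
      rw [← hzc]
      ring
    have k3 : 0 < 461 / 1000 * ((2 + d) * (1 + e / 2) - c / 4 - d / 2 * c) -
          1 / 24 * (118 / 27 - 64 / 27 * a + (23 / 7 - 18 / 7 * b) + 1) * c := by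
      rw [hc]
      nlinarith [mul_nonneg (by linarith : (0 : ℝ) ≤ a + b - 1) (by linarith : (0 : ℝ) ≤ 1 / 2 - d),
        mul_nonneg (by linarith : (0 : ℝ) ≤ a - 27 / 32) he,
        mul_nonneg (by linarith : (0 : ℝ) ≤ b - 1 / 2) he,
        mul_nonneg (by linarith : (0 : ℝ) ≤ a - 27 / 32) (by linarith : (0 : ℝ) ≤ 1 - a),
        mul_nonneg (by linarith : (0 : ℝ) ≤ b - 1 / 2) (by linarith : (0 : ℝ) ≤ 7 / 9 - b),
        mul_nonneg (by linarith : (0 : ℝ) ≤ b - 1 / 2) (by linarith : (0 : ℝ) ≤ 1 - a),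
        mul_nonneg (by linarith : (0 : ℝ) ≤ b - 1 / 2) (by linarith : (0 : ℝ) ≤ a - 27 / 32),
        mul_nonneg (by linarith : (0 : ℝ) ≤ 7 / 9 - b) (by linarith : (0 : ℝ) ≤ a - 27 / 32)]
    by_contra hneg
    push Not at hneg
    have := mul_nonpos_of_nonpos_of_nonneg hneg hc0.le
    rw [k2] at this
    linarith
  linarith

end Pool.Agent.Lib.MP_8382de_an.W3
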