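import Pool.Agent.Lib.MP_8382de_an.W3.Ser

/-!
# W3.KUp: upper bounds for `K x v`

`K_of_coeff`: if `n (1-x)^(n-1) ≤ 1 + (1/2-x) n + κ n(n-1)` for all `n ≥ 3` then `K x v ≤ κ v`.
Proof: multiply by `v (e^v - 1) > 0` (`e^(-xv)/(1-e^(-v)) = e^((1-x)v)/(e^v-1)`); the claim becomes
`v e^((1-x)v) ≤ (e^v - 1)(1 + (1/2-x) v + κ v²)`, i.e. `0 ≤ e^v + (1/2-x) v e^v + κ v² e^v - v e^((1-x)v)
- 1 - (1/2-x) v - κ v²`. By `ser0, ser1, ser2` the first four terms are `∑ c_n v^n/n!` with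
`c_n = 1 + (1/2-x) n + κ n(n-1) - n (1-x)^(n-1)`; `c_0 = 1`, `c_1 = 1/2 - x`, `c_2 = 2κ`, and
`c_n ≥ 0` for `n ≥ 3`: so the sum is at least the sum of the first three terms
(`sum_le_hasSum`), which is `1 + (1/2-x) v + κ v²`.

`K_up24`: `κ = 1/24`, `x = 1/10` and `x = 17/20` by `K_of_coeff`:
`x = 1/10`: `n (9/10)^(n-1) ≤ 1 + 2n/5 + n(n-1)/24`: `n = 3`: `2.43 ≤ 2.45`; `n = 4`: `2.916 ≤ 3.1`;
`n = 5`: `3.2805 ≤ 3.83`; for `n ≥ 5`: `n (9/10)^(n-1) ≤ n (9/10)^4 ≤ 0.6562 n ≤ 0.4 n + n(n-1)/24 + 1`.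
`x = 17/20`: `n (3/20)^(n-1) ≤ 1 - 7n/20 + n(n-1)/24`: `n = 3`: `0.0675 ≤ 0.2`; `n = 4`: `0.0135 ≤ 0.1`;
`n = 5`: `0.0026 ≤ 0.083`; `n ≥ 5`: left side `≤ n (3/20)^4 ≤ 0.0006 n`, right side
`≥ 0.08 + 0.06 (n - 5)` (quadratic). For `x` between use that `K x v` is a convex function of `x`
(`exp` is convex: `e^(-xv) ≤ ((x₁-x) e^(-x₀v) + (x-x₀) e^(-x₁v))/(x₁-x₀)`).

`K_up12`: `κ = 1/12`, `x = 0`: `n ≤ 1 + n/2 + n(n-1)/12` iff `(n-3)(n-4) ≥ 0`. And
`K 1 v = K 0 v` (`e^(-v)/(1-e^(-v)) = 1/(1-e^(-v)) - 1`). Convexity again.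

`K0_nonneg`: `1/(1-e^(-v)) ≥ 1/v + 1/2` iff `v e^v ≥ (e^v-1)(1+v/2)`; coefficients `n ≥ 1 + n/2` for
`n ≥ 2`, equality of the terms `n = 0, 1`.
-/

set_option autoImplicit false

namespace Pool.Agent.Lib.MP_8382de_an.W3

private theorem KUp_den {v : ℝ} (hv : 0 < v) : 0 < 1 - Real.exp (-v) := by
  have : Real.exp (-v) < 1 := by
    rw [Real.exp_lt_one_iff]; linarith
  linarith

private theorem KUp_frac (x : ℝ) {v : ℝ} (hv : 0 < v) :
    Real.exp (-(x * v)) / (1 - Real.exp (-v)) = Real.exp ((1 - x) * v) / (Real.exp v - 1) := by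
  have h1 := KUp_den hv
  have h2 : Real.exp v - 1 = Real.exp v * (1 - Real.exp (-v)) := by
    have : Real.exp v * Real.exp (-v) = 1 := by rw [← Real.exp_add]; simp
    linear_combination this
  have h3 : Real.exp ((1 - x) * v) = Real.exp v * Real.exp (-(x * v)) := by
    rw [← Real.exp_add]; congr 1; ring
  rw [h2, h3]
  have := (Real.exp_pos v).ne'
  field_simp

theorem K_of_coeff {x κ : ℝ}
    (h : ∀ n : ℕ, 3 ≤ n → (n : ℝ) * (1 - x) ^ (n - 1) ≤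
      1 + (1 / 2 - x) * (n : ℝ) + κ * ((n : ℝ) * ((n : ℝ) - 1))) {v : ℝ} (hv : 0 < v) :
    K x v ≤ κ * v := by
  have hs := ((ser0 1 v).add ((ser1 1 v).mul_left (1 / 2 - x))).add ((ser2 1 v).mul_left κ)
  have hs2 := hs.sub (ser1 (1 - x) v)
  have hsum := sum_le_hasSum (Finset.range 3) (fun n hn => by
    have hn3 : 3 ≤ n := by
      rw [Finset.mem_range] at hn; omega
    have hc := h n hn3
    have hp : 0 ≤ v ^ n / (n.factorial : ℝ) := by positivity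
    have e : (1 : ℝ) ^ n * (v ^ n / (n.factorial : ℝ)) +
        (1 / 2 - x) * ((n : ℝ) * 1 ^ (n - 1) * (v ^ n / (n.factorial : ℝ))) +
        κ * ((n : ℝ) * ((n : ℝ) - 1) * 1 ^ (n - 2) * (v ^ n / (n.factorial : ℝ))) -
        (n : ℝ) * (1 - x) ^ (n - 1) * (v ^ n / (n.factorial : ℝ)) =
        (1 + (1 / 2 - x) * (n : ℝ) + κ * ((n : ℝ) * ((n : ℝ) - 1)) -
          (n : ℝ) * (1 - x) ^ (n - 1)) * (v ^ n / (n.factorial : ℝ)) := by
      simp only [one_pow]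
      ring
    show 0 ≤ _
    rw [e]
    exact mul_nonneg (by linarith) hp) hs2
  simp [Finset.sum_range_succ] at hsum
  have hE : 0 < Real.exp v - 1 := by
    have := Real.add_one_lt_exp hv.ne'
    linarith
  have hkey : v * Real.exp ((1 - x) * v) ≤
      (Real.exp v - 1) * (1 + (1 / 2 - x) * v + κ * v ^ 2) := by
    nlinarith [hsum]
  unfold K
  rw [KUp_frac x hv]
  have h5 : Real.exp ((1 - x) * v) / (Real.exp v - 1) ≤
      (1 + (1 / 2 - x) * v + κ * v ^ 2) / v := by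
    rw [div_le_div_iff₀ hE hv]
    linarith
  have h6 : (1 + (1 / 2 - x) * v + κ * v ^ 2) / v = 1 / v + 1 / 2 - x + κ * v := by
    field_simp
    ring
  rw [h6] at h5
  linarith

theorem K0_nonneg {v : ℝ} (hv : 0 < v) : 0 ≤ K 0 v := by
  have hs := ((ser0 1 v).add ((ser1 1 v).mul_left (1 / 2)))
  have hs2 := (ser1 1 v).sub hs
  have hsum := sum_le_hasSum (Finset.range 2) (fun n hn => by
    have hn3 : 2 ≤ n := by
      rw [Finset.mem_range] at hn; omega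
    have hn3' : (2 : ℝ) ≤ (n : ℝ) := by exact_mod_cast hn3
    have hp : 0 ≤ v ^ n / (n.factorial : ℝ) := by positivity
    have e : (n : ℝ) * 1 ^ (n - 1) * (v ^ n / (n.factorial : ℝ)) -
        ((1 : ℝ) ^ n * (v ^ n / (n.factorial : ℝ)) +
        1 / 2 * ((n : ℝ) * 1 ^ (n - 1) * (v ^ n / (n.factorial : ℝ)))) =
        ((n : ℝ) / 2 - 1) * (v ^ n / (n.factorial : ℝ)) := by
      simp only [one_pow]
      ring
    show 0 ≤ _
    rw [e]
    exact mul_nonneg (by linarith) hp) hs2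
  simp [Finset.sum_range_succ] at hsum
  have hE : 0 < Real.exp v - 1 := by
    have := Real.add_one_lt_exp hv.ne'
    linarith
  unfold K
  rw [KUp_frac 0 hv]
  have h5 : (1 + v / 2) / v ≤ Real.exp ((1 - 0) * v) / (Real.exp v - 1) := by
    rw [div_le_div_iff₀ hv hE]
    have : (1 - 0) * v = v := by ring
    rw [this]
    nlinarith [hsum]
  have h6 : (1 + v / 2) / v = 1 / v + 1 / 2 := by
    field_simp
    try ring
  rw [h6] at h5
  linarith

private theorem KUp_convex {x₀ x₁ x κ v : ℝ} (h01 : x₀ < x₁) (h0 : x₀ ≤ x) (h1 : x ≤ x₁)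
    (hv : 0 < v) (k0 : K x₀ v ≤ κ) (k1 : K x₁ v ≤ κ) : K x v ≤ κ := by
  have hd := KUp_den hv
  set s := (x₁ - x) / (x₁ - x₀) with hsdef
  set t := (x - x₀) / (x₁ - x₀) with htdef
  have hne : x₁ - x₀ ≠ 0 := by linarith
  have hs : 0 ≤ s := div_nonneg (by linarith) (by linarith)
  have ht : 0 ≤ t := div_nonneg (by linarith) (by linarith)
  have hst : s + t = 1 := by
    rw [hsdef, htdef]; field_simp; ring
  have hx : x = s * x₀ + t * x₁ := by
    rw [hsdef, htdef]; field_simp; ring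
  have hconv := convexOn_exp.2 (Set.mem_univ (-(x₀ * v))) (Set.mem_univ (-(x₁ * v))) hs ht hst
  simp only [smul_eq_mul] at hconv
  have e : s * -(x₀ * v) + t * -(x₁ * v) = -(x * v) := by
    rw [hx]; ring
  rw [e] at hconv
  have hk : K x v ≤ s * K x₀ v + t * K x₁ v := by
    unfold K
    have h1 : Real.exp (-(x * v)) / (1 - Real.exp (-v)) ≤
        (s * Real.exp (-(x₀ * v)) + t * Real.exp (-(x₁ * v))) / (1 - Real.exp (-v)) :=
      div_le_div_of_nonneg_right hconv hd.le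
    have h2 : s * (Real.exp (-(x₀ * v)) / (1 - Real.exp (-v)) - 1 / v - 1 / 2 + x₀) +
        t * (Real.exp (-(x₁ * v)) / (1 - Real.exp (-v)) - 1 / v - 1 / 2 + x₁) =
        (s * Real.exp (-(x₀ * v)) + t * Real.exp (-(x₁ * v))) / (1 - Real.exp (-v)) -
        (s + t) * (1 / v) - (s + t) * (1 / 2) + (s * x₀ + t * x₁) := by
      rw [add_div]; ring
    rw [h2, hst, ← hx]
    linarith
  have : s * K x₀ v + t * K x₁ v ≤ s * κ + t * κ := by
    gcongr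
  have h3 : s * κ + t * κ = κ := by rw [← add_mul, hst, one_mul]
  linarith

private theorem KUp_one {v : ℝ} (hv : 0 < v) : K 1 v = K 0 v := by
  have hd := KUp_den hv
  unfold K
  have : Real.exp (-(1 * v)) = Real.exp (-v) := by rw [one_mul]
  have h0 : Real.exp (-(0 * v)) = 1 := by simp
  rw [this, h0]
  have h2 : Real.exp (-v) / (1 - Real.exp (-v)) = 1 / (1 - Real.exp (-v)) - 1 := by
    field_simp
    ring
  rw [h2]
  ring

private theorem KUp_zero12 {v : ℝ} (hv : 0 < v) : K 0 v ≤ 1 / 12 * v := by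
  apply K_of_coeff _ hv
  intro n hn
  have hn' : (3 : ℝ) ≤ (n : ℝ) := by exact_mod_cast hn
  have e : (1 - (0 : ℝ)) ^ (n - 1) = 1 := by simp
  rw [e]
  rcases Nat.lt_or_ge n 4 with h | h
  · have : n = 3 := by omega
    subst this
    norm_num
  · have hn4 : (4 : ℝ) ≤ (n : ℝ) := by exact_mod_cast h
    nlinarith [mul_nonneg (sub_nonneg.2 hn') (sub_nonneg.2 hn4)]

theorem K_up12 {x : ℝ} (h0 : 0 ≤ x) (h1 : x ≤ 1) {v : ℝ} (hv : 0 < v) : K x v ≤ v / 12 := by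
  have hz := KUp_zero12 hv
  have ho := KUp_one hv
  exact KUp_convex (x₀ := 0) (x₁ := 1) one_pos h0 h1 hv (by linarith) (by linarith)

private theorem KUp_a {v : ℝ} (hv : 0 < v) : K (1 / 10) v ≤ 1 / 24 * v := by
  apply K_of_coeff _ hv
  intro n hn
  rcases Nat.lt_or_ge n 5 with h | h
  · interval_cases n <;> norm_num
  · have hn5 : (5 : ℝ) ≤ (n : ℝ) := by exact_mod_cast h
    have hp : (1 - (1 / 10 : ℝ)) ^ (n - 1) ≤ (1 - (1 / 10 : ℝ)) ^ 4 :=
      pow_le_pow_of_le_one (by norm_num) (by norm_num) (by omega)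
    have h2 : (n : ℝ) * (1 - (1 / 10 : ℝ)) ^ (n - 1) ≤ (n : ℝ) * (1 - (1 / 10 : ℝ)) ^ 4 := by
      gcongr
    norm_num at h2 ⊢
    nlinarith [mul_nonneg (sub_nonneg.2 hn5) (sub_nonneg.2 hn5)]

private theorem KUp_b {v : ℝ} (hv : 0 < v) : K (17 / 20) v ≤ 1 / 24 * v := by
  apply K_of_coeff _ hv
  intro n hn
  rcases Nat.lt_or_ge n 5 with h | h
  · interval_cases n <;> norm_num
  · have hn5 : (5 : ℝ) ≤ (n : ℝ) := by exact_mod_cast h
    have hp : (1 - (17 / 20 : ℝ)) ^ (n - 1) ≤ (1 - (17 / 20 : ℝ)) ^ 4 :=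
      pow_le_pow_of_le_one (by norm_num) (by norm_num) (by omega)
    have h2 : (n : ℝ) * (1 - (17 / 20 : ℝ)) ^ (n - 1) ≤ (n : ℝ) * (1 - (17 / 20 : ℝ)) ^ 4 := by
      gcongr
    norm_num at h2 ⊢
    nlinarith [mul_nonneg (sub_nonneg.2 hn5) (sub_nonneg.2 hn5)]

theorem K_up24 {x : ℝ} (h0 : 1 / 10 ≤ x) (h1 : x ≤ 17 / 20) {v : ℝ} (hv : 0 < v) :
    K x v ≤ v / 24 := by
  have ha := KUp_a hv
  have hb := KUp_b hv
  exact KUp_convex (x₀ := 1 / 10) (x₁ := 17 / 20) (by norm_num) h0 h1 hv (by linarith) (by linarith)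

end Pool.Agent.Lib.MP_8382de_an.W3
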