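import Pool.Agent.Lib.MP_8382de_an.W3.KLow
import Pool.Agent.Lib.MP_8382de_an.W3.KUp

/-!
# W3.KNg: `K x v` for negative `x`, and a general bound

`1/(1-e^(-v)) = K 0 v + 1/v + 1/2`, so for every real `x`
`K x v = e^(-xv) K 0 v + (e^(-xv) - 1)/v + x + (e^(-xv) - 1)/2`.

`K_neg` (`x = -h`, `h ≥ 0`): `0 ≤ K 0 v ≤ v/12`; `(e^(hv) - 1)/v - h ≤ (h² v/2) e^(hv)`
(`e^y - 1 - y ≤ (y²/2) e^y` for `y ≥ 0`) and `(e^(hv) - 1)/2 ≤ (hv/2) e^(hv)` (`1 - e^(-y) ≤ y`).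

`K_pos` (`x ≥ 0`): `e^(-xv) ≤ 1 - xv + x²v²/2`, `e^(-xv) ≤ 1`:
`K x v ≤ v/12 + (-x + x² v/2) + x + 0`.

`K_abs`: `x ≥ 0`: `-v/24 ≤ K x v ≤ v/12 + x² v/2`; `x < 0`: `-v/24 ≤ K x v ≤ (...) v e^(-xv)`.
-/

set_option autoImplicit false

namespace Pool.Agent.Lib.MP_8382de_an.W3

private theorem KNg_split (x : ℝ) {v : ℝ} (hv : 0 < v) :
    K x v = Real.exp (-(x * v)) * K 0 v + (Real.exp (-(x * v)) - 1) / v + x +
      (Real.exp (-(x * v)) - 1) / 2 := by
  unfold K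
  have h0 : Real.exp (-(0 * v)) = 1 := by simp
  have hd : 0 < 1 - Real.exp (-v) := by
    have : Real.exp (-v) < 1 := by
      rw [Real.exp_lt_one_iff]; linarith
    linarith
  rw [h0]
  have hne := hd.ne'
  field_simp
  ring

/-- `e^(-y) ≤ 1 - y + y²/2` for `y ≥ 0` -/
private theorem KNg_exp_neg {y : ℝ} (hy : 0 ≤ y) : Real.exp (-y) ≤ 1 - y + y ^ 2 / 2 := by
  have h1 : 1 + y + y ^ 2 / 2 ≤ Real.exp y := Real.quadratic_le_exp_of_nonneg hy
  have hp : 0 < Real.exp y := Real.exp_pos y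
  have h2 : 1 - y + y ^ 2 / 2 > 0 := by nlinarith [sq_nonneg (y - 1)]
  rw [Real.exp_neg, inv_le_iff_one_le_mul₀ hp]
  have h3 : (1 - y + y ^ 2 / 2) * (1 + y + y ^ 2 / 2) ≤ (1 - y + y ^ 2 / 2) * Real.exp y :=
    mul_le_mul_of_nonneg_left h1 h2.le
  have h4 : (1 - y + y ^ 2 / 2) * (1 + y + y ^ 2 / 2) = 1 + y ^ 4 / 4 := by ring
  have h5 : 0 ≤ y ^ 4 / 4 := by positivity
  linarith

/-- `e^y ≤ 1 + y + (y²/2) e^y` for `y ≥ 0` -/
private theorem KNg_exp2 {y : ℝ} (hy : 0 ≤ y) :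
    Real.exp y ≤ 1 + y + y ^ 2 / 2 * Real.exp y := by
  have hs2 := ((ser2 1 y).mul_left (1 / 2)).sub (ser0 1 y)
  have hsum := sum_le_hasSum (Finset.range 2) (fun n hn => by
    have hn3 : 2 ≤ n := by
      rw [Finset.mem_range] at hn; omega
    have hn3' : (2 : ℝ) ≤ (n : ℝ) := by exact_mod_cast hn3
    have hp : 0 ≤ y ^ n / (n.factorial : ℝ) := by positivity
    have e : 1 / 2 * ((n : ℝ) * ((n : ℝ) - 1) * 1 ^ (n - 2) * (y ^ n / (n.factorial : ℝ))) -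
        (1 : ℝ) ^ n * (y ^ n / (n.factorial : ℝ)) =
        ((n : ℝ) * ((n : ℝ) - 1) / 2 - 1) * (y ^ n / (n.factorial : ℝ)) := by
      simp only [one_pow]
      ring
    show 0 ≤ _
    rw [e]
    exact mul_nonneg (by nlinarith) hp) hs2
  simp [Finset.sum_range_succ] at hsum
  linarith

theorem K_neg {h : ℝ} (hh : 0 ≤ h) {v : ℝ} (hv : 0 < v) :
    K (-h) v ≤ (1 / 12 + h / 2 + h ^ 2 / 2) * (v * Real.exp (h * v)) := by
  rw [KNg_split (-h) hv]
  have e : -(-h * v) = h * v := by ring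
  rw [e]
  have hy : 0 ≤ h * v := by positivity
  have hp := Real.exp_pos (h * v)
  have h2 : 1 - h * v ≤ Real.exp (-(h * v)) := by
    have := Real.add_one_le_exp (-(h * v)); linarith
  have hm : Real.exp (h * v) * Real.exp (-(h * v)) = 1 := by
    rw [← Real.exp_add]; simp
  have h3 : Real.exp (h * v) - 1 ≤ (h * v) * Real.exp (h * v) := by
    have := mul_le_mul_of_nonneg_left h2 hp.le
    rw [hm] at this
    nlinarith
  have h4 := KNg_exp2 hy
  have h5 : (Real.exp (h * v) - 1) / v ≤ h + h ^ 2 / 2 * (v * Real.exp (h * v)) := by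
    rw [div_le_iff₀ hv]
    nlinarith [h4]
  have h6 : Real.exp (h * v) * K 0 v ≤ Real.exp (h * v) * (v / 12) :=
    mul_le_mul_of_nonneg_left (K_up12 le_rfl zero_le_one hv) hp.le
  nlinarith [h3, h5, h6]

theorem K_pos {x : ℝ} (hx : 0 ≤ x) {v : ℝ} (hv : 0 < v) :
    K x v ≤ (1 / 12 + x ^ 2 / 2) * v := by
  rw [KNg_split x hv]
  have hy : 0 ≤ x * v := by positivity
  have hp := Real.exp_pos (-(x * v))
  have h1 : Real.exp (-(x * v)) ≤ 1 := by
    rw [Real.exp_le_one_iff]; linarith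
  have h2 := KNg_exp_neg hy
  have h3 : (Real.exp (-(x * v)) - 1) / v ≤ -x + x ^ 2 / 2 * v := by
    rw [div_le_iff₀ hv]
    nlinarith [h2]
  have h4 : Real.exp (-(x * v)) * K 0 v ≤ 1 * (v / 12) :=
    mul_le_mul h1 (K_up12 le_rfl zero_le_one hv) (K0_nonneg hv) zero_le_one
  nlinarith

theorem K_abs (x : ℝ) {v : ℝ} (hv : 0 < v) :
    |K x v| ≤ (1 / 12 + |x| / 2 + x ^ 2 / 2) * (v * Real.exp (max 0 (-x) * v)) := by
  have hE : 1 ≤ Real.exp (max 0 (-x) * v) := by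
    apply Real.one_le_exp
    positivity
  have hvE : v ≤ v * Real.exp (max 0 (-x) * v) := by nlinarith
  have hpos : 0 ≤ |x| / 2 + x ^ 2 / 2 := by positivity
  rw [abs_le]
  constructor
  · have h1 := K_low x hv
    have h2 : v / 24 ≤ (1 / 12 + |x| / 2 + x ^ 2 / 2) * (v * Real.exp (max 0 (-x) * v)) := by
      have h3 : (1 / 24 : ℝ) * v ≤ (1 / 12 + |x| / 2 + x ^ 2 / 2) *
          (v * Real.exp (max 0 (-x) * v)) := by
        apply mul_le_mul _ hvE hv.le (by positivity)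
        linarith
      linarith
    linarith
  · rcases le_total 0 x with hx | hx
    · have h1 := K_pos hx hv
      have h3 : (1 / 12 + x ^ 2 / 2) * v ≤ (1 / 12 + |x| / 2 + x ^ 2 / 2) *
          (v * Real.exp (max 0 (-x) * v)) := by
        apply mul_le_mul _ hvE hv.le (by positivity)
        have : 0 ≤ |x| := abs_nonneg x
        linarith
      linarith
    · have h1 := K_neg (h := -x) (by linarith) hv
      have e : max 0 (-x) = -x := max_eq_right (by linarith)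
      have e2 : |x| = -x := abs_of_nonpos hx
      rw [e, e2]
      rw [neg_neg] at h1
      have e3 : (-x) ^ 2 = x ^ 2 := by ring
      rw [e3] at h1
      exact h1

end Pool.Agent.Lib.MP_8382de_an.W3
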