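import Pool.Agent.Lib.MP_8382de_an.W3.Defs

/-!
# W3.LogC: numerical constants

`NC = log 2 / 2 + log(10021/11250) ≤ 0.34658 - 0.1152 < 0.2314 < log 2 - 0.461`
(`4/3 · 11/25 · 911/600 = 10021/11250 = 0.890755...`). For the logarithm: `10021/11250 ≤ e^(-0.1152)`,
i.e. `e^(0.1152) ≤ 11250/10021 = 1.12264` (`e^(0.1152) = 1.12210`; `Real.exp_bound'` or
`Real.exp_bound_div_one_sub_of_interval`, or the series). `Real.log_two_gt_d9`, `Real.log_two_lt_d9`.
-/

set_option autoImplicit false

namespace Pool.Agent.Lib.MP_8382de_an.W3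

theorem NC_lt : NC < Real.log 2 - 461 / 1000 := by
  have h1 : Real.log (4 / 3 * (11 / 25) * (911 / 600)) < -(115 / 1000 : ℝ) := by
    rw [Real.log_lt_iff_lt_exp (by norm_num)]
    have h := Real.exp_bound (x := -(115 / 1000 : ℝ)) (by rw [abs_neg, abs_of_pos] <;> norm_num)
      (n := 4) (by norm_num)
    have h2 := (abs_le.1 h).1
    simp only [Finset.sum_range_succ, Finset.sum_range_zero, Nat.factorial] at h2
    rw [abs_neg, abs_of_pos (by norm_num)] at h2
    norm_num at h2 ⊢
    linarith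
  have h2 : NC = Real.log 2 / 2 + Real.log (4 / 3 * (11 / 25) * (911 / 600)) := by
    unfold NC
    rw [Real.log_mul (by positivity) (by norm_num), Real.log_sqrt (by norm_num)]
  rw [h2]
  linarith [Real.log_two_gt_d9]

theorem log2_gt : (693 / 1000 : ℝ) < Real.log 2 := by
  linarith [Real.log_two_gt_d9]

end Pool.Agent.Lib.MP_8382de_an.W3
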