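import Pool.Agent.Lib.MP_8382de_an.W3.NCost
import Pool.Agent.Lib.MP_8382de_an.W3.KUp

/-!
# W3.NormN: the norm in rule N

Write the bracket in `gN` as `E₃(t) - KN (t/e)`. `E₃ ≤ (1/(12c) + 1/(24a) + 1/(24b) + 1/24) t ≤ M t`
(`K_up12` at `0`, `K_low`), and by `K0_nonneg`
`-E₃ ≤ (ua/a + ub/b) t + B t e^(ht) = (ua/a + ub/b + B) t + B t (e^(ht) - 1) ≤ M t + B t (e^(ht) - 1)`.
So `|gN| e^(wt) ≤ M e^(-θt) + B (e^(-(θ-h)t) - e^(-θt)) + (-KN (t/e)) e^(-θt)/t` with `θ = z - w`
(`KN_nonpos`), and the integral is at most `M/θ + B (1/(θ-h) - 1/θ) + NC` (`narrow_cost` with `y = θ`,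
`subN_int`). Measurability: `gN` is continuous on `(0,∞)`.
-/

set_option autoImplicit false

namespace Pool.Agent.Lib.MP_8382de_an.W3

open MeasureTheory Set

private theorem NormN_measK (x : ℝ) : Measurable (K x) := by
  unfold K
  fun_prop

private theorem NormN_measKN : Measurable KN := by
  have := NormN_measK (5 / 2)
  unfold KN
  fun_prop

private theorem NormN_meas (a b c e z x3 : ℝ) : Measurable (gN a b c e z x3) := by
  have h0 := NormN_measK 0
  have h1 := NormN_measK (1 - a * z)
  have h2 := NormN_measK (1 - b * z)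
  have h3 := NormN_measK x3
  have h4 := NormN_measKN
  unfold gN
  fun_prop

private theorem NormN_int1 {θ : ℝ} (h : 0 < θ) :
    IntegrableOn (fun t : ℝ => Real.exp (-(θ * t))) (Ioi 0) := by
  have := integrableOn_exp_mul_Ioi (a := -θ) (by linarith) 0
  simpa [neg_mul] using this

private theorem NormN_int2 {θ : ℝ} (h : 0 < θ) :
    ∫ t in Ioi (0 : ℝ), Real.exp (-(θ * t)) = 1 / θ := by
  have := integral_exp_mul_Ioi (a := -θ) (by linarith) 0
  simp only [neg_mul] at this
  rw [this]
  simp

theorem normN {a b c e z x3 w M ua ub B h : ℝ} (ha : 0 < a) (hb : 0 < b) (hc : 0 < c)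
    (he : 0 < e) (hh : 0 ≤ h) (hB : 0 ≤ B) (hw : h < z - w)
    (hM1 : 1 / (12 * c) + 1 / (24 * a) + 1 / (24 * b) + 1 / 24 ≤ M)
    (hM2 : ua / a + ub / b + B ≤ M)
    (hua : ∀ v : ℝ, 0 < v → K (1 - a * z) v ≤ ua * v)
    (hub : ∀ v : ℝ, 0 < v → K (1 - b * z) v ≤ ub * v)
    (hu3 : ∀ v : ℝ, 0 < v → K x3 v ≤ B * (v * Real.exp (h * v))) :
    IntegrableOn (fun t => gN a b c e z x3 t * Real.exp (w * t)) (Ioi 0) ∧
    ∫ t in Ioi (0 : ℝ), |gN a b c e z x3 t| * Real.exp (w * t) ≤
      M / (z - w) + B * (1 / (z - w - h) - 1 / (z - w)) + NC := by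
  have hθ : 0 < z - w := lt_of_le_of_lt hh hw
  have hθh : 0 < z - w - h := by linarith
  -- the majorant
  set F : ℝ → ℝ := fun t => (M - B) * Real.exp (-((z - w) * t)) +
    B * Real.exp (-((z - w - h) * t)) + -KN (t / e) * Real.exp (-((z - w) * t)) / t with hF
  have i1 := NormN_int1 hθ
  have i2 := NormN_int1 hθh
  have i3 : IntegrableOn (fun t : ℝ => -KN (t / e) * Real.exp (-((z - w) * t)) / t) (Ioi 0) := by
    have := (subN_int (e := e) he hθ).neg
    refine this.congr_fun (fun t _ => ?_) measurableSet_Ioi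
    simp only [Pi.neg_apply]
    ring
  have iF : IntegrableOn F (Ioi 0) := by
    exact ((i1.const_mul (M - B)).add (i2.const_mul B)).add i3
  have hF2 : ∫ t in Ioi (0 : ℝ), F t = (M - B) * (1 / (z - w)) + B * (1 / (z - w - h)) +
      ∫ t in Ioi (0 : ℝ), -KN (t / e) * Real.exp (-((z - w) * t)) / t := by
    have e1 : ∫ t in Ioi (0 : ℝ), F t =
        (∫ t in Ioi (0 : ℝ), ((M - B) * Real.exp (-((z - w) * t)) +
          B * Real.exp (-((z - w - h) * t)))) +
        ∫ t in Ioi (0 : ℝ), -KN (t / e) * Real.exp (-((z - w) * t)) / t :=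
      integral_add ((i1.const_mul (M - B)).add (i2.const_mul B)) i3
    rw [e1, integral_add (i1.const_mul (M - B)) (i2.const_mul B), integral_const_mul,
      integral_const_mul, NormN_int2 hθ, NormN_int2 hθh]
  have bound : ∀ t ∈ Ioi (0 : ℝ), |gN a b c e z x3 t| * Real.exp (w * t) ≤ F t := by
    intro t ht
    have ht : 0 < t := ht
    have k0 := K_up12 (x := 0) le_rfl zero_le_one (v := t / c) (by positivity)
    have k0n := K0_nonneg (v := t / c) (by positivity)
    have ka := K_low (1 - a * z) (v := t / a) (by positivity)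
    have kb := K_low (1 - b * z) (v := t / b) (by positivity)
    have k3 := K_low x3 (v := t) ht
    have ua' := hua (t / a) (by positivity)
    have ub' := hub (t / b) (by positivity)
    have u3' := hu3 t ht
    have kn := KN_nonpos (v := t / e) (by positivity)
    have hexp : 1 ≤ Real.exp (h * t) := Real.one_le_exp (by positivity)
    set E3 : ℝ := K 0 (t / c) - K (1 - a * z) (t / a) - K (1 - b * z) (t / b) - K x3 t with hE3
    have m1 : (1 / (12 * c) + 1 / (24 * a) + 1 / (24 * b) + 1 / 24) * t ≤ M * t :=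
      mul_le_mul_of_nonneg_right hM1 ht.le
    have m2 : (ua / a + ub / b + B) * t ≤ M * t := mul_le_mul_of_nonneg_right hM2 ht.le
    have q1 : t / c / 12 = 1 / (12 * c) * t := by field_simp
    have q2 : t / a / 24 = 1 / (24 * a) * t := by field_simp
    have q3 : t / b / 24 = 1 / (24 * b) * t := by field_simp
    have q4 : ua * (t / a) = ua / a * t := by field_simp
    have q5 : ub * (t / b) = ub / b * t := by field_simp
    rw [q1] at k0
    rw [q2] at ka
    rw [q3] at kb
    rw [q4] at ua'
    rw [q5] at ub'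
    have q6 : 0 ≤ B * t * (Real.exp (h * t) - 1) := by
      have : 0 ≤ Real.exp (h * t) - 1 := by linarith
      positivity
    have up : E3 ≤ M * t + B * t * (Real.exp (h * t) - 1) := by
      rw [hE3]; nlinarith
    have lo : -E3 ≤ M * t + B * t * (Real.exp (h * t) - 1) := by
      rw [hE3]; nlinarith
    have habs : |E3 - KN (t / e)| ≤ M * t + B * t * (Real.exp (h * t) - 1) + -KN (t / e) := by
      rw [abs_le]
      constructor <;> linarith
    have hg : gN a b c e z x3 t = (E3 - KN (t / e)) * Real.exp (-(z * t)) / t := by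
      unfold gN; rw [hE3]
    rw [hg, abs_div, abs_mul, abs_of_pos ht, abs_of_pos (Real.exp_pos _)]
    have ee1 : Real.exp (-(z * t)) * Real.exp (w * t) = Real.exp (-((z - w) * t)) := by
      rw [← Real.exp_add]; congr 1; ring
    have ee2 : Real.exp (h * t) * Real.exp (-((z - w) * t)) = Real.exp (-((z - w - h) * t)) := by
      rw [← Real.exp_add]; congr 1; ring
    have s1 : |E3 - KN (t / e)| * Real.exp (-(z * t)) / t * Real.exp (w * t) =
        |E3 - KN (t / e)| * Real.exp (-((z - w) * t)) / t := by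
      rw [← ee1]; ring
    rw [s1]
    have s2 : F t = (M * t + B * t * (Real.exp (h * t) - 1) + -KN (t / e)) *
        Real.exp (-((z - w) * t)) / t := by
      rw [hF]
      simp only
      rw [← ee2]
      field_simp
      ring
    rw [s2]
    gcongr
  have meas : Measurable (fun t => gN a b c e z x3 t * Real.exp (w * t)) := by
    have := NormN_meas a b c e z x3
    fun_prop
  have main : IntegrableOn (fun t => gN a b c e z x3 t * Real.exp (w * t)) (Ioi 0) := by
    refine Integrable.mono' iF meas.aestronglyMeasurable ?_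
    refine (ae_restrict_iff' measurableSet_Ioi).2 (Filter.Eventually.of_forall fun t ht => ?_)
    rw [Real.norm_eq_abs, abs_mul, abs_of_pos (Real.exp_pos _)]
    exact bound t ht
  refine ⟨main, ?_⟩
  have i4 : IntegrableOn (fun t => |gN a b c e z x3 t| * Real.exp (w * t)) (Ioi 0) := by
    have hma : IntegrableOn (fun t => |gN a b c e z x3 t * Real.exp (w * t)|) (Ioi 0) := main.abs
    refine hma.congr_fun (fun t _ => ?_) measurableSet_Ioi
    simp only
    rw [abs_mul, abs_of_pos (Real.exp_pos _)]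
  have h5 := setIntegral_mono_on i4 iF measurableSet_Ioi bound
  have h6 := narrow_cost (e := e) (y := z - w) he hθ
  rw [hF2] at h5
  have h7 : (M - B) * (1 / (z - w)) + B * (1 / (z - w - h)) =
      M / (z - w) + B * (1 / (z - w - h) - 1 / (z - w)) := by ring
  rw [h7] at h5
  linarith

end Pool.Agent.Lib.MP_8382de_an.W3
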