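import Pool.Agent.Lib.MP_8382de_an.W3.CritN
import Pool.Agent.Lib.MP_8382de_an.W3.NormN
import Pool.Agent.Lib.MP_8382de_an.W3.KNg
import Pool.Agent.Lib.MP_8382de_an.W3.LogC
import Pool.Agent.Lib.MP_8382de_an.W3.IneqN
import Pool.Agent.Lib.MP_8382de_an.W3.IneqM

/-!
# W3.BoxN: rule N applies for `0 < e ≤ 1/5`, and for `e ≤ 2`, `(a+b) z > 27/20`

`c = a+b+1+e`, `z = (2+d)/c`, `x3 = (a+b) z - 1`, `δ = d + 1`, `c z = δ + 1`, `s = z + x3 = 1 + d - e z`
(as `(a+b+1+e) z = 2 + d`), `w = (1/2 + d - e z)/2`: `s = 1/2 + 2w`, and `s ≤ 1 + w` because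
`d ≤ 1/2`, `θ = z - w = z (1+e/2) - 1/4 - d/2`.
`w > 0`: if `e ≤ 1/5` then `e z ≤ (1/5)(5/4) = 1/4`; if `(a+b) z > 27/20` then
`e z = 2 + d - (a+b) z - z < 0.65 + d - z` and `z > 27/40` (`a + b ≤ 2`).
In the second case `e ≤ 3/4`: `(27/20)(a+b+1+e) < (a+b)(5/2)`, `a + b ≤ 2`.
`1 - a z ≥ 0`: `a (2+d) ≤ a + b + 1` since `a (1+d) ≤ 3/2 ≤ b + 1`; `1 - a z ≤ 17/20`: `a z ≥ 1/3.75`.
`1 - b z ∈ [1/10, 17/20]`: `b z ≤ (a+b) z/2 ≤ (5/6)` (`(a+b)(5/2) ≤ (5/3)(a+b+1)`).
`x3 ≤ 17/20`: `(a+b) z ≤ 5/3`.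

* `x3 ≥ 1/10`, `1 - a z ≥ 1/10`: `normN` with `ua = ub = 1/24`, `B = 1/24`, `h = 0`,
  `M = 1/(12c) + (1/24)(1/a+1/b+1)`; `ineqN1`: the norm is at most `M/θ + NC < 0.461 + NC < log 2` (`NC_lt`).
* `x3 ≥ 1/10`, `1 - a z < 1/10`: `ua = 1/12` (`K_up12`), `ub = B = 1/24`, `h = 0`,
  `M = (1/24)(2/a + 1/b + 1)` (`1/(12c) ≤ 1/(24a)` as `c ≥ 2a`); `ineqN2`.
* `x3 < 1/10` (then `e ≤ 1/5`, and `a z ≤ (2/3)(11/10) < 9/10`): `ua = ub = 1/24`, `h = max 0 (-x3)`,
  `B = 1/12 + h/2 + h²/2` (`K_neg` if `x3 < 0`; `K_up12` if `x3 ≥ 0`, `h = 0`),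
  `M = (1/24)(1/a+1/b) + B` (`1/(12c) + 1/24 ≤ 1/12 ≤ B`); the norm is at most
  `M/θ + B(1/(θ-h) - 1/θ) + NC = (1/24)(1/a+1/b)/θ + B/(θ-h) + NC`, `ineqM`.

Then `critN`.
-/

set_option autoImplicit false

namespace Pool.Agent.Lib.MP_8382de_an.W3

open ALG W2


private theorem boxN_fin {M θ B h N : ℝ} (hθ : 0 < θ) (_hh : h < θ)
    (h1 : M / θ + B * (1 / (θ - h) - 1 / θ) < 461 / 1000)
    (h2 : N ≤ M / θ + B * (1 / (θ - h) - 1 / θ) + NC) : N < Real.log 2 := by
  have := NC_lt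
  linarith

theorem boxN {a b d e : ℝ} (hb : 1 / 2 ≤ b) (hab : b ≤ a) (ha : a ≤ 1) (hd : 0 < d)
    (hd2 : d ≤ 1 / 2) (he : 0 < e) (he2 : e ≤ 2)
    (hx : e ≤ 1 / 5 ∨ 27 / 20 < (a + b) * ((2 + d) / (a + b + 1 + e))) :
    T (fun k => Real.Gamma (a * (k : ℝ) + 1) * Real.Gamma (b * (k : ℝ) + 1) /
      Real.Gamma ((a + b + 1 + e) * (k : ℝ) + (d + 1)) / (k.factorial : ℝ)) := by
  have ha0 : 0 < a := by linarith
  have hb0 : 0 < b := by linarith
  obtain ⟨c, hc⟩ : ∃ c : ℝ, c = a + b + 1 + e := ⟨_, rfl⟩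
  have hc0 : 0 < c := by rw [hc]; linarith
  obtain ⟨z, hz⟩ : ∃ z : ℝ, z = (2 + d) / c := ⟨_, rfl⟩
  rw [← hc, ← hz] at hx
  rw [← hc]
  have hz0 : 0 < z := by rw [hz]; positivity
  have hcz : c * z = 2 + d := by rw [hz]; field_simp
  have hcz2 : (a + b + 1 + e) * z = 2 + d := by rw [← hc]; exact hcz
  have hz54 : z ≤ 5 / 4 := by
    by_contra hcon
    push Not at hcon
    have h1 : 2 * z ≤ c * z := mul_le_mul_of_nonneg_right (by rw [hc]; linarith) hz0.le
    linarith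
  have hez0 : 0 < e * z := mul_pos he hz0
  have hσz : (a + b) * z ≤ 5 / 3 := by
    have h1 : (a + b) * z = (a + b) * (2 + d) / c := by rw [hz]; ring
    rw [h1, div_le_iff₀ hc0, hc]
    nlinarith
  have he34 : e ≤ 3 / 4 := by
    rcases hx with h | h
    · linarith
    · have h1 : 27 / 20 * c < (a + b) * z * c := mul_lt_mul_of_pos_right h hc0
      have h2 : (a + b) * z * c = (a + b) * (2 + d) := by rw [← hcz]; ring
      rw [h2, hc] at h1
      nlinarith
  have hw1 : e * z < 1 / 2 + d := by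
    rcases hx with h | h
    · have h1 : e * z ≤ 1 / 5 * (5 / 4) := mul_le_mul h hz54 hz0.le (by norm_num)
      linarith
    · have h1 : (a + b) * z ≤ 2 * z := mul_le_mul_of_nonneg_right (by linarith) hz0.le
      nlinarith
  have hsz : z + ((a + b) * z - 1) = 1 + d - e * z := by linear_combination hcz2
  have hθ : z - (1 / 2 + d - e * z) / 2 = z * (1 + e / 2) - 1 / 4 - d / 2 := by ring
  -- bounds for the arguments
  have haz1 : a * z ≤ 1 := by
    rw [hz, ← mul_div_assoc, div_le_one hc0, hc]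
    nlinarith
  have haz2 : 3 / 20 ≤ a * z := by
    rw [hz, ← mul_div_assoc, le_div_iff₀ hc0, hc]
    nlinarith
  have hbz2 : 3 / 20 ≤ b * z := by
    rw [hz, ← mul_div_assoc, le_div_iff₀ hc0, hc]
    nlinarith
  have hbz1 : b * z ≤ 5 / 6 := by nlinarith
  have hub : ∀ v : ℝ, 0 < v → K (1 - b * z) v ≤ 1 / 24 * v := fun v hv => by
    have := K_up24 (x := 1 - b * z) (by linarith) (by linarith) hv
    linarith
  have hc1 : 1 / (24 * a) = 1 / 24 * (1 / a) := by field_simp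
  have hc2 : 1 / (24 * b) = 1 / 24 * (1 / b) := by field_simp
  have hc3 : 1 / (12 * c) ≤ 1 / 24 := by
    rw [div_le_div_iff₀ (by positivity) (by norm_num), hc]
    linarith
  have hfin : ∀ (M ua B h : ℝ), 0 ≤ h → 0 ≤ B →
      h < z * (1 + e / 2) - 1 / 4 - d / 2 →
      1 / (12 * c) + 1 / (24 * a) + 1 / (24 * b) + 1 / 24 ≤ M →
      ua / a + (1 / 24) / b + B ≤ M →
      (∀ v : ℝ, 0 < v → K (1 - a * z) v ≤ ua * v) →
      (∀ v : ℝ, 0 < v → K ((a + b) * z - 1) v ≤ B * (v * Real.exp (h * v))) →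
      M / (z * (1 + e / 2) - 1 / 4 - d / 2) + B * (1 / (z * (1 + e / 2) - 1 / 4 - d / 2 - h) -
        1 / (z * (1 + e / 2) - 1 / 4 - d / 2)) < 461 / 1000 →
      T (fun k => Real.Gamma (a * (k : ℝ) + 1) * Real.Gamma (b * (k : ℝ) + 1) /
        Real.Gamma (c * (k : ℝ) + (d + 1)) / (k.factorial : ℝ)) := by
    intro M ua B h hh hB hhθ hM1 hM2 hua hu3 hlt
    have hn := normN (z := z) (x3 := (a + b) * z - 1) (w := (1 / 2 + d - e * z) / 2) ha0 hb0 hc0
      he hh hB (by rw [hθ]; exact hhθ) hM1 hM2 hua hub hu3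
    refine critN (z := z) (δ := d + 1) (w := (1 / 2 + d - e * z) / 2)
      (x3 := (a + b) * z - 1) ha0 hb0 he hc (by linarith)
      (by rw [hcz]; ring) (by linarith) (by rw [hsz]; linarith) (by ring)
      (by rw [hsz]; linarith) (by rw [hsz]; linarith) hn.1 ?_
    have h2 := hn.2
    rw [hθ] at h2
    exact boxN_fin (lt_of_le_of_lt hh hhθ) hhθ hlt h2
  rcases lt_or_ge ((a + b) * z - 1) (1 / 10) with h3 | h3
  · -- x3 < 1/10
    have he15 : e ≤ 1 / 5 := by
      rcases hx with h | h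
      · exact h
      · linarith
    have haz3 : a * z ≤ 9 / 10 := by nlinarith
    have hm := ineqM hb hab ha hd.le hd2 he.le he15 hc hz h3 rfl rfl
    set h := max 0 (-((a + b) * z - 1)) with hh
    have hh0 : 0 ≤ h := le_max_left _ _
    have hθ0 : 0 < z * (1 + e / 2) - 1 / 4 - d / 2 := lt_of_le_of_lt hh0 hm.1
    have hB0 : 1 / 12 ≤ 1 / 12 + h / 2 + h ^ 2 / 2 := by
      have : 0 ≤ h ^ 2 := sq_nonneg h
      linarith
    refine hfin (1 / 24 * (1 / a + 1 / b) + (1 / 12 + h / 2 + h ^ 2 / 2)) (1 / 24)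
      (1 / 12 + h / 2 + h ^ 2 / 2) h hh0 (by linarith) hm.1 ?_ ?_ (fun v hv => ?_)
      (fun v hv => ?_) ?_
    · rw [hc1, hc2]
      linarith
    · have e1 : (1 / 24 : ℝ) / a = 1 / 24 * (1 / a) := by ring
      have e2 : (1 / 24 : ℝ) / b = 1 / 24 * (1 / b) := by ring
      rw [e1, e2]
      linarith
    · have := K_up24 (x := 1 - a * z) (by linarith) (by linarith) hv
      linarith
    · rcases lt_or_ge ((a + b) * z - 1) 0 with h0 | h0
      · have e1 : h = -((a + b) * z - 1) := max_eq_right (by linarith)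
        have e2 : (a + b) * z - 1 = -h := by rw [e1]; ring
        rw [e2]
        exact K_neg hh0 hv
      · have e1 : h = 0 := max_eq_left (by linarith)
        rw [e1]
        have h4 := K_up12 h0 (by linarith) hv
        simp only [zero_mul, Real.exp_zero]
        linarith
    · have h5 := hm.2
      have e1 : (1 / 24 * (1 / a + 1 / b) + (1 / 12 + h / 2 + h ^ 2 / 2)) /
          (z * (1 + e / 2) - 1 / 4 - d / 2) + (1 / 12 + h / 2 + h ^ 2 / 2) *
          (1 / (z * (1 + e / 2) - 1 / 4 - d / 2 - h) - 1 / (z * (1 + e / 2) - 1 / 4 - d / 2)) =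
          1 / 24 * (1 / a + 1 / b) / (z * (1 + e / 2) - 1 / 4 - d / 2) +
          (1 / 12 + h / 2 + h ^ 2 / 2) / (z * (1 + e / 2) - 1 / 4 - d / 2 - h) := by ring
      rw [e1]
      exact h5
  · rcases le_or_gt (a * z) (9 / 10) with h4 | h4
    · -- all arguments in the middle
      have hm := ineqN1 hb hab ha hd.le hd2 he.le he34 hc hz
      have hM0 : 0 < 1 / (12 * c) + 1 / 24 * (1 / a + 1 / b + 1) := by positivity
      have hθ0 : 0 < z * (1 + e / 2) - 1 / 4 - d / 2 := by linarith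
      refine hfin (1 / (12 * c) + 1 / 24 * (1 / a + 1 / b + 1)) (1 / 24) (1 / 24) 0 le_rfl
        (by norm_num) hθ0 ?_ ?_ (fun v hv => ?_) (fun v hv => ?_) ?_
      · rw [hc1, hc2]
        linarith
      · have e1 : (1 / 24 : ℝ) / a = 1 / 24 * (1 / a) := by ring
        have e2 : (1 / 24 : ℝ) / b = 1 / 24 * (1 / b) := by ring
        have e3 : 0 < 1 / (12 * c) := by positivity
        rw [e1, e2]
        linarith
      · have := K_up24 (x := 1 - a * z) (by linarith) (by linarith) hv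
        linarith
      · have := K_up24 (x := (a + b) * z - 1) (by linarith) (by linarith) hv
        simp only [zero_mul, Real.exp_zero]
        linarith
      · rw [sub_zero, sub_self, mul_zero, add_zero, div_lt_iff₀ hθ0]
        exact hm
    · have hm := ineqN2 hb hab ha hd.le hd2 he.le he34 hc hz h4
      have hM0 : 0 < 1 / 24 * (2 / a + 1 / b + 1) := by positivity
      have hθ0 : 0 < z * (1 + e / 2) - 1 / 4 - d / 2 := by linarith
      have hc4 : 1 / (12 * c) ≤ 1 / 24 * (1 / a) := by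
        rw [← hc1, div_le_div_iff₀ (by positivity) (by positivity), hc]
        linarith
      have e4 : 2 / a = 1 / a + 1 / a := by ring
      refine hfin (1 / 24 * (2 / a + 1 / b + 1)) (1 / 12) (1 / 24) 0 le_rfl
        (by norm_num) hθ0 ?_ ?_ (fun v hv => ?_) (fun v hv => ?_) ?_
      · rw [hc1, hc2, e4]
        linarith
      · have e1 : (1 / 12 : ℝ) / a = 1 / 24 * (1 / a + 1 / a) := by ring
        have e2 : (1 / 24 : ℝ) / b = 1 / 24 * (1 / b) := by ring
        rw [e1, e2, e4]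
        linarith
      · have := K_up12 (x := 1 - a * z) (by linarith) (by linarith) hv
        linarith
      · have := K_up24 (x := (a + b) * z - 1) (by linarith) (by linarith) hv
        simp only [zero_mul, Real.exp_zero]
        linarith
      · rw [sub_zero, sub_self, mul_zero, add_zero, div_lt_iff₀ hθ0]
        exact hm

end Pool.Agent.Lib.MP_8382de_an.W3
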