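import Mathlib

/-!
# W3.IneqR: the inequalities of rule R (pure real arithmetic)

`1/2 ≤ b ≤ a ≤ 1`, `d ≥ 0`, `1/5 ≤ e ≤ 2`, `c = a + b + 1 + e`, `z = (2+d)/c`; so `z ≥ 2/c`.
`ineqR1`: `(1/24)(1/a + 1/b + 2 + 1/e) < 0.693 (z/2 + 1/4)` and `< 0.693 (z - 1/20)`.
It suffices to take `z = 2/c`: (i) `(1/24)(1/a+1/b+2+1/e) < 0.693 (1/c + 1/4)`, (ii)
`(1/24)(1/a+1/b+2+1/e) < 0.693 (2/c - 1/20)`. Values of left and right side of (i): at
`(a,b,e) = (1,1,0.2)`: `0.375 < 0.3898`; `(1,1/2,0.2)`: `0.4167 < 0.4299`;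
`(1/2,1/2,0.2)`: `0.4583 < 0.488`; `(1,1,2)`: `0.1875 < 0.3118`; `(1,1/2,2)`: `0.229 < 0.327`.
(ii): `(1,1,0.2)`: `0.375 < 0.398`, `(1,1,2)`: `0.1875 < 0.2425`, `(1/2,1/2,2)`: `0.271 < 0.3118`,
`(1,1/2,2)`: `0.229 < 0.273`.
Both sides are functions of three variables; the left side is convex and decreasing in `e`, etc. Use
`div_lt_iff`, `nlinarith`, or split the range of `e`.
A way by hand: `1/a + 1/b ≤ 5 - (a+b)·... `: for `a, b ∈ [1/2,1]`: `1/a ≤ 3 - 2a`, `1/b ≤ 3 - 2b`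
(chords), so with `S = a + b`: left side `≤ (1/24)(8 - 2S + 1/e)`, right side a function of `S` and
`e` only (`c = S+1+e`). (`(i)` at `S = 2`: `(4+5)/24`, at `S = 3/2`: `(5+5)/24`, exact at the corners.)

`ineqR2`: if moreover `(a+b) z < 3/5` (this forces `e > 4/3`) then the same with `2/e` in place
of `1/e`: `(1/2,1/2,4/3)`: `0.3125 < 0.381`; `(1/2,1/2,2)`: `0.2917 < 0.3118`. From `(a+b) z < 3/5`,
`z ≥ 2/c`: `2S < (3/5)(S+1+e)`, i.e. `7S < 3 + 3e`, `S ≥ 1`.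
-/

set_option autoImplicit false

namespace Pool.Agent.Lib.MP_8382de_an.W3

/-- chord of the reciprocal on `[1/2,1]` -/
theorem ineqR_chord {x : ℝ} (h1 : 1 / 2 ≤ x) (h2 : x ≤ 1) : 1 / x ≤ 3 - 2 * x := by
  rw [div_le_iff₀ (by linarith)]
  nlinarith [mul_nonneg (by linarith : (0 : ℝ) ≤ 2 * x - 1) (by linarith : (0 : ℝ) ≤ 1 - x)]

/-- reduction of the inequalities to polynomials -/
theorem ineqR_red {a b d e c z κ : ℝ} (hb : 1 / 2 ≤ b) (hab : b ≤ a) (ha : a ≤ 1) (hd : 0 ≤ d)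
    (he : 1 / 5 ≤ e) (hc : c = a + b + 1 + e) (hz : z = (2 + d) / c)
    (h1 : 0 < 24 * 693 / 1000 * e * (1 + c / 4) - (8 * e - 2 * (a + b) * e + κ) * c)
    (h2 : 0 < 24 * 693 / 1000 * e * (2 - c / 20) - (8 * e - 2 * (a + b) * e + κ) * c) :
    1 / 24 * (1 / a + 1 / b + 2 + κ / e) < 693 / 1000 * (z / 2 + 1 / 4) ∧
    1 / 24 * (1 / a + 1 / b + 2 + κ / e) < 693 / 1000 * (z - 1 / 20) := by
  have hc0 : 0 < c := by rw [hc]; linarith
  have he0 : 0 < e := by linarith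
  have hz2 : 2 / c ≤ z := by
    rw [hz]
    exact div_le_div_of_nonneg_right (by linarith) hc0.le
  have hch1 := ineqR_chord (hb.trans hab) ha
  have hch2 := ineqR_chord hb (hab.trans ha)
  have hpos : 0 < 24 * (e * c) := by positivity
  constructor
  · have k1 : 0 < 693 / 1000 * (2 / c / 2 + 1 / 4) - 1 / 24 * (8 - 2 * (a + b) + κ / e) := by
      have k2 : (693 / 1000 * (2 / c / 2 + 1 / 4) - 1 / 24 * (8 - 2 * (a + b) + κ / e)) *
          (24 * (e * c)) = 24 * 693 / 1000 * e * (1 + c / 4) - (8 * e - 2 * (a + b) * e + κ) * c := by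
        field_simp
      by_contra hneg
      push Not at hneg
      have := mul_nonpos_of_nonpos_of_nonneg hneg hpos.le
      rw [k2] at this
      linarith
    linarith
  · have k1 : 0 < 693 / 1000 * (2 / c - 1 / 20) - 1 / 24 * (8 - 2 * (a + b) + κ / e) := by
      have k2 : (693 / 1000 * (2 / c - 1 / 20) - 1 / 24 * (8 - 2 * (a + b) + κ / e)) *
          (24 * (e * c)) = 24 * 693 / 1000 * e * (2 - c / 20) - (8 * e - 2 * (a + b) * e + κ) * c := by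
        field_simp
      by_contra hneg
      push Not at hneg
      have := mul_nonpos_of_nonpos_of_nonneg hneg hpos.le
      rw [k2] at this
      linarith
    linarith

theorem ineqR1 {a b d e c z : ℝ} (hb : 1 / 2 ≤ b) (hab : b ≤ a) (ha : a ≤ 1) (hd : 0 ≤ d)
    (he : 1 / 5 ≤ e) (he2 : e ≤ 2) (hc : c = a + b + 1 + e) (hz : z = (2 + d) / c) :
    1 / 24 * (1 / a + 1 / b + 2 + 1 / e) < 693 / 1000 * (z / 2 + 1 / 4) ∧
    1 / 24 * (1 / a + 1 / b + 2 + 1 / e) < 693 / 1000 * (z - 1 / 20) := by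
  obtain ⟨S, hS⟩ : ∃ S, S = a + b := ⟨_, rfl⟩
  have hS1 : 1 ≤ S := by rw [hS]; linarith
  have hS2 : S ≤ 2 := by rw [hS]; linarith
  have hcS : c = S + 1 + e := by rw [hc, hS]
  have he0 : 0 < e := by linarith
  apply ineqR_red hb hab ha hd he hc hz
  · rw [← hS, hcS]
    have hp : 0 < -4 * e ^ 4 - 23368 / 1000 * e ^ 3 + 94926 / 1000 * e ^ 2 - 11684 / 1000 * e - 1 := by
      nlinarith [mul_nonneg (by linarith : (0 : ℝ) ≤ e - 1 / 5) (by linarith : (0 : ℝ) ≤ 2 - e),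
        mul_nonneg (mul_nonneg (by linarith : (0 : ℝ) ≤ e - 1 / 5) (by linarith : (0 : ℝ) ≤ 2 - e)) he0.le,
        mul_nonneg (mul_nonneg (mul_nonneg (by linarith : (0 : ℝ) ≤ e - 1 / 5)
          (by linarith : (0 : ℝ) ≤ 2 - e)) he0.le) he0.le]
    nlinarith [sq_nonneg (4 * e * S + (2 * e ^ 2 - 1842 / 1000 * e - 1)), hp]
  · rw [← hS, hcS]
    have h1 : 0 < 4 / 10 * S ^ 2 - 228632 / 100000 * S + 3333216 / 1000000 := by nlinarith
    have h2 : 0 < 4 * S ^ 2 - 66632 / 10000 * S + 105384 / 10000 := by nlinarith [sq_nonneg (S - 833 / 1000)]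
    have h3 : 0 ≤ (88316 / 10000 - 2 * S) * ((e - 1 / 5) * (2 - e)) :=
      mul_nonneg (by linarith) (mul_nonneg (by linarith) (by linarith))
    nlinarith [mul_nonneg (by linarith : (0 : ℝ) ≤ 2 - e) h1.le, mul_nonneg (by linarith : (0 : ℝ) ≤ e - 1 / 5) h2.le,
      h1, h2, h3]

theorem ineqR2 {a b d e c z : ℝ} (hb : 1 / 2 ≤ b) (hab : b ≤ a) (ha : a ≤ 1) (hd : 0 ≤ d)
    (he : 1 / 5 ≤ e) (he2 : e ≤ 2) (hc : c = a + b + 1 + e) (hz : z = (2 + d) / c)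
    (hx : (a + b) * z < 3 / 5) :
    1 / 24 * (1 / a + 1 / b + 2 + 2 / e) < 693 / 1000 * (z / 2 + 1 / 4) ∧
    1 / 24 * (1 / a + 1 / b + 2 + 2 / e) < 693 / 1000 * (z - 1 / 20) := by
  obtain ⟨S, hS⟩ : ∃ S, S = a + b := ⟨_, rfl⟩
  have hS1 : 1 ≤ S := by rw [hS]; linarith
  have hS2 : S ≤ 2 := by rw [hS]; linarith
  have hcS : c = S + 1 + e := by rw [hc, hS]
  have he0 : 0 < e := by linarith
  have hc0 : 0 < c := by rw [hcS]; linarith
  have h7 : 7 * S < 3 + 3 * e := by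
    have h8 : z * c = 2 + d := by rw [hz]; field_simp
    have h9 : (a + b) * z * c < 3 / 5 * c := mul_lt_mul_of_pos_right hx hc0
    rw [mul_assoc, h8, ← hS, hcS] at h9
    nlinarith
  have he3 : 4 / 3 < e := by linarith
  have hS3 : S < 9 / 7 := by linarith
  apply ineqR_red hb hab ha hd he hc hz
  · rw [← hS, hcS]
    nlinarith [mul_nonneg (by linarith : (0 : ℝ) ≤ e - 4 / 3) (by linarith : (0 : ℝ) ≤ 2 - e),
      mul_nonneg (by linarith : (0 : ℝ) ≤ S - 1) (by linarith : (0 : ℝ) ≤ 9 / 7 - S),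
      mul_nonneg (by linarith : (0 : ℝ) ≤ S - 1) (by linarith : (0 : ℝ) ≤ 2 - e),
      mul_nonneg (by linarith : (0 : ℝ) ≤ S - 1) (by linarith : (0 : ℝ) ≤ e - 4 / 3),
      mul_nonneg (by linarith : (0 : ℝ) ≤ 9 / 7 - S) (by linarith : (0 : ℝ) ≤ e - 4 / 3),
      mul_nonneg (by linarith : (0 : ℝ) ≤ 9 / 7 - S) (by linarith : (0 : ℝ) ≤ 2 - e)]
  · rw [← hS, hcS]
    nlinarith [mul_nonneg (by linarith : (0 : ℝ) ≤ e - 4 / 3) (by linarith : (0 : ℝ) ≤ 2 - e),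
      mul_nonneg (by linarith : (0 : ℝ) ≤ S - 1) (by linarith : (0 : ℝ) ≤ 9 / 7 - S),
      mul_nonneg (by linarith : (0 : ℝ) ≤ S - 1) (by linarith : (0 : ℝ) ≤ 2 - e),
      mul_nonneg (by linarith : (0 : ℝ) ≤ S - 1) (by linarith : (0 : ℝ) ≤ e - 4 / 3),
      mul_nonneg (by linarith : (0 : ℝ) ≤ 9 / 7 - S) (by linarith : (0 : ℝ) ≤ e - 4 / 3),
      mul_nonneg (by linarith : (0 : ℝ) ≤ 9 / 7 - S) (by linarith : (0 : ℝ) ≤ 2 - e)]

end Pool.Agent.Lib.MP_8382de_an.W3
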