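import Pool.Agent.Lib.MP_8382de_an.W3.KLow
import Pool.Agent.Lib.MP_8382de_an.W3.KUp

/-!
# W3.NormR: the norm in rule R

Let `E(t)` be the bracket in `gR`. `0 ≤ K 0 (t/c) ≤ t/(12c)` (`K0_nonneg`, `K_up12`), `-K x (t/α) ≤ t/(24α)`
(`K_low`), so `E ≤ (1/(12c) + 1/(24a) + 1/(24b) + 1/24 + 1/(24e)) t ≤ M t` and
`-E ≤ (ua/a + ub/b + u3 + u4/e) t ≤ M t`. So `|gR| e^(wt) ≤ M e^(-(z-w)t)`, whose integral is
`M/(z-w)`. Measurability: `gR` is continuous on `(0,∞)`.
-/

set_option autoImplicit false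

namespace Pool.Agent.Lib.MP_8382de_an.W3

open MeasureTheory Set

private theorem NormR_bd {a b c e z x3 x4 M ua ub u3 u4 : ℝ} (ha : 0 < a) (hb : 0 < b)
    (hc : 0 < c) (he : 0 < e)
    (hM1 : 1 / (12 * c) + 1 / (24 * a) + 1 / (24 * b) + 1 / 24 + 1 / (24 * e) ≤ M)
    (hM2 : ua / a + ub / b + u3 + u4 / e ≤ M)
    (hua : ∀ v : ℝ, 0 < v → K (1 - a * z) v ≤ ua * v)
    (hub : ∀ v : ℝ, 0 < v → K (1 - b * z) v ≤ ub * v)
    (hu3 : ∀ v : ℝ, 0 < v → K x3 v ≤ u3 * v) (hu4 : ∀ v : ℝ, 0 < v → K x4 v ≤ u4 * v)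
    {t : ℝ} (ht : 0 < t) : |gR a b c e z x3 x4 t| ≤ M * Real.exp (-(z * t)) := by
  have hc' : 0 < t / c := div_pos ht hc
  have ha' : 0 < t / a := div_pos ht ha
  have hb' : 0 < t / b := div_pos ht hb
  have he' : 0 < t / e := div_pos ht he
  have h1 := K0_nonneg hc'
  have h2 := K_up12 (le_refl (0 : ℝ)) zero_le_one hc'
  have h3 := K_low (1 - a * z) ha'
  have h4 := K_low (1 - b * z) hb'
  have h5 := K_low x3 ht
  have h6 := K_low x4 he'
  have h7 := hua _ ha'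
  have h8 := hub _ hb'
  have h9 := hu3 _ ht
  have h10 := hu4 _ he'
  have hE1 : K 0 (t / c) - K (1 - a * z) (t / a) - K (1 - b * z) (t / b) - K x3 t - K x4 (t / e)
      ≤ M * t := by
    have h := mul_le_mul_of_nonneg_right hM1 ht.le
    have e1 : (1 / (12 * c) + 1 / (24 * a) + 1 / (24 * b) + 1 / 24 + 1 / (24 * e)) * t =
        t / c / 12 + t / a / 24 + t / b / 24 + t / 24 + t / e / 24 := by
      field_simp
    linarith
  have hE2 : -(M * t) ≤ K 0 (t / c) - K (1 - a * z) (t / a) - K (1 - b * z) (t / b) - K x3 t -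
      K x4 (t / e) := by
    have h := mul_le_mul_of_nonneg_right hM2 ht.le
    have e1 : (ua / a + ub / b + u3 + u4 / e) * t =
        ua * (t / a) + ub * (t / b) + u3 * t + u4 * (t / e) := by
      ring
    linarith
  have hE := abs_le.2 ⟨hE2, hE1⟩
  unfold gR
  rw [abs_div, abs_mul, abs_of_pos ht, abs_of_pos (Real.exp_pos _), div_le_iff₀ ht]
  calc _ ≤ M * t * Real.exp (-(z * t)) :=
        mul_le_mul_of_nonneg_right hE (Real.exp_pos _).le
    _ = _ := by ring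

theorem normR {a b c e z x3 x4 w M ua ub u3 u4 : ℝ} (ha : 0 < a) (hb : 0 < b) (hc : 0 < c)
    (he : 0 < e) (hw : w < z)
    (hM1 : 1 / (12 * c) + 1 / (24 * a) + 1 / (24 * b) + 1 / 24 + 1 / (24 * e) ≤ M)
    (hM2 : ua / a + ub / b + u3 + u4 / e ≤ M)
    (hua : ∀ v : ℝ, 0 < v → K (1 - a * z) v ≤ ua * v)
    (hub : ∀ v : ℝ, 0 < v → K (1 - b * z) v ≤ ub * v)
    (hu3 : ∀ v : ℝ, 0 < v → K x3 v ≤ u3 * v) (hu4 : ∀ v : ℝ, 0 < v → K x4 v ≤ u4 * v) :
    IntegrableOn (fun t => gR a b c e z x3 x4 t * Real.exp (w * t)) (Ioi 0) ∧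
    ∫ t in Ioi (0 : ℝ), |gR a b c e z x3 x4 t| * Real.exp (w * t) ≤ M / (z - w) := by
  have hneg : w - z < 0 := by linarith
  have hI : IntegrableOn (fun t : ℝ => M * Real.exp ((w - z) * t)) (Ioi 0) :=
    (integrableOn_exp_mul_Ioi hneg 0).const_mul M
  have hV : ∫ t in Ioi (0 : ℝ), M * Real.exp ((w - z) * t) = M / (z - w) := by
    rw [integral_const_mul, integral_exp_mul_Ioi hneg]
    rw [mul_zero, Real.exp_zero]
    have h1 : w - z ≠ 0 := hneg.ne
    have h2 : z - w ≠ 0 := by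
      intro h
      apply h1
      linarith
    field_simp
    ring
  have hbd : ∀ t ∈ Ioi (0 : ℝ), |gR a b c e z x3 x4 t| * Real.exp (w * t) ≤
      M * Real.exp ((w - z) * t) := by
    intro t ht
    have h := mul_le_mul_of_nonneg_right
      (NormR_bd (z := z) ha hb hc he hM1 hM2 hua hub hu3 hu4 (mem_Ioi.1 ht)) (Real.exp_pos (w * t)).le
    refine h.trans (le_of_eq ?_)
    rw [mul_assoc, ← Real.exp_add]
    congr 2
    ring
  have hm : Measurable (fun t => gR a b c e z x3 x4 t * Real.exp (w * t)) := by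
    unfold gR K
    fun_prop
  have hint : IntegrableOn (fun t => gR a b c e z x3 x4 t * Real.exp (w * t)) (Ioi 0) := by
    refine Integrable.mono' hI hm.aestronglyMeasurable ?_
    refine (ae_restrict_iff' measurableSet_Ioi).2 (Filter.Eventually.of_forall fun t ht => ?_)
    rw [Real.norm_eq_abs, abs_mul, abs_of_pos (Real.exp_pos (w * t))]
    exact hbd t ht
  refine ⟨hint, ?_⟩
  rw [← hV]
  refine setIntegral_mono_on ?_ hI measurableSet_Ioi hbd
  have h := hint.abs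
  refine h.congr (Filter.Eventually.of_forall fun t => ?_)
  show |gR a b c e z x3 x4 t * Real.exp (w * t)| = |gR a b c e z x3 x4 t| * Real.exp (w * t)
  rw [abs_mul, abs_of_pos (Real.exp_pos (w * t))]

end Pool.Agent.Lib.MP_8382de_an.W3
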