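import Pool.Agent.Lib.MP_8382de_an.W3.CritR
import Pool.Agent.Lib.MP_8382de_an.W3.NormR
import Pool.Agent.Lib.MP_8382de_an.W3.LogC
import Pool.Agent.Lib.MP_8382de_an.W3.IneqR

/-!
# W3.BoxR: rule R applies for `1/5 ≤ e ≤ 2`, `(a+b) z ≤ 27/20`

`c = a+b+1+e`, `z = (2+d)/c`, `x3 = 0`, `x4 = (a+b) z - 1/2`, `δ = d + 1`, `c z = δ + 1`,
`w = max ((z-1/2)/2) (1/20)`. Then `z - w = min (z/2+1/4) (z-1/20) > 0`; `z ≤ 1/2 + 2w` and `z ≤ 1 + w`
(`z ≤ 5/2/c ≤ 5/4`).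
`0 ≤ x4 ≤ 17/20`: `x4 ≥ 0` iff `2(a+b)(2+d) ≥ a+b+1+e`, true as `3(a+b) ≥ 3 ≥ 1+e`.
`1 - a z ∈ [1/10, 17/20]`: `a z ≤ (2/3)(a+b) z ≤ 9/10` (`a ≤ 2b`), `a z ≥ (1/2)·2/5`; the same for `b`
(`b z ≤ a z`).
`normR` with `ua = ub = 1/24` (`K_up24`), `u3 = 1/12` (`K_up12`), `u4 = 1/24` if `x4 ≥ 1/10`, else `1/12`,
`M = (1/24)(1/a+1/b+2+1/e)` resp. `(1/24)(1/a+1/b+2+2/e)`; `hM1` because `1/(12c) ≤ 1/24` (`c ≥ 2`).
The norm is at most `M/(z-w) < 0.693 < log 2` by `ineqR1`, `ineqR2` (`x4 < 1/10` iff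
`(a+b) z < 3/5`), `log2_gt`. Then `critR`.
-/

set_option autoImplicit false

namespace Pool.Agent.Lib.MP_8382de_an.W3

open ALG W2


theorem boxR {a b d e : ℝ} (hb : 1 / 2 ≤ b) (hab : b ≤ a) (ha : a ≤ 1) (hd : 0 < d)
    (hd2 : d ≤ 1 / 2) (he : 1 / 5 ≤ e) (he2 : e ≤ 2)
    (hx : (a + b) * ((2 + d) / (a + b + 1 + e)) ≤ 27 / 20) :
    T (fun k => Real.Gamma (a * (k : ℝ) + 1) * Real.Gamma (b * (k : ℝ) + 1) /
      Real.Gamma ((a + b + 1 + e) * (k : ℝ) + (d + 1)) / (k.factorial : ℝ)) := by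
  have ha0 : 0 < a := by linarith
  have hb0 : 0 < b := by linarith
  have he0 : 0 < e := by linarith
  obtain ⟨c, hc⟩ : ∃ c : ℝ, c = a + b + 1 + e := ⟨_, rfl⟩
  have hc0 : 0 < c := by rw [hc]; linarith
  obtain ⟨z, hz⟩ : ∃ z : ℝ, z = (2 + d) / c := ⟨_, rfl⟩
  rw [← hc, ← hz] at hx
  rw [← hc]
  have hz0 : 0 < z := by rw [hz]; positivity
  have hcz : c * z = 2 + d := by rw [hz]; field_simp
  have hz54 : z ≤ 5 / 4 := by
    by_contra hcon
    push Not at hcon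
    have h1 : 2 * z ≤ c * z := mul_le_mul_of_nonneg_right (by rw [hc]; linarith) hz0.le
    linarith
  -- bounds for the arguments
  have hσz : 1 / 2 ≤ (a + b) * z := by
    rw [hz, ← mul_div_assoc, le_div_iff₀ hc0, hc]
    nlinarith
  have haz1 : a * z ≤ 9 / 10 := by nlinarith
  have haz2 : 3 / 20 ≤ a * z := by
    rw [hz, ← mul_div_assoc, le_div_iff₀ hc0, hc]
    nlinarith
  have hbz1 : b * z ≤ 9 / 10 := le_trans (mul_le_mul_of_nonneg_right hab hz0.le) haz1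
  have hbz2 : 3 / 20 ≤ b * z := by
    rw [hz, ← mul_div_assoc, le_div_iff₀ hc0, hc]
    nlinarith
  have hua : ∀ v : ℝ, 0 < v → K (1 - a * z) v ≤ 1 / 24 * v := fun v hv => by
    have := K_up24 (x := 1 - a * z) (by linarith) (by linarith) hv
    linarith
  have hub : ∀ v : ℝ, 0 < v → K (1 - b * z) v ≤ 1 / 24 * v := fun v hv => by
    have := K_up24 (x := 1 - b * z) (by linarith) (by linarith) hv
    linarith
  have hu3 : ∀ v : ℝ, 0 < v → K 0 v ≤ 1 / 12 * v := fun v hv => by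
    have := K_up12 le_rfl (zero_le_one) hv
    linarith
  have hc1 : 1 / (24 * a) = 1 / 24 * (1 / a) := by field_simp
  have hc2 : 1 / (24 * b) = 1 / 24 * (1 / b) := by field_simp
  have hc5 : 1 / (24 * e) = 1 / 24 * (1 / e) := by field_simp
  have hc3 : 1 / (12 * c) ≤ 1 / 24 := by
    rw [div_le_div_iff₀ (by positivity) (by norm_num), hc]
    linarith
  have he1 : 0 < 1 / e := by positivity
  have hfin : ∀ (M u4 : ℝ),
      1 / (12 * c) + 1 / (24 * a) + 1 / (24 * b) + 1 / 24 + 1 / (24 * e) ≤ M →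
      (1 / 24) / a + (1 / 24) / b + 1 / 12 + u4 / e ≤ M →
      (∀ v : ℝ, 0 < v → K ((a + b) * z - 1 / 2) v ≤ u4 * v) →
      M < 693 / 1000 * (z / 2 + 1 / 4) → M < 693 / 1000 * (z - 1 / 20) →
      T (fun k => Real.Gamma (a * (k : ℝ) + 1) * Real.Gamma (b * (k : ℝ) + 1) /
        Real.Gamma (c * (k : ℝ) + (d + 1)) / (k.factorial : ℝ)) := by
    intro M u4 hM1 hM2 hu4 hl1 hl2
    have hM0 : 0 < M := by
      refine lt_of_lt_of_le ?_ hM1
      positivity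
    obtain ⟨w, hw0, hw1, hw2, hwz, hwM⟩ : ∃ w : ℝ, 0 < w ∧ z ≤ 1 / 2 + 2 * w ∧ z ≤ 1 + w ∧
        w < z ∧ M < 693 / 1000 * (z - w) := by
      rcases le_total z (3 / 5) with h | h
      · exact ⟨1 / 20, by norm_num, by linarith, by linarith, by linarith, hl2⟩
      · refine ⟨(z - 1 / 2) / 2, by linarith, by linarith, by linarith, by linarith, ?_⟩
        rw [show z - (z - 1 / 2) / 2 = z / 2 + 1 / 4 by ring]
        exact hl1
    have hn := normR (z := z) (x3 := 0) (x4 := (a + b) * z - 1 / 2) (w := w) ha0 hb0 hc0 he0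
      hwz hM1 hM2 hua hub hu3 hu4
    refine critR (z := z) (δ := d + 1) (w := w) (x3 := 0) (x4 := (a + b) * z - 1 / 2)
      ha0 hb0 he0 hc (by linarith) (by rw [hcz]; ring) hw0 (by linarith) ?_ (by ring)
      (by linarith) (by linarith) hn.1 ?_
    · have : 0 < e * z := mul_pos he0 hz0
      linarith
    · refine lt_of_le_of_lt hn.2 ?_
      rw [div_lt_iff₀ (by linarith)]
      refine lt_trans hwM ?_
      exact mul_lt_mul_of_pos_right log2_gt (by linarith)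
  have e1 : (1 / 24 : ℝ) / a = 1 / 24 * (1 / a) := by ring
  have e2 : (1 / 24 : ℝ) / b = 1 / 24 * (1 / b) := by ring
  rcases le_or_gt (1 / 10) ((a + b) * z - 1 / 2) with h | h
  · have hm := ineqR1 hb hab ha hd.le he he2 hc hz
    refine hfin (1 / 24 * (1 / a + 1 / b + 2 + 1 / e)) (1 / 24) ?_ ?_ (fun v hv => ?_)
      hm.1 hm.2
    · rw [hc1, hc2, hc5]
      linarith
    · have e3 : (1 / 24 : ℝ) / e = 1 / 24 * (1 / e) := by ring
      rw [e1, e2, e3]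
      linarith
    · have := K_up24 (x := (a + b) * z - 1 / 2) (by linarith) (by linarith) hv
      linarith
  · have hm := ineqR2 hb hab ha hd.le he he2 hc hz (by linarith)
    have e4 : 2 / e = 1 / e + 1 / e := by ring
    refine hfin (1 / 24 * (1 / a + 1 / b + 2 + 2 / e)) (1 / 12) ?_ ?_ (fun v hv => ?_)
      hm.1 hm.2
    · rw [hc1, hc2, hc5, e4]
      linarith
    · have e3 : (1 / 12 : ℝ) / e = 1 / 24 * (1 / e + 1 / e) := by ring
      rw [e1, e2, e3, e4]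
      linarith
    · have := K_up12 (x := (a + b) * z - 1 / 2) (by linarith) (by linarith) hv
      linarith

end Pool.Agent.Lib.MP_8382de_an.W3
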