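import Pool.Agent.Lib.MP_8382de_an.W3.KeyA

/-!
# W3.KeyS: the key proposition with signed measures

`MM_exp`: `w > 0`, `0 < s ≤ min(1/2 + 2w, 1 + w)`, `g e^(wt)` integrable on `(0,∞)` with
`N = ∫_0^∞ |g| e^(wt) dt < log 2`. Then `exp(-∫ g e^(-kt) dt)/Γ(k+s)` is a multiplier sequence.

Proof. `MM_of_sign` with `N_k = exp(-G k)`, `G k = ∫ g(t) e^(-kt) dt`. Let `g(ζ) = 0` (`Gg`), `p = Lg n s`,
`A = |p(ζ)| > 0` (`sonin_ne`). For a polynomial `P` let `S(P, A)` be the statement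
`∀ u ∈ (0,1], |u^w P(uζ)| ≤ A`. `S(p, A)` holds by `sonin`.
`keyS_step`: `S(P, B)` implies `S(mulc G P, N B)`: for `u ∈ (0,1]`
`u^w (mulc G P)(uζ) = ∫ g(t) u^w P(u e^(-t) ζ) dt = ∫ g(t) e^(wt) [(u e^(-t))^w P((u e^(-t)) ζ)] dt`
(finite sum of integrals: `(mulc G P)(x) = ∑_m P_m x^m G m`), and `u e^(-t) ∈ (0,1]`.
By induction `S(P_j, N^j A)` for `P_j = mulc (fun k => (G k)^j) p`. Finally
`(mulc N p)(ζ) = ∑_m p_m ζ^m exp(-G m) = ∑_j (-1)^j/j! P_j(ζ)` (`HasSum`, finite sum over `m`), so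
`|(mulc N p)(ζ) - p(ζ)| ≤ ∑_{j ≥ 1} N^j A / j! = (e^N - 1) A < A`, hence
`(mulc N p)(ζ) p(ζ) ≥ A² - (e^N - 1) A² > 0`.
-/

set_option autoImplicit false

namespace Pool.Agent.Lib.MP_8382de_an.W3

open Polynomial ALG W2 MeasureTheory Set

theorem keyS_int {g : ℝ → ℝ} {w : ℝ} (hw : 0 < w)
    (hg : IntegrableOn (fun t => g t * Real.exp (w * t)) (Ioi 0)) (m : ℕ) :
    IntegrableOn (fun t => g t * Real.exp (-((m : ℝ) * t))) (Ioi 0) := by
  have e : (fun t => g t * Real.exp (-((m : ℝ) * t))) =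
      fun t => (g t * Real.exp (w * t)) * Real.exp (-(((m : ℝ) + w) * t)) := by
    funext t
    rw [mul_assoc, ← Real.exp_add]
    congr 2
    ring
  have hc : Continuous fun t : ℝ => Real.exp (-(((m : ℝ) + w) * t)) := by fun_prop
  rw [e]
  refine Integrable.mono' (g := fun t => ‖g t * Real.exp (w * t)‖) hg.norm
    (hg.aestronglyMeasurable.mul hc.aestronglyMeasurable) ?_
  filter_upwards [ae_restrict_mem measurableSet_Ioi] with t ht
  have ht0 : 0 < t := ht
  rw [norm_mul]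
  refine mul_le_of_le_one_right (norm_nonneg _) ?_
  rw [Real.norm_eq_abs, abs_of_pos (Real.exp_pos _)]
  refine Real.exp_le_one_iff.mpr ?_
  have : 0 < ((m : ℝ) + w) * t := by positivity
  linarith

theorem keyS_eval {g : ℝ → ℝ} {w : ℝ} (hw : 0 < w)
    (hg : IntegrableOn (fun t => g t * Real.exp (w * t)) (Ioi 0)) (P : Polynomial ℝ) (ζ : ℝ)
    {u : ℝ} (hu : 0 < u) :
    u ^ w * (mulc (fun k => ∫ t in Ioi (0 : ℝ), g t * Real.exp (-((k : ℝ) * t))) P).eval (u * ζ)
      = ∫ t in Ioi (0 : ℝ), (g t * Real.exp (w * t)) *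
        ((u * Real.exp (-t)) ^ w * P.eval ((u * Real.exp (-t)) * ζ)) := by
  have h1 : ∀ t : ℝ, (g t * Real.exp (w * t)) *
        ((u * Real.exp (-t)) ^ w * P.eval ((u * Real.exp (-t)) * ζ)) =
      ∑ m ∈ Finset.range (P.natDegree + 1),
        (u ^ w * (P.coeff m * (u * ζ) ^ m)) * (g t * Real.exp (-((m : ℝ) * t))) := by
    intro t
    rw [Real.mul_rpow hu.le (Real.exp_pos _).le, ← Real.exp_mul, eval_eq_sum_range,
      Finset.mul_sum, Finset.mul_sum]
    refine Finset.sum_congr rfl fun m _ => ?_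
    have e1 : Real.exp (w * t) * Real.exp (-t * w) = 1 := by
      rw [← Real.exp_add, show w * t + -t * w = 0 by ring, Real.exp_zero]
    have e2 : (u * Real.exp (-t) * ζ) ^ m = (u * ζ) ^ m * Real.exp (-((m : ℝ) * t)) := by
      rw [show u * Real.exp (-t) * ζ = (u * ζ) * Real.exp (-t) by ring, mul_pow,
        ← Real.exp_nat_mul]
      congr 2
      ring
    rw [e2]
    linear_combination (g t * u ^ w * P.coeff m * (u * ζ) ^ m * Real.exp (-((m : ℝ) * t))) * e1
  simp_rw [h1]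
  rw [integral_finsetSum _ fun m _ => (keyS_int hw hg m).const_mul _]
  unfold mulc
  rw [eval_finsetSum, Finset.mul_sum]
  refine Finset.sum_congr rfl fun m _ => ?_
  rw [integral_const_mul, eval_monomial]
  ring

theorem keyS_step {g : ℝ → ℝ} {w : ℝ} (hw : 0 < w)
    (hg : IntegrableOn (fun t => g t * Real.exp (w * t)) (Ioi 0)) {P : Polynomial ℝ} {ζ B : ℝ}
    (hP : ∀ u : ℝ, 0 < u → u ≤ 1 → |u ^ w * P.eval (u * ζ)| ≤ B) {u : ℝ} (hu : 0 < u)
    (hu1 : u ≤ 1) :
    |u ^ w * (mulc (fun k => ∫ t in Ioi (0 : ℝ), g t * Real.exp (-((k : ℝ) * t))) P).eval (u * ζ)|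
      ≤ (∫ t in Ioi (0 : ℝ), |g t| * Real.exp (w * t)) * B := by
  rw [keyS_eval hw hg P ζ hu, ← integral_mul_const]
  have habs : (fun t => |g t| * Real.exp (w * t)) = fun t => ‖g t * Real.exp (w * t)‖ := by
    funext t
    rw [norm_mul, Real.norm_eq_abs, Real.norm_eq_abs, abs_of_pos (Real.exp_pos _)]
  have hint : IntegrableOn (fun t => |g t| * Real.exp (w * t) * B) (Ioi 0) := by
    rw [show (fun t => |g t| * Real.exp (w * t) * B) =
      fun t => (fun t => |g t| * Real.exp (w * t)) t * B from rfl, habs]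
    exact hg.norm.mul_const B
  have hb : ∀ t ∈ Ioi (0 : ℝ), ‖(g t * Real.exp (w * t)) *
        ((u * Real.exp (-t)) ^ w * P.eval ((u * Real.exp (-t)) * ζ))‖ ≤
      |g t| * Real.exp (w * t) * B := by
    intro t ht
    have ht0 : 0 < t := ht
    have hv0 : 0 < u * Real.exp (-t) := mul_pos hu (Real.exp_pos _)
    have hv1 : u * Real.exp (-t) ≤ 1 := by
      have : Real.exp (-t) ≤ 1 := Real.exp_le_one_iff.mpr (by linarith)
      calc u * Real.exp (-t) ≤ 1 * 1 := mul_le_mul hu1 this (Real.exp_pos _).le zero_le_one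
        _ = 1 := one_mul 1
    rw [norm_mul, norm_mul, Real.norm_eq_abs, Real.norm_eq_abs, Real.norm_eq_abs,
      abs_of_pos (Real.exp_pos (w * t))]
    exact mul_le_mul_of_nonneg_left (hP _ hv0 hv1) (by positivity)
  rw [← Real.norm_eq_abs]
  refine norm_integral_le_of_norm_le hint ?_
  filter_upwards [ae_restrict_mem measurableSet_Ioi] with t ht using hb t ht

theorem MM_exp {g : ℝ → ℝ} {w s : ℝ} (hw : 0 < w) (hs : 0 < s) (h1 : s ≤ 1 / 2 + 2 * w)
    (h2 : s ≤ 1 + w) (hg : IntegrableOn (fun t => g t * Real.exp (w * t)) (Ioi 0))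
    (hN : ∫ t in Ioi (0 : ℝ), |g t| * Real.exp (w * t) < Real.log 2) :
    MM (fun k => Real.exp (-∫ t in Ioi (0 : ℝ), g t * Real.exp (-((k : ℝ) * t))) /
      Real.Gamma ((k : ℝ) + s)) := by
  set G : ℕ → ℝ := fun k => ∫ t in Ioi (0 : ℝ), g t * Real.exp (-((k : ℝ) * t)) with hG
  set N : ℝ := ∫ t in Ioi (0 : ℝ), |g t| * Real.exp (w * t) with hNdef
  have hN0 : 0 ≤ N := by
    rw [hNdef]
    exact integral_nonneg fun t => by positivity
  refine MM_of_sign (N := fun k => Real.exp (-G k)) (fun k => Real.exp_pos _) hw hs h1 h2 ?_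
  intro n ζ hζ hg0
  set p := Lg n s with hp
  set A : ℝ := |p.eval ζ| with hA
  have hA0 : 0 < A := abs_pos.mpr (sonin_ne hs hw h1 h2 hζ hg0)
  -- the iterates
  have hS : ∀ j : ℕ, ∀ u : ℝ, 0 < u → u ≤ 1 →
      |u ^ w * (mulc (fun k => G k ^ j) p).eval (u * ζ)| ≤ N ^ j * A := by
    intro j
    induction j with
    | zero =>
      intro u hu hu1
      have e : mulc (fun k => G k ^ 0) p = p := by
        ext m
        rw [coeff_mulc, pow_zero, one_mul]
      rw [e, pow_zero, one_mul]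
      exact sonin hs hw h1 h2 hζ hg0 hu hu1
    | succ j ih =>
      intro u hu hu1
      have e : mulc (fun k => G k ^ (j + 1)) p = mulc G (mulc (fun k => G k ^ j) p) := by
        ext m
        rw [coeff_mulc, coeff_mulc, coeff_mulc, pow_succ]
        ring
      rw [e]
      have h3 := keyS_step hw hg ih hu hu1
      rw [pow_succ]
      calc |u ^ w * (mulc G (mulc (fun k => G k ^ j) p)).eval (u * ζ)| ≤ N * (N ^ j * A) := h3
        _ = N ^ j * N * A := by ring
  have hS1 : ∀ j : ℕ, |(mulc (fun k => G k ^ j) p).eval ζ| ≤ N ^ j * A := by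
    intro j
    have h3 := hS j 1 one_pos le_rfl
    rwa [Real.one_rpow, one_mul, one_mul] at h3
  -- the exponential series
  have hev : ∀ M : ℕ → ℝ, (mulc M p).eval ζ =
      ∑ m ∈ Finset.range (p.natDegree + 1), p.coeff m * ζ ^ m * M m := by
    intro M
    unfold mulc
    rw [eval_finsetSum]
    refine Finset.sum_congr rfl fun m _ => ?_
    rw [eval_monomial]
    ring
  have hsum : HasSum (fun j : ℕ => (-1 : ℝ) ^ j / (j.factorial : ℝ) *
      (mulc (fun k => G k ^ j) p).eval ζ) ((mulc (fun k => Real.exp (-G k)) p).eval ζ) := by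
    rw [hev]
    have e : (fun j : ℕ => (-1 : ℝ) ^ j / (j.factorial : ℝ) *
        (mulc (fun k => G k ^ j) p).eval ζ) =
        fun j : ℕ => ∑ m ∈ Finset.range (p.natDegree + 1),
          p.coeff m * ζ ^ m * ((-G m) ^ j / (j.factorial : ℝ)) := by
      funext j
      rw [hev, Finset.mul_sum]
      refine Finset.sum_congr rfl fun m _ => ?_
      rw [neg_pow (G m) j]
      ring
    rw [e]
    refine hasSum_sum fun m _ => HasSum.mul_left _ ?_
    have h3 := NormedSpace.expSeries_div_hasSum_exp (𝔸 := ℝ) (-G m)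
    rwa [← Real.exp_eq_exp_ℝ] at h3
  have hsumN : HasSum (fun j : ℕ => N ^ j / (j.factorial : ℝ) * A) (Real.exp N * A) := by
    have h3 := NormedSpace.expSeries_div_hasSum_exp (𝔸 := ℝ) N
    rw [← Real.exp_eq_exp_ℝ] at h3
    exact h3.mul_right A
  -- subtract the first term
  have hp0 : (mulc (fun k => G k ^ 0) p).eval ζ = p.eval ζ := by
    have e : mulc (fun k => G k ^ 0) p = p := by
      ext m
      rw [coeff_mulc, pow_zero, one_mul]
    rw [e]
  have h4 : HasSum (fun j : ℕ => (-1 : ℝ) ^ (j + 1) / ((j + 1).factorial : ℝ) *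
      (mulc (fun k => G k ^ (j + 1)) p).eval ζ)
      ((mulc (fun k => Real.exp (-G k)) p).eval ζ - p.eval ζ) := by
    have h5 := (hasSum_nat_add_iff' 1).2 hsum
    rw [Finset.sum_range_one, hp0] at h5
    simpa using h5
  have h6 : HasSum (fun j : ℕ => N ^ (j + 1) / ((j + 1).factorial : ℝ) * A)
      (Real.exp N * A - A) := by
    have h5 := (hasSum_nat_add_iff' 1).2 hsumN
    rw [Finset.sum_range_one] at h5
    simpa using h5
  have h7 : |(mulc (fun k => Real.exp (-G k)) p).eval ζ - p.eval ζ| ≤ Real.exp N * A - A := by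
    rw [← Real.norm_eq_abs, ← h4.tsum_eq, ← h6.tsum_eq]
    refine tsum_of_norm_bounded h6.summable.hasSum fun j => ?_
    rw [Real.norm_eq_abs, abs_mul, abs_div, abs_pow, abs_neg, abs_one, one_pow,
      abs_of_pos (show (0 : ℝ) < ((j + 1).factorial : ℝ) by positivity)]
    calc 1 / ((j + 1).factorial : ℝ) * |(mulc (fun k => G k ^ (j + 1)) p).eval ζ|
        ≤ 1 / ((j + 1).factorial : ℝ) * (N ^ (j + 1) * A) :=
          mul_le_mul_of_nonneg_left (hS1 _) (by positivity)
      _ = N ^ (j + 1) / ((j + 1).factorial : ℝ) * A := by ring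
  have h8 : Real.exp N < 2 := by
    have := Real.exp_lt_exp.mpr hN
    rwa [Real.exp_log (by norm_num : (0 : ℝ) < 2)] at this
  have h9 : |(mulc (fun k => Real.exp (-G k)) p).eval ζ - p.eval ζ| < |p.eval ζ| := by
    refine lt_of_le_of_lt h7 ?_
    rw [← hA]
    nlinarith
  -- sign
  have h10 : ((mulc (fun k => Real.exp (-G k)) p).eval ζ - p.eval ζ) * p.eval ζ >
      -(p.eval ζ ^ 2) := by
    have h11 : |((mulc (fun k => Real.exp (-G k)) p).eval ζ - p.eval ζ) * p.eval ζ| <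
        p.eval ζ ^ 2 := by
      rw [abs_mul, ← sq_abs (p.eval ζ), sq]
      exact mul_lt_mul_of_pos_right h9 hA0
    exact (abs_lt.mp h11).1
  nlinarith

end Pool.Agent.Lib.MP_8382de_an.W3
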