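import Pool.Agent.Lib.MP_8382de_an.W3.RepN
import Pool.Agent.Lib.MP_8382de_an.W3.KeyS
import Pool.Agent.Lib.MP_8382de_an.W2.Asm

/-!
# W3.CritN: the criterion, rule N

`MM_exp` with `g = gN`, `s = z + x3` gives a multiplier sequence `M`; by `repN`
`M k = C r^k Γ(ak+1) Γ(bk+1) Γ(ek+ez+5/2)/((ek+ez+11/25)(ek+ez+911/600) Γ(ck+cz))`, `cz = δ + 1`,
`Γ(ck+δ+1) = (ck+δ) Γ(ck+δ)`. So `Γ(ak+1) Γ(bk+1)/Γ(ck+δ)/k!` is
`C⁻¹ (r⁻¹)^k (ck+δ) (ek+ez+11/25) (ek+ez+911/600) [M k · (1/k!)]/Γ(ek+(ez+5/2))`: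
`T_exp`, `T_mul`, `T_lin` three times, `T_gamma`, `T_scale`, `T_congr`.
-/

set_option autoImplicit false

namespace Pool.Agent.Lib.MP_8382de_an.W3

open ALG W2 MeasureTheory Set


theorem critN {a b c e z δ w x3 : ℝ} (ha : 0 < a) (hb : 0 < b) (he : 0 < e)
    (hc : c = a + b + 1 + e) (hδ : 0 < δ) (hz : c * z = δ + 1) (hw : 0 < w)
    (h3 : 0 < z + x3) (hsum : (1 - a * z) + (1 - b * z) + x3 = 1)
    (hs1 : z + x3 ≤ 1 / 2 + 2 * w) (hs2 : z + x3 ≤ 1 + w)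
    (hg : IntegrableOn (fun t => gN a b c e z x3 t * Real.exp (w * t)) (Ioi 0))
    (hN : ∫ t in Ioi (0 : ℝ), |gN a b c e z x3 t| * Real.exp (w * t) < Real.log 2) :
    T (fun k => Real.Gamma (a * (k : ℝ) + 1) * Real.Gamma (b * (k : ℝ) + 1) /
      Real.Gamma (c * (k : ℝ) + δ) / (k.factorial : ℝ)) := by
  have hc0 : 0 < c := by rw [hc]; linarith
  have hz0 : 0 < z := by
    by_contra hcon
    push Not at hcon
    have : c * z ≤ 0 := mul_nonpos_of_nonneg_of_nonpos hc0.le hcon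
    linarith
  have hez : 0 < e * z := mul_pos he hz0
  obtain ⟨C, r, hC, hr, hrep⟩ := repN ha hb he hc hz0 h3 hsum
  have hMM := MM_exp hw h3 hs1 hs2 hg hN
  have h1 := T_mul T_exp hMM
  have h2 := T_lin h1 hc0.le hδ
  have h2a := T_lin h2 he.le (β := e * z + 11 / 25) (by linarith)
  have h2b := T_lin h2a he.le (β := e * z + 911 / 600) (by linarith)
  have h5 := T_gamma h2b he.le (β := e * z + 5 / 2) (by linarith)
  have h6 := T_scale h5 (inv_pos.mpr hC) (inv_pos.mpr hr)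
  refine T_congr h6 fun k => ?_
  rw [hrep k, hz]
  have hk : (0 : ℝ) ≤ k := Nat.cast_nonneg k
  have hek : 0 ≤ e * k := mul_nonneg he.le hk
  have g1 : Real.Gamma ((k : ℝ) + (z + x3)) ≠ 0 := (Real.Gamma_pos_of_pos (by linarith)).ne'
  have g2 : Real.Gamma (e * k + (e * z + 5 / 2)) ≠ 0 :=
    (Real.Gamma_pos_of_pos (by linarith)).ne'
  have hck : 0 < c * (k : ℝ) + δ := by
    have : 0 ≤ c * (k : ℝ) := mul_nonneg hc0.le hk
    linarith
  have g3 : Real.Gamma (c * k + (δ + 1)) = (c * k + δ) * Real.Gamma (c * k + δ) := by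
    rw [← add_assoc, Real.Gamma_add_one hck.ne']
  have g4 : Real.Gamma (c * k + δ) ≠ 0 := (Real.Gamma_pos_of_pos hck).ne'
  have g5 : ((k.factorial : ℕ) : ℝ) ≠ 0 := by exact_mod_cast k.factorial_ne_zero
  have g6 : r ^ k ≠ 0 := (pow_pos hr k).ne'
  have g7 : e * k + (e * z + 11 / 25) ≠ 0 := by
    have : 0 < e * k + (e * z + 11 / 25) := by linarith
    exact this.ne'
  have g8 : e * k + (e * z + 911 / 600) ≠ 0 := by
    have : 0 < e * k + (e * z + 911 / 600) := by linarith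
    exact this.ne'
  rw [g3, inv_pow]
  have hckn := hck.ne'
  have hCn := hC.ne'
  generalize Real.Gamma (a * (k : ℝ) + 1) = A1
  generalize Real.Gamma (b * (k : ℝ) + 1) = B1
  generalize Real.Gamma ((k : ℝ) + (z + x3)) = G1 at g1 ⊢
  generalize e * (k : ℝ) + (e * z + 11 / 25) = A at g7 ⊢
  generalize e * (k : ℝ) + (e * z + 911 / 600) = B at g8 ⊢
  generalize Real.Gamma (e * (k : ℝ) + (e * z + 5 / 2)) = G2 at g2 ⊢
  generalize Real.Gamma (c * (k : ℝ) + δ) = G4 at g4 ⊢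
  generalize c * (k : ℝ) + δ = L at hckn ⊢
  generalize r ^ k = R at g6 ⊢
  generalize ((k.factorial : ℕ) : ℝ) = F at g5 ⊢
  field_simp

end Pool.Agent.Lib.MP_8382de_an.W3
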