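import Pool.Agent.Lib.MP_8382de_an.W3.RepR
import Pool.Agent.Lib.MP_8382de_an.W3.KeyS
import Pool.Agent.Lib.MP_8382de_an.W2.Asm

/-!
# W3.CritR: the criterion, rule R

`MM_exp` with `g = gR`, `s = z + x3` gives a multiplier sequence `M`; by `repR`
`M k = C r^k Γ(ak+1) Γ(bk+1) Γ(ek+ez+x4)/Γ(ck+cz)`. `cz = δ + 1`, `Γ(ck+δ+1) = (ck+δ) Γ(ck+δ)`. So
`Γ(ak+1) Γ(bk+1)/Γ(ck+δ)/k! = C⁻¹ (r⁻¹)^k (ck+δ) [M k · (1/k!)]/Γ(ek+(ez+x4))`:
`T_exp`, `T_mul`, `T_lin` (`e = c`, `β = δ`), `T_gamma` (`e`, `β = ez + x4`), `T_scale`, `T_congr`.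
-/

set_option autoImplicit false

namespace Pool.Agent.Lib.MP_8382de_an.W3

open ALG W2 MeasureTheory Set


theorem critR {a b c e z δ w x3 x4 : ℝ} (ha : 0 < a) (hb : 0 < b) (he : 0 < e)
    (hc : c = a + b + 1 + e) (hδ : 0 < δ) (hz : c * z = δ + 1) (hw : 0 < w)
    (h3 : 0 < z + x3) (h4 : 0 < e * z + x4)
    (hsum : (1 - a * z) + (1 - b * z) + x3 + x4 = 3 / 2)
    (hs1 : z + x3 ≤ 1 / 2 + 2 * w) (hs2 : z + x3 ≤ 1 + w)
    (hg : IntegrableOn (fun t => gR a b c e z x3 x4 t * Real.exp (w * t)) (Ioi 0))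
    (hN : ∫ t in Ioi (0 : ℝ), |gR a b c e z x3 x4 t| * Real.exp (w * t) < Real.log 2) :
    T (fun k => Real.Gamma (a * (k : ℝ) + 1) * Real.Gamma (b * (k : ℝ) + 1) /
      Real.Gamma (c * (k : ℝ) + δ) / (k.factorial : ℝ)) := by
  have hc0 : 0 < c := by rw [hc]; linarith
  have hz0 : 0 < z := by
    by_contra hcon
    push Not at hcon
    have : c * z ≤ 0 := mul_nonpos_of_nonneg_of_nonpos hc0.le hcon
    linarith
  obtain ⟨C, r, hC, hr, hrep⟩ := repR ha hb he hc hz0 h3 h4 hsum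
  have hMM := MM_exp hw h3 hs1 hs2 hg hN
  have h1 := T_mul T_exp hMM
  have h2 := T_lin h1 hc0.le hδ
  have h5 := T_gamma h2 he.le h4
  have h6 := T_scale h5 (inv_pos.mpr hC) (inv_pos.mpr hr)
  refine T_congr h6 fun k => ?_
  rw [hrep k, hz]
  have hk : (0 : ℝ) ≤ k := Nat.cast_nonneg k
  have g1 : Real.Gamma ((k : ℝ) + (z + x3)) ≠ 0 := (Real.Gamma_pos_of_pos (by linarith)).ne'
  have g2 : Real.Gamma (e * k + (e * z + x4)) ≠ 0 := by
    refine (Real.Gamma_pos_of_pos ?_).ne'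
    have : 0 ≤ e * k := mul_nonneg he.le hk
    linarith
  have hck : 0 < c * (k : ℝ) + δ := by
    have : 0 ≤ c * (k : ℝ) := mul_nonneg hc0.le hk
    linarith
  have g3 : Real.Gamma (c * k + (δ + 1)) = (c * k + δ) * Real.Gamma (c * k + δ) := by
    rw [← add_assoc, Real.Gamma_add_one hck.ne']
  have g4 : Real.Gamma (c * k + δ) ≠ 0 := (Real.Gamma_pos_of_pos hck).ne'
  have g5 : ((k.factorial : ℕ) : ℝ) ≠ 0 := by exact_mod_cast k.factorial_ne_zero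
  have g6 : r ^ k ≠ 0 := (pow_pos hr k).ne'
  rw [g3, inv_pow]
  have hckn := hck.ne'
  have hCn := hC.ne'
  generalize Real.Gamma (a * (k : ℝ) + 1) = A1
  generalize Real.Gamma (b * (k : ℝ) + 1) = B1
  generalize Real.Gamma ((k : ℝ) + (z + x3)) = G1 at g1 ⊢
  generalize Real.Gamma (e * (k : ℝ) + (e * z + x4)) = G2 at g2 ⊢
  generalize Real.Gamma (c * (k : ℝ) + δ) = G4 at g4 ⊢
  generalize c * (k : ℝ) + δ = L at hckn ⊢
  generalize r ^ k = R at g6 ⊢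
  generalize ((k.factorial : ℕ) : ℝ) = F at g5 ⊢
  field_simp

end Pool.Agent.Lib.MP_8382de_an.W3
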