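import Mathlib

/-!
# MP_8382de_an, module W3.Defs (complete, do not change)

Third theorem on the zeros of the two-gamma Wright function: the exact threshold `c = a + b + 1`
for `a, b ∈ [1/2, 1]`, `0 < d ≤ 1/2`.

* `K x v = e^(-xv)/(1-e^(-v)) - 1/v - 1/2 + x`  : Binet's kernel (`v > 0`);
* `J x ζ = log Γ(ζ+x) - (ζ+x-1/2) log ζ + ζ - log(2π)/2`; Binet: `∫_0^∞ K x v e^(-ζv) dv/v = J x ζ`
  for `ζ > 0`, `ζ + x > 0` (module `Bin`);
* `KN v = K (5/2) v - 2 + e^(-11v/25) + e^(-911v/600)`: the kernel of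
  `Γ(ζ+5/2) / ((ζ+11/25)(ζ+911/600))` (`11/25 + 911/600 = 47/24`), `KN ≤ 0`;
* `NC = log (√2 · 4/3 · 11/25 · 911/600)`: the value of `∫_0^∞ (-KN v) dv/v`.
* `gR`, `gN`: the exponents of the two rules.
-/

set_option autoImplicit false

namespace Pool.Agent.Lib.MP_8382de_an.W3

/-- Binet's kernel -/
noncomputable def K (x v : ℝ) : ℝ :=
  Real.exp (-(x * v)) / (1 - Real.exp (-v)) - 1 / v - 1 / 2 + x

/-- the value of Binet's integral -/
noncomputable def J (x ζ : ℝ) : ℝ :=
  Real.log (Real.Gamma (ζ + x)) - (ζ + x - 1 / 2) * Real.log ζ + ζ - Real.log (2 * Real.pi) / 2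

/-- the kernel of the narrow factor -/
noncomputable def KN (v : ℝ) : ℝ :=
  K (5 / 2) v - 2 + Real.exp (-(11 / 25 * v)) + Real.exp (-(911 / 600 * v))

/-- the cost of the narrow factor -/
noncomputable def NC : ℝ := Real.log (Real.sqrt 2 * (4 / 3 * (11 / 25) * (911 / 600)))

/-- the exponent of rule R (four factors) -/
noncomputable def gR (a b c e z x3 x4 t : ℝ) : ℝ :=
  (K 0 (t / c) - K (1 - a * z) (t / a) - K (1 - b * z) (t / b) - K x3 t - K x4 (t / e)) *
    Real.exp (-(z * t)) / t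

/-- the exponent of rule N (three factors and the narrow factor) -/
noncomputable def gN (a b c e z x3 t : ℝ) : ℝ :=
  (K 0 (t / c) - K (1 - a * z) (t / a) - K (1 - b * z) (t / b) - K x3 t - KN (t / e)) *
    Real.exp (-(z * t)) / t

end Pool.Agent.Lib.MP_8382de_an.W3
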