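import Pool.Agent.Lib.MP_8382de_an.W3.BoxR
import Pool.Agent.Lib.MP_8382de_an.W3.BoxN
import Pool.Agent.Lib.MP_8382de_an.W2.Fin2

/-!
# W3.Fin3: the exact threshold

`main3`: `a, b ∈ [1/2,1]`, `0 < d ≤ 1/2`, `c ≥ a + b + 1`: every zero of `Phi a b c d` is real and negative.
Wlog `b ≤ a` (`Phi_symm`). `c - a - b ≥ 3`: `W2.main2` (`d max ≤ c - max`, `d min ≤ c - a - b`). Otherwise
`e = c - a - b - 1 ∈ [0,2)`. `e > 0`: `boxN` or `boxR`, then `good_of_T`. `e = 0`: `T` of the limit of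
`e_n = 1/(n+5)` (`T_lim_ev`; `Γ` continuous, as in `W2.T_lim_d`).
-/

set_option autoImplicit false

namespace Pool.Agent.Lib.MP_8382de_an.W3

open ALG W2 Filter Topology


theorem boxT_pos {a b d e : ℝ} (hb : 1 / 2 ≤ b) (hab : b ≤ a) (ha : a ≤ 1) (hd : 0 < d)
    (hd2 : d ≤ 1 / 2) (he : 0 < e) (he2 : e ≤ 2) :
    T (fun k => Real.Gamma (a * (k : ℝ) + 1) * Real.Gamma (b * (k : ℝ) + 1) /
      Real.Gamma ((a + b + 1 + e) * (k : ℝ) + (d + 1)) / (k.factorial : ℝ)) := by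
  rcases lt_or_ge (27 / 20) ((a + b) * ((2 + d) / (a + b + 1 + e))) with h | h
  · exact boxN hb hab ha hd hd2 he he2 (Or.inr h)
  · rcases le_total e (1 / 5) with h5 | h5
    · exact boxN hb hab ha hd hd2 he he2 (Or.inl h5)
    · exact boxR hb hab ha hd hd2 h5 he2 h

theorem boxT {a b d e : ℝ} (hb : 1 / 2 ≤ b) (hab : b ≤ a) (ha : a ≤ 1) (hd : 0 < d)
    (hd2 : d ≤ 1 / 2) (he : 0 ≤ e) (he2 : e ≤ 2) :
    T (fun k => Real.Gamma (a * (k : ℝ) + 1) * Real.Gamma (b * (k : ℝ) + 1) /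
      Real.Gamma ((a + b + 1 + e) * (k : ℝ) + (d + 1)) / (k.factorial : ℝ)) := by
  rcases he.eq_or_lt with h0 | h0
  swap
  · exact boxT_pos hb hab ha hd hd2 h0 he2
  subst h0
  have hlim : Tendsto (fun n : ℕ => a + b + 1 + 1 / ((n : ℝ) + 1)) atTop
      (𝓝 (a + b + 1 + 0)) :=
    (tendsto_one_div_add_atTop_nhds_zero_nat (𝕜 := ℝ)).const_add _
  refine T_lim_ev (φ := fun n k => Real.Gamma (a * (k : ℝ) + 1) * Real.Gamma (b * (k : ℝ) + 1) /
      Real.Gamma ((a + b + 1 + 1 / ((n : ℝ) + 1)) * (k : ℝ) + (d + 1)) / (k.factorial : ℝ)) ?_ ?_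
  · refine Eventually.of_forall fun n => ?_
    have h1 : 0 < 1 / ((n : ℝ) + 1) := by positivity
    have h2 : 1 / ((n : ℝ) + 1) ≤ 1 := by
      rw [div_le_one (by positivity)]
      have : (0 : ℝ) ≤ n := Nat.cast_nonneg n
      linarith
    exact boxT_pos hb hab ha hd hd2 h1 (by linarith)
  · intro k
    have hpos : 0 < (a + b + 1 + 0) * (k : ℝ) + (d + 1) := by
      have : 0 ≤ (a + b + 1 + 0) * (k : ℝ) := by
        have h3 : (0 : ℝ) ≤ k := Nat.cast_nonneg k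
        have h4 : 0 ≤ a + b + 1 + 0 := by linarith
        exact mul_nonneg h4 h3
      linarith
    have hcont : ContinuousAt Real.Gamma ((a + b + 1 + 0) * (k : ℝ) + (d + 1)) :=
      (Real.differentiableAt_Gamma (fun m => by
        have : (0 : ℝ) ≤ (m : ℝ) := Nat.cast_nonneg m
        linarith)).continuousAt
    have h3 : Tendsto (fun n : ℕ => Real.Gamma ((a + b + 1 + 1 / ((n : ℝ) + 1)) * (k : ℝ) +
        (d + 1))) atTop (𝓝 (Real.Gamma ((a + b + 1 + 0) * (k : ℝ) + (d + 1)))) :=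
      hcont.tendsto.comp ((hlim.mul_const _).add_const _)
    exact (Tendsto.div tendsto_const_nhds h3 (Real.Gamma_pos_of_pos hpos).ne').div_const _

private theorem fin3_main {a b c d : ℝ} (hb : 1 / 2 ≤ b) (hab : b ≤ a) (ha : a ≤ 1)
    (hd : 0 < d) (hd2 : d ≤ 1 / 2) (hc : a + b + 1 ≤ c) {x : ℂ} (hx : Phi a b c d x = 0) :
    x.im = 0 ∧ x.re < 0 := by
  have ha0 : 0 < a := by linarith
  have hb0 : 0 < b := by linarith
  rcases le_total (c - a - b) 3 with h3 | h3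
  · refine good_of_T ha0 hb0 hd ?_ hx
    have hT := boxT (e := c - a - b - 1) hb hab ha hd hd2 (by linarith) (by linarith)
    refine T_congr hT fun k => ?_
    rw [show a + b + 1 + (c - a - b - 1) = c by ring, add_assoc]
  · refine main2 ha0 hb0 hd (Or.inr ⟨h3, ?_⟩) ?_ ?_ hx
    · rw [min_eq_right hab]
      linarith
    · rw [max_eq_left hab]
      nlinarith
    · rw [min_eq_right hab]
      nlinarith

theorem main3 {a b c d : ℝ} (ha : 1 / 2 ≤ a) (ha1 : a ≤ 1) (hb : 1 / 2 ≤ b) (hb1 : b ≤ 1)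
    (hd : 0 < d) (hd2 : d ≤ 1 / 2) (hc : a + b + 1 ≤ c) {x : ℂ} (hx : Phi a b c d x = 0) :
    x.im = 0 ∧ x.re < 0 := by
  rcases le_total b a with hab | hab
  · exact fin3_main hb hab ha1 hd hd2 hc hx
  · rw [Phi_symm] at hx
    exact fin3_main ha hab hb1 hd hd2 (by linarith) hx

end Pool.Agent.Lib.MP_8382de_an.W3
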