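import Mathlib

/-!
# W3.Fru: Frullani's integral

`∫_0^∞ (e^(-pv) - e^(-qv)) dv/v = log (q/p)`, `p, q > 0`. For `p ≤ q`: the integrand is
`∫_p^q e^(-sv) ds ≥ 0`; Tonelli / Fubini (`MeasureTheory.integral_integral_swap`, or
`lintegral_lintegral_swap`) and `∫_0^∞ e^(-sv) dv = 1/s`, `∫_p^q ds/s = log (q/p)`. For `q < p` swap.
(Integrability: the bound `0 ≤ (e^(-pv) - e^(-qv))/v ≤ (q-p) e^(-pv)`.)
-/

set_option autoImplicit false

namespace Pool.Agent.Lib.MP_8382de_an.W3

open MeasureTheory Set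

private theorem fru_meas (p q : ℝ) (s : Set ℝ) :
    AEStronglyMeasurable (fun v : ℝ => (Real.exp (-(p * v)) - Real.exp (-(q * v))) / v)
      (volume.restrict s) := by
  apply Measurable.aestronglyMeasurable
  fun_prop

/-- the case `p ≤ q` -/
private theorem fru_int_le {p q : ℝ} (hp : 0 < p) (hpq : p ≤ q) :
    IntegrableOn (fun v : ℝ => (Real.exp (-(p * v)) - Real.exp (-(q * v))) / v) (Ioi 0) := by
  have h1 : IntegrableOn (fun v : ℝ => (q - p) * Real.exp (-p * v)) (Ioi 0) :=
    (exp_neg_integrableOn_Ioi 0 hp).const_mul (q - p)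
  refine Integrable.mono' h1 (fru_meas p q _) ?_
  filter_upwards [ae_restrict_mem measurableSet_Ioi] with v hv
  have hv0 : (0 : ℝ) < v := hv
  have e1 : Real.exp (-(q * v)) = Real.exp (-(p * v)) * Real.exp (-((q - p) * v)) := by
    rw [← Real.exp_add]
    congr 1
    ring
  have e2 : Real.exp (-((q - p) * v)) ≤ 1 := by
    apply Real.exp_le_one_iff.2
    have : 0 ≤ (q - p) * v := mul_nonneg (by linarith) hv0.le
    linarith
  have e3 : 1 - (q - p) * v ≤ Real.exp (-((q - p) * v)) := by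
    have := Real.add_one_le_exp (-((q - p) * v))
    linarith
  have e4 : 0 < Real.exp (-(p * v)) := Real.exp_pos _
  have e5 : -p * v = -(p * v) := by ring
  rw [Real.norm_eq_abs, abs_of_nonneg, div_le_iff₀ hv0, e1, e5]
  · nlinarith
  · apply div_nonneg _ hv0.le
    rw [e1]
    nlinarith

theorem fru_int {p q : ℝ} (hp : 0 < p) (hq : 0 < q) :
    IntegrableOn (fun v : ℝ => (Real.exp (-(p * v)) - Real.exp (-(q * v))) / v) (Ioi 0) := by
  rcases le_total p q with h | h
  · exact fru_int_le hp h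
  · have h1 := (fru_int_le hq h).neg
    refine h1.congr_fun (fun v _ => ?_) measurableSet_Ioi
    show -((Real.exp (-(q * v)) - Real.exp (-(p * v))) / v) = _
    ring

theorem fru {p q : ℝ} (hp : 0 < p) (hq : 0 < q) :
    ∫ v in Ioi (0 : ℝ), (Real.exp (-(p * v)) - Real.exp (-(q * v))) / v = Real.log (q / p) := by
  have hc : Continuous (fun x : ℝ => Real.exp (-x)) := by fun_prop
  have hL : Filter.Tendsto (fun x : ℝ => Real.exp (-x)) (nhdsWithin 0 (Ioi 0)) (nhds 1) := by
    have h := (hc.tendsto 0).mono_left (nhdsWithin_le_nhds (s := Ioi 0))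
    rw [neg_zero, Real.exp_zero] at h
    exact h
  have hR : Filter.Tendsto (fun x : ℝ => Real.exp (-x)) Filter.atTop (nhds 0) :=
    Real.tendsto_exp_neg_atTop_nhds_zero
  have h0 : ∀ v : ℝ, v⁻¹ • (Real.exp (-(p * v)) - Real.exp (-(q * v))) =
      (Real.exp (-(p * v)) - Real.exp (-(q * v))) / v := by
    intro v
    rw [smul_eq_mul, div_eq_inv_mul]
  have hint : IntegrableOn (fun x : ℝ => x⁻¹ • (Real.exp (-(p * x)) - Real.exp (-(q * x))))
      (Ioi 0) := by
    refine (fru_int hp hq).congr_fun (fun v _ => ?_) measurableSet_Ioi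
    exact (h0 v).symm
  have h := Frullani.integral_Ioi_eq (f := fun x : ℝ => Real.exp (-x))
    (hc.locallyIntegrable.locallyIntegrableOn _) hp hq hL hR hint
  rw [sub_zero, smul_eq_mul, mul_one] at h
  rw [← h]
  refine setIntegral_congr_fun measurableSet_Ioi fun v _ => ?_
  exact (h0 v).symm

end Pool.Agent.Lib.MP_8382de_an.W3
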