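import Pool.Agent.Lib.MP_8382de_an.W3.Ser

/-!
# W3.KLow: the universal lower bound `K x v ≥ -v/24` (for ALL real `x`, `v > 0`)

With `y = v/2`: `1 - e^(-v) = 2 e^(-y) sinh y`, so `e^(-xv)/(1-e^(-v)) = e^((1/2-x)v)/(2 sinh y)`.
`sinh y ≤ y e^(y²/6)` for `y ≥ 0` (termwise: `y^(2n+1)/(2n+1)! ≤ y (y²/6)^n/n!` since
`6^n n! ≤ (2n+1)!`, induction: `(2n+3)(2n+2) ≥ 6(n+1)`; `Real.hasSum_sinh`, see also the proof of
`Real.cosh_le_exp_half_sq`). Hence
`e^(-xv)/(1-e^(-v)) ≥ (1/v) e^((1/2-x)v - v²/24) ≥ (1/v) (1 + (1/2-x)v - v²/24)`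
(`Real.add_one_le_exp`), and this is `1/v + 1/2 - x - v/24`.
-/

set_option autoImplicit false

namespace Pool.Agent.Lib.MP_8382de_an.W3

private theorem KLow_fact (n : ℕ) : 6 ^ n * n.factorial ≤ (2 * n + 1).factorial := by
  induction n with
  | zero => simp
  | succ n ih =>
    have e : (2 * (n + 1) + 1).factorial = (2 * n + 3) * ((2 * n + 2) * (2 * n + 1).factorial) := by
      rw [show 2 * (n + 1) + 1 = (2 * n + 2) + 1 by ring, Nat.factorial_succ,
        show 2 * n + 2 = (2 * n + 1) + 1 by ring, Nat.factorial_succ]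
    rw [e, pow_succ, Nat.factorial_succ]
    calc 6 ^ n * 6 * ((n + 1) * n.factorial) = (6 * (n + 1)) * (6 ^ n * n.factorial) := by ring
      _ ≤ ((2 * n + 3) * (2 * n + 2)) * (2 * n + 1).factorial := by
          apply Nat.mul_le_mul _ ih
          nlinarith
      _ = _ := by ring

theorem sinh_le_mul_exp {y : ℝ} (hy : 0 ≤ y) : Real.sinh y ≤ y * Real.exp (y ^ 2 / 6) := by
  have h1 := Real.hasSum_sinh y
  have h2 : HasSum (fun n : ℕ => y * ((y ^ 2 / 6) ^ n / (n.factorial : ℝ)))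
      (y * Real.exp (y ^ 2 / 6)) := by
    have h := NormedSpace.expSeries_div_hasSum_exp (𝔸 := ℝ) (y ^ 2 / 6)
    rw [← Real.exp_eq_exp_ℝ] at h
    exact h.mul_left y
  refine hasSum_le (fun n => ?_) h1 h2
  have hf : (0 : ℝ) < (n.factorial : ℝ) := by exact_mod_cast n.factorial_pos
  have hf2 : (0 : ℝ) < ((2 * n + 1).factorial : ℝ) := by exact_mod_cast (2 * n + 1).factorial_pos
  have hk : (6 : ℝ) ^ n * (n.factorial : ℝ) ≤ ((2 * n + 1).factorial : ℝ) := by
    exact_mod_cast KLow_fact n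
  have e : y * ((y ^ 2 / 6) ^ n / (n.factorial : ℝ)) =
      y ^ (2 * n + 1) / (6 ^ n * (n.factorial : ℝ)) := by
    rw [div_pow, ← pow_mul]
    field_simp
    ring
  rw [e]
  apply div_le_div_of_nonneg_left (by positivity) (by positivity) hk

theorem K_low (x : ℝ) {v : ℝ} (hv : 0 < v) : -(v / 24) ≤ K x v := by
  have hs : 0 < Real.sinh (v / 2) := Real.sinh_pos_iff.2 (by positivity)
  have hle := sinh_le_mul_exp (y := v / 2) (by positivity)
  have h1 : 1 - Real.exp (-v) = 2 * Real.exp (-(v / 2)) * Real.sinh (v / 2) := by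
    rw [Real.sinh_eq]
    have : Real.exp (-v) = Real.exp (-(v / 2)) * Real.exp (-(v / 2)) := by
      rw [← Real.exp_add]; congr 1; ring
    have h2 : Real.exp (-(v / 2)) * Real.exp (v / 2) = 1 := by
      rw [← Real.exp_add]; simp
    rw [this]
    linear_combination (-1 : ℝ) * h2
  have h3 : Real.exp (-(x * v)) / (1 - Real.exp (-v)) =
      Real.exp ((1 / 2 - x) * v) / (2 * Real.sinh (v / 2)) := by
    rw [h1]
    have : Real.exp (-(x * v)) = Real.exp ((1 / 2 - x) * v) * Real.exp (-(v / 2)) := by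
      rw [← Real.exp_add]; congr 1; ring
    rw [this]
    have hne := (Real.exp_pos (-(v / 2))).ne'
    field_simp
  have h4 : (1 / v) * (1 + (1 / 2 - x) * v - v ^ 2 / 24) ≤
      Real.exp ((1 / 2 - x) * v) / (2 * Real.sinh (v / 2)) := by
    rw [le_div_iff₀ (by positivity)]
    have h5 : 1 + (1 / 2 - x) * v - v ^ 2 / 24 ≤ Real.exp ((1 / 2 - x) * v - v ^ 2 / 24) := by
      have := Real.add_one_le_exp ((1 / 2 - x) * v - v ^ 2 / 24)
      linarith
    have h6 : 2 * Real.sinh (v / 2) ≤ v * Real.exp (v ^ 2 / 24) := by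
      have e : (v / 2) ^ 2 / 6 = v ^ 2 / 24 := by ring
      rw [e] at hle
      linarith
    have h7 : Real.exp ((1 / 2 - x) * v) =
        Real.exp ((1 / 2 - x) * v - v ^ 2 / 24) * Real.exp (v ^ 2 / 24) := by
      rw [← Real.exp_add]; congr 1; ring
    rw [h7]
    calc 1 / v * (1 + (1 / 2 - x) * v - v ^ 2 / 24) * (2 * Real.sinh (v / 2))
        ≤ 1 / v * Real.exp ((1 / 2 - x) * v - v ^ 2 / 24) * (2 * Real.sinh (v / 2)) := by
          gcongr
      _ ≤ 1 / v * Real.exp ((1 / 2 - x) * v - v ^ 2 / 24) * (v * Real.exp (v ^ 2 / 24)) := by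
          gcongr
      _ = Real.exp ((1 / 2 - x) * v - v ^ 2 / 24) * Real.exp (v ^ 2 / 24) := by
          field_simp
  unfold K
  rw [h3]
  have h8 : (1 / v) * (1 + (1 / 2 - x) * v - v ^ 2 / 24) = 1 / v + 1 / 2 - x - v / 24 := by
    field_simp
    ring
  rw [h8] at h4
  linarith

end Pool.Agent.Lib.MP_8382de_an.W3
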