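import Pool.Agent.Lib.MP_8382de_an.W3.KLow

/-!
# W3.KNb: the narrow kernel: `-2v ≤ KN v ≤ 0`

`KN_nonpos`: `KN v = e^(-5v/2)/(1-e^(-v)) + e^(-αv) + e^(-βv) - 1/v` with `α = 11/25`,
`β = 911/600`, `α + β = 47/24`. Multiply by `v (1-e^(-v)) e^(5v/2) > 0`:
`v + v e^((5/2-α)v) - v e^((3/2-α)v) + v e^((5/2-β)v) - v e^((3/2-β)v) ≤ e^(5v/2) - e^(3v/2)`.
Power series (`ser0, ser1`): coefficient of `v^n/n!`: `n = 0`: `0 ≤ 0`; `n = 1`: `1 ≤ 1`;
`n ≥ 2`: `n [(5/2-α)^(n-1) - (3/2-α)^(n-1) + (5/2-β)^(n-1) - (3/2-β)^(n-1)] ≤ (5/2)^n - (3/2)^n`.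
Here `5/2-α = 103/50`, `3/2-α = 53/50`, `5/2-β = 589/600`, `3/2-β = -11/600`.
`n = 2`: `4 ≤ 4`; `n = 3`: `12.25 ≤ 12.25`; `n = 4`: `33.987 ≤ 34`; `n = 5`: `88.37 ≤ 90.06`;
`n = 6`: `220.0 ≤ 232.7`; `n ≥ 6`: the left side is at most `n [(103/50)^(n-1) + 1]` (drop
`-(53/50)^(n-1)`, `(589/600)^(n-1) + (11/600)^(n-1) ≤ 1`), and
`n ((103/50)^(n-1) + 1) ≤ (5/2)^n - (3/2)^n` for `n ≥ 7` by induction (`n = 7`: `542 ≤ 593.2`;
ratios: left `≤ (103/50)(n+1)/n ≤ 2.36`, right `≥ 5/2`). (Check the cases `n ≤ 6` by `norm_num`.)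

`KN_low`: `K (5/2) v ≥ -v/24` (`K_low`), `e^(-αv) ≥ 1 - αv`, `e^(-βv) ≥ 1 - βv`; the sum is
`-(1/24 + 47/24) v = -2v`.
-/

set_option autoImplicit false

namespace Pool.Agent.Lib.MP_8382de_an.W3

private theorem KNb_big (k : ℕ) :
    ((k : ℝ) + 7) * ((103 / 50 : ℝ) ^ (k + 6) + 1) ≤
      (5 / 2 : ℝ) ^ (k + 7) - (3 / 2 : ℝ) ^ (k + 7) := by
  induction k with
  | zero => norm_num
  | succ k h1 =>
    have e1 : (103 / 50 : ℝ) ^ (k + 1 + 6) = 103 / 50 * (103 / 50 : ℝ) ^ (k + 6) := by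
      rw [show k + 1 + 6 = (k + 6) + 1 by ring, pow_succ]; ring
    have e2 : (5 / 2 : ℝ) ^ (k + 1 + 7) = 5 / 2 * (5 / 2 : ℝ) ^ (k + 7) := by
      rw [show k + 1 + 7 = (k + 7) + 1 by ring, pow_succ]; ring
    have e3 : (3 / 2 : ℝ) ^ (k + 1 + 7) = 3 / 2 * (3 / 2 : ℝ) ^ (k + 7) := by
      rw [show k + 1 + 7 = (k + 7) + 1 by ring, pow_succ]; ring
    rw [e1, e2, e3]
    have hk : (0 : ℝ) ≤ (k : ℝ) := Nat.cast_nonneg k
    have h3 : (0 : ℝ) ≤ (3 / 2 : ℝ) ^ (k + 7) := by positivity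
    have h2 : (0 : ℝ) ≤ (103 / 50 : ℝ) ^ (k + 6) := by positivity
    set P := (103 / 50 : ℝ) ^ (k + 6) with hP
    set A := (5 / 2 : ℝ) ^ (k + 7) with hA
    set B := (3 / 2 : ℝ) ^ (k + 7) with hB
    push_cast
    have h4 : 5 / 2 * (((k : ℝ) + 7) * (P + 1)) ≤ 5 / 2 * (A - B) := by linarith
    have h5 : ((k : ℝ) + 1 + 7) * (103 / 50 * P + 1) ≤ 5 / 2 * (((k : ℝ) + 7) * (P + 1)) := by
      nlinarith [mul_nonneg hk h2]
    linarith

private theorem KNb_coeff {n : ℕ} (hn : 2 ≤ n) :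
    (n : ℝ) * (103 / 50) ^ (n - 1) - (n : ℝ) * (53 / 50) ^ (n - 1) +
      (n : ℝ) * (589 / 600) ^ (n - 1) - (n : ℝ) * (-11 / 600) ^ (n - 1) ≤
      (5 / 2 : ℝ) ^ n - (3 / 2 : ℝ) ^ n := by
  rcases Nat.lt_or_ge n 7 with h | h
  · interval_cases n <;> norm_num
  · obtain ⟨k, rfl⟩ := Nat.exists_eq_add_of_le' h
    have h1 := KNb_big k
    have e : k + 7 - 1 = k + 6 := by omega
    rw [e]
    push_cast
    have hk : (0 : ℝ) ≤ (k : ℝ) := Nat.cast_nonneg k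
    have h2 : (1 : ℝ) ≤ (53 / 50 : ℝ) ^ (k + 6) := one_le_pow₀ (by norm_num)
    have h3 : (589 / 600 : ℝ) ^ (k + 6) ≤ 1 := pow_le_one₀ (by norm_num) (by norm_num)
    have h4 : |(-11 / 600 : ℝ) ^ (k + 6)| ≤ 1 := by
      rw [abs_pow]
      apply pow_le_one₀ (abs_nonneg _)
      rw [abs_le]
      constructor <;> norm_num
    have h5 := (abs_le.1 h4).1
    have h6 : (103 / 50 : ℝ) ^ (k + 6) - (53 / 50) ^ (k + 6) + (589 / 600) ^ (k + 6) -
        (-11 / 600) ^ (k + 6) ≤ (103 / 50 : ℝ) ^ (k + 6) + 1 := by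
      linarith
    have h7 := mul_le_mul_of_nonneg_left h6 (by linarith : (0 : ℝ) ≤ (k : ℝ) + 7)
    nlinarith [h1, h7]

theorem KN_nonpos {v : ℝ} (hv : 0 < v) : KN v ≤ 0 := by
  have hL := (((ser1 (103 / 50) v).sub (ser1 (53 / 50) v)).add (ser1 (589 / 600) v)).sub
    (ser1 (-11 / 600) v)
  have hR := (ser0 (5 / 2) v).sub (ser0 (3 / 2) v)
  have hs2 := hR.sub hL
  have hsum := sum_le_hasSum (Finset.range 2) (fun n hn => by
    have hn3 : 2 ≤ n := by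
      rw [Finset.mem_range] at hn; omega
    have hp : 0 ≤ v ^ n / (n.factorial : ℝ) := by positivity
    have hc := KNb_coeff hn3
    have e : (5 / 2 : ℝ) ^ n * (v ^ n / (n.factorial : ℝ)) -
        (3 / 2 : ℝ) ^ n * (v ^ n / (n.factorial : ℝ)) -
        ((n : ℝ) * (103 / 50) ^ (n - 1) * (v ^ n / (n.factorial : ℝ)) -
          (n : ℝ) * (53 / 50) ^ (n - 1) * (v ^ n / (n.factorial : ℝ)) +
          (n : ℝ) * (589 / 600) ^ (n - 1) * (v ^ n / (n.factorial : ℝ)) -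
          (n : ℝ) * (-11 / 600) ^ (n - 1) * (v ^ n / (n.factorial : ℝ))) =
        ((5 / 2 : ℝ) ^ n - (3 / 2 : ℝ) ^ n - ((n : ℝ) * (103 / 50) ^ (n - 1) -
          (n : ℝ) * (53 / 50) ^ (n - 1) +
          (n : ℝ) * (589 / 600) ^ (n - 1) - (n : ℝ) * (-11 / 600) ^ (n - 1))) *
          (v ^ n / (n.factorial : ℝ)) := by
      ring
    show 0 ≤ _
    rw [e]
    exact mul_nonneg (by linarith) hp) hs2
  norm_num [Finset.sum_range_succ] at hsum
  have hd : 0 < 1 - Real.exp (-v) := by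
    have : Real.exp (-v) < 1 := by
      rw [Real.exp_lt_one_iff]; linarith
    linarith
  set E := Real.exp (5 / 2 * v) with hE
  have hEp : 0 < E := Real.exp_pos _
  have a1 : Real.exp (3 / 2 * v) = E * Real.exp (-v) := by
    rw [hE, ← Real.exp_add]; congr 1; ring
  have a2 : Real.exp (103 / 50 * v) = E * Real.exp (-(11 / 25 * v)) := by
    rw [hE, ← Real.exp_add]; congr 1; ring
  have a3 : Real.exp (53 / 50 * v) = E * Real.exp (-v) * Real.exp (-(11 / 25 * v)) := by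
    rw [hE, ← Real.exp_add, ← Real.exp_add]; congr 1; ring
  have a4 : Real.exp (589 / 600 * v) = E * Real.exp (-(911 / 600 * v)) := by
    rw [hE, ← Real.exp_add]; congr 1; ring
  have a5 : Real.exp (-(11 / 600 * v)) = E * Real.exp (-v) * Real.exp (-(911 / 600 * v)) := by
    rw [hE, ← Real.exp_add, ← Real.exp_add]; congr 1; ring
  have a6 : E * Real.exp (-(5 / 2 * v)) = 1 := by
    rw [hE, ← Real.exp_add]; simp
  unfold KN K
  have hg : Real.exp (-(5 / 2 * v)) / (1 - Real.exp (-v)) - 1 / v - 1 / 2 + 5 / 2 - 2 +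
      Real.exp (-(11 / 25 * v)) + Real.exp (-(911 / 600 * v)) =
      (v * (E * Real.exp (-(5 / 2 * v))) + v * (E * (1 - Real.exp (-v))) *
        (Real.exp (-(11 / 25 * v)) + Real.exp (-(911 / 600 * v))) -
        E * (1 - Real.exp (-v))) / (v * (E * (1 - Real.exp (-v)))) := by
    have := hd.ne'
    have := hEp.ne'
    field_simp
    ring
  rw [hg, a6]
  apply div_nonpos_of_nonpos_of_nonneg _ (by positivity)
  rw [a1, a2, a3, a4, a5] at hsum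
  nlinarith [hsum]

theorem KN_low {v : ℝ} (hv : 0 < v) : -(2 * v) ≤ KN v := by
  have h1 := K_low (5 / 2) hv
  have h2 : 1 - 11 / 25 * v ≤ Real.exp (-(11 / 25 * v)) := by
    have := Real.add_one_le_exp (-(11 / 25 * v)); linarith
  have h3 : 1 - 911 / 600 * v ≤ Real.exp (-(911 / 600 * v)) := by
    have := Real.add_one_le_exp (-(911 / 600 * v)); linarith
  unfold KN
  linarith

end Pool.Agent.Lib.MP_8382de_an.W3
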