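import Pool.Agent.Lib.MP_8382de_an.W2.Key

/-!
# W3.KeyA: multiplier sequences from a sign condition (complete)

The last part of the proof of `W2.MM_key`.
-/

set_option autoImplicit false

namespace Pool.Agent.Lib.MP_8382de_an.W3

open Polynomial ALG W2

theorem MM_of_sign {N : ℕ → ℝ} (hNpos : ∀ k, 0 < N k) {θ s : ℝ} (hθ : 0 < θ) (hs : 0 < s)
    (h1 : s ≤ 1 / 2 + 2 * θ) (h2 : s ≤ 1 + θ)
    (hkey : ∀ (n : ℕ) (ζ : ℝ), 0 < ζ → (Gg n s θ).eval ζ = 0 →
      0 < (mulc N (Lg n s)).eval ζ * (Lg n s).eval ζ) :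
    MM (fun k => N k / Real.Gamma ((k : ℝ) + s)) := by
  have hGk : ∀ k : ℕ, 0 < Real.Gamma ((k : ℝ) + s) := fun k =>
    Real.Gamma_pos_of_pos (by positivity)
  have hpos : ∀ k : ℕ, 0 < N k / Real.Gamma ((k : ℝ) + s) := fun k =>
    div_pos (hNpos k) (hGk k)
  refine ⟨hpos, fun n z hz => ?_⟩
  rcases Nat.eq_zero_or_pos n with h0 | hn
  · subst h0
    exfalso
    unfold js at hz
    simp only [zero_add, Finset.range_one, Finset.sum_singleton, pow_zero, mul_one,
      Nat.choose_self, Nat.cast_one, one_mul] at hz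
    exact (hpos 0).ne' (Complex.ofReal_eq_zero.mp hz)
  · have hdeg : (mulc N (Lg n s)).natDegree ≤ n := by
      rw [natDegree_le_iff_coeff_eq_zero]
      intro m hm
      rw [coeff_mulc, coeff_Lg, Nat.choose_eq_zero_of_lt hm]
      simp
    have haev : aeval (-z) (mulc N (Lg n s)) = 0 := by
      rw [aeval_eq_sum_range' (Nat.lt_succ_of_le hdeg), ← hz]
      unfold js
      refine Finset.sum_congr rfl fun k _ => ?_
      rw [coeff_mulc, coeff_Lg, Complex.real_smul, neg_pow z k]
      push_cast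
      have hG := (hGk k).ne'
      have hG2 : ((Real.Gamma ((k : ℝ) + s) : ℝ) : ℂ) ≠ 0 := by
        exact_mod_cast hG
      have h11 : ((-1 : ℂ) ^ k) * ((-1 : ℂ) ^ k) = 1 := by rw [← mul_pow]; simp
      field_simp
      linear_combination ((N k : ℂ) * (n.choose k : ℂ) * z ^ k) * h11
    have h3 := transfer hn (Gg_deg n hs hθ) hdeg
      (fun y hy => (Gg_real hs hθ y hy).1) (fun ζ hζ => ?_) haev
    · rw [Complex.neg_im] at h3
      linarith
    · have hζ0 : 0 < ζ := by
        have h4 : aeval (ζ : ℂ) (Gg n s θ) = 0 := by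
          have h5 := aeval_algebraMap_apply ℂ ζ (Gg n s θ)
          rw [coe_aeval_eq_eval, hζ, map_zero] at h5
          exact h5
        have h5 := (Gg_real hs hθ _ h4).2
        simpa using h5
      have a1 := Gg_sign hs hθ h1 h2 hζ0 hζ
      have a2 := hkey n ζ hζ0 hζ
      by_contra h6
      push Not at h6
      have a3 := mul_pos_of_neg_of_neg a1 (neg_neg_of_pos a2)
      have hpne : 0 < (Lg n s).eval ζ ^ 2 := by
        have := sonin_ne hs hθ h1 h2 hζ0 hζ
        positivity
      have a4 : 0 ≤ ((derivative (Gg n s θ)).eval ζ * (mulc N (Lg n s)).eval ζ) *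
          (Lg n s).eval ζ ^ 2 := mul_nonneg h6 hpne.le
      nlinarith

end Pool.Agent.Lib.MP_8382de_an.W3
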