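import Pool.Agent.Lib.MP_8382de_an.W3.Sub

/-!
# W3.NCost: the cost of the narrow factor is at most `NC`

Let `H(ζ) = ∫_0^∞ (-KN v) e^(-ζv) dv/v = -(J (5/2) ζ + 2 log ζ - log(ζ+11/25) - log(ζ+911/600))`
(`subN_eq` with `e = 1`). `H` is decreasing in `ζ > 0` (`-KN ≥ 0`), and by the formula
`H(ζ) = -log Γ(ζ+5/2) + (ζ+2) log ζ - ζ + log(2π)/2 - 2 log ζ + log(ζ+11/25) + log(ζ+911/600)`
`= -log Γ(ζ+5/2) + ζ log ζ - ζ + log(2π)/2 + log((ζ+11/25)(ζ+911/600))`,
which tends to `-log Γ(5/2) + log(2π)/2 + log(11/25 · 911/600)` as `ζ → 0+` (`ζ log ζ → 0`: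
`Real.continuous_mul_log`; `Γ` is continuous at `5/2`). `Γ(5/2) = 3√π/4`
(`Real.Gamma_add_one` twice, `Real.Gamma_one_half_eq`), so the limit is
`log(√(2π) · 4/(3√π) · 11/25 · 911/600) = NC`. Hence `H(ζ) ≤ H(ζ') → NC` (`ζ' ↓ 0`):
`H(ζ) ≤ NC`. In the statement: substitution `t = e v`, `ζ = e y`.
-/

set_option autoImplicit false

namespace Pool.Agent.Lib.MP_8382de_an.W3

open MeasureTheory Set

private noncomputable def NCost_F (ζ : ℝ) : ℝ :=
  -Real.log (Real.Gamma (ζ + 5 / 2)) + ζ * Real.log ζ - ζ + Real.log (2 * Real.pi) / 2 +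
    Real.log (ζ + 11 / 25) + Real.log (ζ + 911 / 600)

private theorem NCost_eq {e y : ℝ} (he : 0 < e) (hy : 0 < y) :
    ∫ t in Ioi (0 : ℝ), -KN (t / e) * Real.exp (-(y * t)) / t = NCost_F (e * y) := by
  have h1 : (fun t : ℝ => -KN (t / e) * Real.exp (-(y * t)) / t) =
      fun t : ℝ => -(KN (t / e) * Real.exp (-(y * t)) / t) := by
    funext t
    ring
  rw [h1, integral_neg, subN_eq he hy]
  unfold NCost_F J
  ring

private theorem NCost_mono {y y' : ℝ} (hy' : 0 < y') (h : y' ≤ y) :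
    NCost_F y ≤ NCost_F y' := by
  have hy : 0 < y := lt_of_lt_of_le hy' h
  have e1 := NCost_eq one_pos hy
  have e2 := NCost_eq one_pos hy'
  rw [one_mul] at e1 e2
  rw [← e1, ← e2]
  have i1 : ∀ z : ℝ, 0 < z →
      IntegrableOn (fun t : ℝ => -KN (t / 1) * Real.exp (-(z * t)) / t) (Ioi 0) := by
    intro z hz
    have h2 := (subN_int one_pos hz).neg
    refine h2.congr (Filter.Eventually.of_forall fun t => ?_)
    show -(KN (t / 1) * Real.exp (-(z * t)) / t) = -KN (t / 1) * Real.exp (-(z * t)) / t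
    ring
  refine setIntegral_mono_on (i1 y hy) (i1 y' hy') measurableSet_Ioi ?_
  intro t ht
  have ht' : (0 : ℝ) < t := ht
  have h3 : KN (t / 1) ≤ 0 := KN_nonpos (by rw [div_one]; exact ht')
  have h4 : Real.exp (-(y * t)) ≤ Real.exp (-(y' * t)) := by
    apply Real.exp_le_exp.2
    have := mul_le_mul_of_nonneg_right h ht'.le
    linarith
  refine div_le_div_of_nonneg_right ?_ ht'.le
  exact mul_le_mul_of_nonneg_left h4 (by linarith)

private theorem NCost_Gamma : Real.Gamma (5 / 2) = 3 / 4 * Real.sqrt Real.pi := by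
  rw [show (5 / 2 : ℝ) = 1 / 2 + 1 + 1 by norm_num, Real.Gamma_add_one (by norm_num),
    Real.Gamma_add_one (by norm_num), Real.Gamma_one_half_eq]
  ring

private theorem NCost_zero : NCost_F 0 = NC := by
  unfold NCost_F NC
  rw [zero_add, zero_add, zero_add, zero_mul, NCost_Gamma]
  have hp : Real.sqrt Real.pi ≠ 0 := (Real.sqrt_pos.2 Real.pi_pos).ne'
  have h2 : Real.sqrt 2 ≠ 0 := (Real.sqrt_pos.2 two_pos).ne'
  rw [Real.log_mul (by norm_num) hp, Real.log_mul two_ne_zero Real.pi_ne_zero,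
    Real.log_mul h2 (by norm_num), Real.log_mul (by norm_num) (by norm_num),
    Real.log_mul (by norm_num) (by norm_num), Real.log_sqrt Real.pi_pos.le,
    Real.log_sqrt two_pos.le]
  have h3 : Real.log (3 / 4 : ℝ) = -Real.log (4 / 3 : ℝ) := by
    rw [← Real.log_inv]
    norm_num
  rw [h3]
  ring

private theorem NCost_cont : ContinuousAt NCost_F 0 := by
  have hG : ContinuousAt Real.Gamma ((0 : ℝ) + 5 / 2) := by
    refine (Real.differentiableAt_Gamma ?_).continuousAt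
    intro m
    have : (0 : ℝ) ≤ m := Nat.cast_nonneg m
    intro h
    linarith
  have hG' : ContinuousAt (fun ζ : ℝ => Real.Gamma (ζ + 5 / 2)) 0 :=
    ContinuousAt.comp (f := fun ζ : ℝ => ζ + 5 / 2) hG
      (continuousAt_id.add continuousAt_const)
  have hpos : Real.Gamma ((0 : ℝ) + 5 / 2) ≠ 0 := (Real.Gamma_pos_of_pos (by norm_num)).ne'
  have h1 := hG'.log hpos
  have h2 : ContinuousAt (fun ζ : ℝ => ζ * Real.log ζ) 0 := Real.continuous_mul_log.continuousAt
  have h3 : ContinuousAt (fun ζ : ℝ => Real.log (ζ + 11 / 25)) 0 :=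
    (continuousAt_id.add continuousAt_const).log (by norm_num)
  have h4 : ContinuousAt (fun ζ : ℝ => Real.log (ζ + 911 / 600)) 0 :=
    (continuousAt_id.add continuousAt_const).log (by norm_num)
  exact ((((h1.neg.add h2).sub continuousAt_id).add continuousAt_const).add h3).add h4

theorem narrow_cost {e y : ℝ} (he : 0 < e) (hy : 0 < y) :
    ∫ t in Ioi (0 : ℝ), -KN (t / e) * Real.exp (-(y * t)) / t ≤ NC := by
  rw [NCost_eq he hy, ← NCost_zero]
  have hz : 0 < e * y := mul_pos he hy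
  have h1 : Filter.Tendsto NCost_F (nhdsWithin 0 (Ioi 0)) (nhds (NCost_F 0)) :=
    NCost_cont.tendsto.mono_left nhdsWithin_le_nhds
  refine ge_of_tendsto h1 ?_
  have h2 : Ioo (0 : ℝ) (e * y) ∈ nhdsWithin (0 : ℝ) (Ioi 0) := Ioo_mem_nhdsGT hz
  filter_upwards [h2] with x hx
  exact NCost_mono hx.1 hx.2.le

end Pool.Agent.Lib.MP_8382de_an.W3
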