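import Pool.Agent.Lib.MP_8382de_an.W3.Sub

/-!
# W3.RepN: the Gamma functions of rule N

As `RepR` with the last factor replaced by the narrow one: with `y = k + z`
`∫ gN e^(-kt) dt = J 0 (cy) - J x_a (ay) - J x_b (by) - J x3 y
 - [J (5/2) (ey) + 2 log(ey) - log(ey+11/25) - log(ey+911/600)]` (`sub_eq`, `subN_eq`). So
`exp(-∫) = Γ(ak+1) Γ(bk+1) Γ(k+z+x3) Γ(ek+ez+5/2) / ((ek+ez+11/25)(ek+ez+911/600) Γ(ck+cz)) · exp(R)`
where now the contribution of the last factor to `R` is
`-(ey + 2) log(ey) + ey - log(2π)/2 + 2 log(ey) = -ey log(ey) + ey - log(2π)/2`. The coefficient of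
`log y` in `R`: `-(a+b+1+e) y - (x_a+x_b+x3) + 3/2 + cy - 1/2 = 0` by `hsum`.
-/

set_option autoImplicit false

namespace Pool.Agent.Lib.MP_8382de_an.W3

open MeasureTheory Set

private theorem repN_term {x α y k z t : ℝ} (hy : y = k + z) :
    K x (t / α) * Real.exp (-(z * t)) / t * Real.exp (-(k * t)) =
      K x (t / α) * Real.exp (-(y * t)) / t := by
  have h : Real.exp (-(y * t)) = Real.exp (-(z * t)) * Real.exp (-(k * t)) := by
    rw [← Real.exp_add, hy]
    congr 1
    ring
  rw [h]
  ring

private theorem repN_termN {α y k z t : ℝ} (hy : y = k + z) :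
    KN (t / α) * Real.exp (-(z * t)) / t * Real.exp (-(k * t)) =
      KN (t / α) * Real.exp (-(y * t)) / t := by
  have h : Real.exp (-(y * t)) = Real.exp (-(z * t)) * Real.exp (-(k * t)) := by
    rw [← Real.exp_add, hy]
    congr 1
    ring
  rw [h]
  ring

private theorem repN_int5 {s : Set ℝ} {f1 f2 f3 f4 f5 : ℝ → ℝ} (i1 : IntegrableOn f1 s)
    (i2 : IntegrableOn f2 s) (i3 : IntegrableOn f3 s) (i4 : IntegrableOn f4 s)
    (i5 : IntegrableOn f5 s) :
    ∫ t in s, (f1 t - f2 t - f3 t - f4 t - f5 t) =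
      (∫ t in s, f1 t) - (∫ t in s, f2 t) - (∫ t in s, f3 t) - (∫ t in s, f4 t) -
        ∫ t in s, f5 t := by
  have j2 : IntegrableOn (fun t => f1 t - f2 t) s := i1.sub i2
  have j3 : IntegrableOn (fun t => f1 t - f2 t - f3 t) s := j2.sub i3
  have j4 : IntegrableOn (fun t => f1 t - f2 t - f3 t - f4 t) s := j3.sub i4
  rw [integral_sub j4 i5, integral_sub j3 i4, integral_sub j2 i3, integral_sub i1 i2]

theorem repN {a b c e z x3 : ℝ} (ha : 0 < a) (hb : 0 < b) (he : 0 < e)
    (hc : c = a + b + 1 + e) (hz : 0 < z) (h3 : 0 < z + x3)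
    (hsum : (1 - a * z) + (1 - b * z) + x3 = 1) :
    ∃ C r : ℝ, 0 < C ∧ 0 < r ∧ ∀ k : ℕ,
      Real.exp (-∫ t in Ioi (0 : ℝ), gN a b c e z x3 t * Real.exp (-((k : ℝ) * t))) =
        C * r ^ k * (Real.Gamma (a * k + 1) * Real.Gamma (b * k + 1) *
          Real.Gamma ((k : ℝ) + (z + x3)) * Real.Gamma (e * k + (e * z + 5 / 2)) /
          ((e * k + (e * z + 11 / 25)) * (e * k + (e * z + 911 / 600)) *
            Real.Gamma (c * k + c * z))) := by
  have hc0 : 0 < c := by rw [hc]; positivity
  set R1 : ℝ := c * Real.log c - a * Real.log a - b * Real.log b - e * Real.log e with hR1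
  set R0 : ℝ := z * R1 - (1 - a * z - 1 / 2) * Real.log a - (1 - b * z - 1 / 2) * Real.log b -
    1 / 2 * Real.log c - 3 * (Real.log (2 * Real.pi) / 2) with hR0
  refine ⟨Real.exp R0, Real.exp R1, Real.exp_pos _, Real.exp_pos _, ?_⟩
  intro k
  have hk : (0 : ℝ) ≤ k := Nat.cast_nonneg k
  set y : ℝ := k + z with hy
  have hy0 : 0 < y := by positivity
  have pc : 0 < c * y + 0 := by positivity
  have pa : 0 < a * y + (1 - a * z) := by
    have : a * y + (1 - a * z) = a * k + 1 := by rw [hy]; ring
    rw [this]; positivity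
  have pb : 0 < b * y + (1 - b * z) := by
    have : b * y + (1 - b * z) = b * k + 1 := by rw [hy]; ring
    rw [this]; positivity
  have p3 : 0 < 1 * y + x3 := by
    have : 1 * y + x3 = k + (z + x3) := by rw [hy]; ring
    rw [this]; positivity
  have hint : ∫ t in Ioi (0 : ℝ), gN a b c e z x3 t * Real.exp (-((k : ℝ) * t)) =
      J 0 (c * y) - J (1 - a * z) (a * y) - J (1 - b * z) (b * y) - J x3 (1 * y) -
        (J (5 / 2) (e * y) + 2 * Real.log (e * y) - Real.log (e * y + 11 / 25) -
        Real.log (e * y + 911 / 600)) := by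
    have e1 : (fun t : ℝ => gN a b c e z x3 t * Real.exp (-((k : ℝ) * t))) =
        fun t : ℝ => K 0 (t / c) * Real.exp (-(y * t)) / t -
          K (1 - a * z) (t / a) * Real.exp (-(y * t)) / t -
          K (1 - b * z) (t / b) * Real.exp (-(y * t)) / t -
          K x3 (t / 1) * Real.exp (-(y * t)) / t -
          KN (t / e) * Real.exp (-(y * t)) / t := by
      funext t
      have h1 := repN_term (x := 0) (α := c) (t := t) hy
      have h2 := repN_term (x := 1 - a * z) (α := a) (t := t) hy
      have h3 := repN_term (x := 1 - b * z) (α := b) (t := t) hy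
      have h4 := repN_term (x := x3) (α := 1) (t := t) hy
      have h5 := repN_termN (α := e) (t := t) hy
      rw [← h1, ← h2, ← h3, ← h4, ← h5]
      simp only [gN, div_one]
      ring
    rw [e1]
    have i1 := sub_int hc0 hy0 pc
    have i2 := sub_int ha hy0 pa
    have i3 := sub_int hb hy0 pb
    have i4 := sub_int one_pos hy0 p3
    have i5 := subN_int he hy0
    rw [repN_int5 i1 i2 i3 i4 i5, sub_eq hc0 hy0 pc, sub_eq ha hy0 pa,
      sub_eq hb hy0 pb, sub_eq one_pos hy0 p3, subN_eq he hy0]
  have ea : a * y + (1 - a * z) = a * k + 1 := by rw [hy]; ring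
  have eb : b * y + (1 - b * z) = b * k + 1 := by rw [hy]; ring
  have e3 : 1 * y + x3 = k + (z + x3) := by rw [hy]; ring
  have e4 : e * y + 5 / 2 = e * k + (e * z + 5 / 2) := by rw [hy]; ring
  have e5 : e * y + 11 / 25 = e * k + (e * z + 11 / 25) := by rw [hy]; ring
  have e6 : e * y + 911 / 600 = e * k + (e * z + 911 / 600) := by rw [hy]; ring
  have ec : c * y + 0 = c * k + c * z := by rw [hy]; ring
  have la : Real.log (a * y) = Real.log a + Real.log y := Real.log_mul ha.ne' hy0.ne'
  have lb : Real.log (b * y) = Real.log b + Real.log y := Real.log_mul hb.ne' hy0.ne'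
  have le : Real.log (e * y) = Real.log e + Real.log y := Real.log_mul he.ne' hy0.ne'
  have lc : Real.log (c * y) = Real.log c + Real.log y := Real.log_mul hc0.ne' hy0.ne'
  have l1 : Real.log (1 * y) = Real.log y := by rw [one_mul]
  have hE : -(J 0 (c * y) - J (1 - a * z) (a * y) - J (1 - b * z) (b * y) - J x3 (1 * y) -
        (J (5 / 2) (e * y) + 2 * Real.log (e * y) - Real.log (e * y + 11 / 25) -
        Real.log (e * y + 911 / 600))) = R0 + k * R1 + (Real.log (Real.Gamma (a * k + 1)) +
          Real.log (Real.Gamma (b * k + 1)) + Real.log (Real.Gamma ((k : ℝ) + (z + x3))) +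
          Real.log (Real.Gamma (e * k + (e * z + 5 / 2))) -
          (Real.log (e * k + (e * z + 11 / 25)) + Real.log (e * k + (e * z + 911 / 600)) +
            Real.log (Real.Gamma (c * k + c * z)))) := by
    simp only [J]
    rw [ea, eb, e3, e4, e5, e6, ec, la, lb, le, lc, l1, hR0, hR1]
    have hx3 : x3 = 1 - (1 - a * z) - (1 - b * z) := by linarith
    rw [hy]
    generalize Real.log (Real.Gamma (a * k + 1)) = A1
    generalize Real.log (Real.Gamma (b * k + 1)) = A2
    generalize Real.log (Real.Gamma ((k : ℝ) + (z + x3))) = A3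
    generalize Real.log (Real.Gamma (e * k + (e * z + 5 / 2))) = A4
    generalize Real.log (Real.Gamma (c * k + c * z)) = A5
    generalize Real.log (e * k + (e * z + 11 / 25)) = A6
    generalize Real.log (e * k + (e * z + 911 / 600)) = A7
    generalize Real.log a = L1
    generalize Real.log b = L2
    generalize Real.log e = L3
    generalize Real.log c = L4
    generalize Real.log (k + z) = L5
    generalize Real.log (2 * Real.pi) = L6
    subst hc
    subst hx3
    ring
  rw [hint, hE]
  clear_value R0 R1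
  have gA := Real.Gamma_pos_of_pos (show 0 < a * k + 1 from ea ▸ pa)
  have gB := Real.Gamma_pos_of_pos (show 0 < b * k + 1 from eb ▸ pb)
  have gC := Real.Gamma_pos_of_pos (show 0 < (k : ℝ) + (z + x3) from e3 ▸ p3)
  have gD := Real.Gamma_pos_of_pos (show 0 < e * k + (e * z + 5 / 2) by positivity)
  have gE := Real.Gamma_pos_of_pos (show 0 < c * k + c * z from ec ▸ pc)
  have g5 : 0 < e * k + (e * z + 11 / 25) := by positivity
  have g6 : 0 < e * k + (e * z + 911 / 600) := by positivity
  rw [Real.exp_add, Real.exp_add, Real.exp_sub, Real.exp_add, Real.exp_add, Real.exp_add,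
    Real.exp_add, Real.exp_add,
    Real.exp_log gA, Real.exp_log gB, Real.exp_log gC, Real.exp_log gD, Real.exp_log gE,
    Real.exp_log g5, Real.exp_log g6, Real.exp_nat_mul]

end Pool.Agent.Lib.MP_8382de_an.W3
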