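import Pool.Agent.Lib.MP_8382de_an.W3.Sub

/-!
# W3.RepR: the four Gamma functions of rule R

With `y = k + z`: `∫ gR e^(-kt) dt = J 0 (cy) - J x_a (ay) - J x_b (by) - J x3 y - J x4 (ey)`
(`x_a = 1 - az`, `x_b = 1 - bz`; `sub_int`, `sub_eq` with `α = c, a, b, 1, e`; positivity:
`ay + x_a = ak + 1`, `by + x_b = bk + 1`, `y + x3 = k + (z + x3)`, `ey + x4 = ek + (ez + x4)`).
So `exp(-∫) = Γ(ak+1) Γ(bk+1) Γ(k+z+x3) Γ(ek+ez+x4)/Γ(ck+cz) · exp(R)`,
`R = -∑_i [(a_i y + x_i - 1/2) log(a_i y) - a_i y + log(2π)/2] + (cy - 1/2) log(cy) - cy + log(2π)/2`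
(`i` over the four factors, `a_i = a, b, 1, e`). Write `log(a_i y) = log a_i + log y`: the coefficient
of `log y` is `-(a+b+1+e) y - (x_a+x_b+x3+x4) + 2 + c y - 1/2 = 0` by `hsum` and `c = a+b+1+e`; the
rest is affine in `y`, i.e. in `k`: `R = R₀ + k R₁`; `C = e^(R₀)`, `r = e^(R₁)`.
Explicitly `R₁ = c log c - a log a - b log b - e log e`.
-/

set_option autoImplicit false

namespace Pool.Agent.Lib.MP_8382de_an.W3

open MeasureTheory Set

private theorem repR_term {x α y k z t : ℝ} (hy : y = k + z) :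
    K x (t / α) * Real.exp (-(z * t)) / t * Real.exp (-(k * t)) =
      K x (t / α) * Real.exp (-(y * t)) / t := by
  have h : Real.exp (-(y * t)) = Real.exp (-(z * t)) * Real.exp (-(k * t)) := by
    rw [← Real.exp_add, hy]
    congr 1
    ring
  rw [h]
  ring

private theorem repR_int5 {s : Set ℝ} {f1 f2 f3 f4 f5 : ℝ → ℝ} (i1 : IntegrableOn f1 s)
    (i2 : IntegrableOn f2 s) (i3 : IntegrableOn f3 s) (i4 : IntegrableOn f4 s)
    (i5 : IntegrableOn f5 s) :
    ∫ t in s, (f1 t - f2 t - f3 t - f4 t - f5 t) =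
      (∫ t in s, f1 t) - (∫ t in s, f2 t) - (∫ t in s, f3 t) - (∫ t in s, f4 t) -
        ∫ t in s, f5 t := by
  have j2 : IntegrableOn (fun t => f1 t - f2 t) s := i1.sub i2
  have j3 : IntegrableOn (fun t => f1 t - f2 t - f3 t) s := j2.sub i3
  have j4 : IntegrableOn (fun t => f1 t - f2 t - f3 t - f4 t) s := j3.sub i4
  rw [integral_sub j4 i5, integral_sub j3 i4, integral_sub j2 i3, integral_sub i1 i2]

theorem repR {a b c e z x3 x4 : ℝ} (ha : 0 < a) (hb : 0 < b) (he : 0 < e)
    (hc : c = a + b + 1 + e) (hz : 0 < z) (h3 : 0 < z + x3) (h4 : 0 < e * z + x4)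
    (hsum : (1 - a * z) + (1 - b * z) + x3 + x4 = 3 / 2) :
    ∃ C r : ℝ, 0 < C ∧ 0 < r ∧ ∀ k : ℕ,
      Real.exp (-∫ t in Ioi (0 : ℝ), gR a b c e z x3 x4 t * Real.exp (-((k : ℝ) * t))) =
        C * r ^ k * (Real.Gamma (a * k + 1) * Real.Gamma (b * k + 1) *
          Real.Gamma ((k : ℝ) + (z + x3)) * Real.Gamma (e * k + (e * z + x4)) /
          Real.Gamma (c * k + c * z)) := by
  have hc0 : 0 < c := by rw [hc]; positivity
  set R1 : ℝ := c * Real.log c - a * Real.log a - b * Real.log b - e * Real.log e with hR1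
  set R0 : ℝ := z * R1 - (1 - a * z - 1 / 2) * Real.log a - (1 - b * z - 1 / 2) * Real.log b -
    (x4 - 1 / 2) * Real.log e - 1 / 2 * Real.log c - 3 * (Real.log (2 * Real.pi) / 2) with hR0
  refine ⟨Real.exp R0, Real.exp R1, Real.exp_pos _, Real.exp_pos _, ?_⟩
  intro k
  have hk : (0 : ℝ) ≤ k := Nat.cast_nonneg k
  set y : ℝ := k + z with hy
  have hy0 : 0 < y := by positivity
  have pc : 0 < c * y + 0 := by positivity
  have pa : 0 < a * y + (1 - a * z) := by
    have : a * y + (1 - a * z) = a * k + 1 := by rw [hy]; ring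
    rw [this]; positivity
  have pb : 0 < b * y + (1 - b * z) := by
    have : b * y + (1 - b * z) = b * k + 1 := by rw [hy]; ring
    rw [this]; positivity
  have p3 : 0 < 1 * y + x3 := by
    have : 1 * y + x3 = k + (z + x3) := by rw [hy]; ring
    rw [this]; positivity
  have p4 : 0 < e * y + x4 := by
    have : e * y + x4 = e * k + (e * z + x4) := by rw [hy]; ring
    rw [this]; positivity
  have hint : ∫ t in Ioi (0 : ℝ), gR a b c e z x3 x4 t * Real.exp (-((k : ℝ) * t)) =
      J 0 (c * y) - J (1 - a * z) (a * y) - J (1 - b * z) (b * y) - J x3 (1 * y) -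
        J x4 (e * y) := by
    have e1 : (fun t : ℝ => gR a b c e z x3 x4 t * Real.exp (-((k : ℝ) * t))) =
        fun t : ℝ => K 0 (t / c) * Real.exp (-(y * t)) / t -
          K (1 - a * z) (t / a) * Real.exp (-(y * t)) / t -
          K (1 - b * z) (t / b) * Real.exp (-(y * t)) / t -
          K x3 (t / 1) * Real.exp (-(y * t)) / t -
          K x4 (t / e) * Real.exp (-(y * t)) / t := by
      funext t
      have h1 := repR_term (x := 0) (α := c) (t := t) hy
      have h2 := repR_term (x := 1 - a * z) (α := a) (t := t) hy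
      have h3 := repR_term (x := 1 - b * z) (α := b) (t := t) hy
      have h4 := repR_term (x := x3) (α := 1) (t := t) hy
      have h5 := repR_term (x := x4) (α := e) (t := t) hy
      rw [← h1, ← h2, ← h3, ← h4, ← h5]
      simp only [gR, div_one]
      ring
    rw [e1]
    have i1 := sub_int hc0 hy0 pc
    have i2 := sub_int ha hy0 pa
    have i3 := sub_int hb hy0 pb
    have i4 := sub_int one_pos hy0 p3
    have i5 := sub_int he hy0 p4
    rw [repR_int5 i1 i2 i3 i4 i5, sub_eq hc0 hy0 pc, sub_eq ha hy0 pa,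
      sub_eq hb hy0 pb, sub_eq one_pos hy0 p3, sub_eq he hy0 p4]
  have ea : a * y + (1 - a * z) = a * k + 1 := by rw [hy]; ring
  have eb : b * y + (1 - b * z) = b * k + 1 := by rw [hy]; ring
  have e3 : 1 * y + x3 = k + (z + x3) := by rw [hy]; ring
  have e4 : e * y + x4 = e * k + (e * z + x4) := by rw [hy]; ring
  have ec : c * y + 0 = c * k + c * z := by rw [hy]; ring
  have la : Real.log (a * y) = Real.log a + Real.log y := Real.log_mul ha.ne' hy0.ne'
  have lb : Real.log (b * y) = Real.log b + Real.log y := Real.log_mul hb.ne' hy0.ne'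
  have le : Real.log (e * y) = Real.log e + Real.log y := Real.log_mul he.ne' hy0.ne'
  have lc : Real.log (c * y) = Real.log c + Real.log y := Real.log_mul hc0.ne' hy0.ne'
  have l1 : Real.log (1 * y) = Real.log y := by rw [one_mul]
  have hE : -(J 0 (c * y) - J (1 - a * z) (a * y) - J (1 - b * z) (b * y) - J x3 (1 * y) -
        J x4 (e * y)) = R0 + k * R1 + (Real.log (Real.Gamma (a * k + 1)) +
          Real.log (Real.Gamma (b * k + 1)) + Real.log (Real.Gamma ((k : ℝ) + (z + x3))) +
          Real.log (Real.Gamma (e * k + (e * z + x4))) - Real.log (Real.Gamma (c * k + c * z))) := by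
    simp only [J]
    rw [ea, eb, e3, e4, ec, la, lb, le, lc, l1, hR0, hR1]
    have hx4 : x4 = 3 / 2 - (1 - a * z) - (1 - b * z) - x3 := by linarith
    rw [hy]
    have hcy : c * (k + z) = (a + b + 1 + e) * (k + z) := by rw [hc]
    have hcz : c * z = (a + b + 1 + e) * z := by rw [hc]
    generalize Real.log (Real.Gamma (a * k + 1)) = A1
    generalize Real.log (Real.Gamma (b * k + 1)) = A2
    generalize Real.log (Real.Gamma ((k : ℝ) + (z + x3))) = A3
    generalize Real.log (Real.Gamma (e * k + (e * z + x4))) = A4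
    generalize Real.log (Real.Gamma (c * k + c * z)) = A5
    generalize Real.log a = L1
    generalize Real.log b = L2
    generalize Real.log e = L3
    generalize Real.log c = L4
    generalize Real.log (k + z) = L5
    generalize Real.log (2 * Real.pi) = L6
    subst hc
    subst hx4
    ring
  rw [hint, hE]
  clear_value R0 R1
  have gA := Real.Gamma_pos_of_pos (show 0 < a * k + 1 from ea ▸ pa)
  have gB := Real.Gamma_pos_of_pos (show 0 < b * k + 1 from eb ▸ pb)
  have gC := Real.Gamma_pos_of_pos (show 0 < (k : ℝ) + (z + x3) from e3 ▸ p3)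
  have gD := Real.Gamma_pos_of_pos (show 0 < e * k + (e * z + x4) from e4 ▸ p4)
  have gE := Real.Gamma_pos_of_pos (show 0 < c * k + c * z from ec ▸ pc)
  rw [Real.exp_add, Real.exp_add, Real.exp_sub, Real.exp_add, Real.exp_add, Real.exp_add,
    Real.exp_log gA, Real.exp_log gB, Real.exp_log gC, Real.exp_log gD, Real.exp_log gE,
    Real.exp_nat_mul]

end Pool.Agent.Lib.MP_8382de_an.W3
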