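import Pool.Agent.Lib.MP_8382de_an.W3.Defs

/-!
# W3.Ser: power series of `e^(av)`, `v e^(av)`, `v^2 e^(av)` (complete)
-/

set_option autoImplicit false

namespace Pool.Agent.Lib.MP_8382de_an.W3

theorem ser0 (a v : ℝ) : HasSum (fun n : ℕ => a ^ n * (v ^ n / (n.factorial : ℝ)))
    (Real.exp (a * v)) := by
  have h := NormedSpace.expSeries_div_hasSum_exp (𝔸 := ℝ) (a * v)
  rw [← Real.exp_eq_exp_ℝ] at h
  have e : (fun n : ℕ => (a * v) ^ n / (n.factorial : ℝ)) =
      fun n : ℕ => a ^ n * (v ^ n / (n.factorial : ℝ)) := by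
    funext n
    rw [mul_pow]
    ring
  rw [← e]
  exact h

theorem ser1 (a v : ℝ) : HasSum (fun n : ℕ => ((n : ℝ) * a ^ (n - 1)) * (v ^ n / (n.factorial : ℝ)))
    (v * Real.exp (a * v)) := by
  have h := (ser0 a v).mul_left v
  have h2 : HasSum (fun n : ℕ => (((n + 1 : ℕ) : ℝ) * a ^ (n + 1 - 1)) *
      (v ^ (n + 1) / ((n + 1).factorial : ℝ))) (v * Real.exp (a * v)) := by
    have e : (fun n : ℕ => v * (a ^ n * (v ^ n / (n.factorial : ℝ)))) =
        fun n : ℕ => (((n + 1 : ℕ) : ℝ) * a ^ (n + 1 - 1)) *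
          (v ^ (n + 1) / ((n + 1).factorial : ℝ)) := by
      funext n
      have hf : ((n.factorial : ℕ) : ℝ) ≠ 0 := by exact_mod_cast n.factorial_ne_zero
      have hn : ((n : ℝ) + 1) ≠ 0 := by positivity
      rw [Nat.factorial_succ, Nat.add_sub_cancel, pow_succ]
      push_cast
      field_simp
    rw [← e]
    exact h
  refine (hasSum_nat_add_iff' 1).1 ?_
  rw [Finset.sum_range_one]
  simpa using h2

theorem ser2 (a v : ℝ) : HasSum (fun n : ℕ => ((n : ℝ) * ((n : ℝ) - 1) * a ^ (n - 2)) *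
    (v ^ n / (n.factorial : ℝ))) (v ^ 2 * Real.exp (a * v)) := by
  have h := (ser0 a v).mul_left (v ^ 2)
  have h2 : HasSum (fun n : ℕ => (((n + 2 : ℕ) : ℝ) * (((n + 2 : ℕ) : ℝ) - 1) * a ^ (n + 2 - 2)) *
      (v ^ (n + 2) / ((n + 2).factorial : ℝ))) (v ^ 2 * Real.exp (a * v)) := by
    have e : (fun n : ℕ => v ^ 2 * (a ^ n * (v ^ n / (n.factorial : ℝ)))) =
        fun n : ℕ => (((n + 2 : ℕ) : ℝ) * (((n + 2 : ℕ) : ℝ) - 1) * a ^ (n + 2 - 2)) *
          (v ^ (n + 2) / ((n + 2).factorial : ℝ)) := by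
      funext n
      have hf : ((n.factorial : ℕ) : ℝ) ≠ 0 := by exact_mod_cast n.factorial_ne_zero
      have hn : ((n : ℝ) + 1) ≠ 0 := by positivity
      have hn2 : ((n : ℝ) + 2) ≠ 0 := by positivity
      have hfs : (((n + 2).factorial : ℕ) : ℝ) = ((n : ℝ) + 2) * (((n : ℝ) + 1) * (n.factorial : ℝ)) := by
        rw [Nat.factorial_succ, Nat.factorial_succ]
        push_cast
        ring
      rw [hfs, Nat.add_sub_cancel, pow_add]
      push_cast
      field_simp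
      ring
    rw [← e]
    exact h
  refine (hasSum_nat_add_iff' 2).1 ?_
  have e2 : v ^ 2 * Real.exp (a * v) - ∑ i ∈ Finset.range 2,
      ((i : ℝ) * ((i : ℝ) - 1) * a ^ (i - 2)) * (v ^ i / (i.factorial : ℝ)) =
      v ^ 2 * Real.exp (a * v) := by
    rw [Finset.sum_range_succ, Finset.sum_range_one]
    simp
  rw [e2]
  exact h2

end Pool.Agent.Lib.MP_8382de_an.W3
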