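import Pool.Agent.Lib.MP_8382de_an.W3.Bin
import Pool.Agent.Lib.MP_8382de_an.W3.KNb

/-!
# W3.Sub: Binet's formula with a scale, and for the narrow kernel

`sub_int`, `sub_eq`: substitution `t = α v` (`integral_comp_mul_left_Ioi`,
`integrableOn_Ioi_comp_mul_left_iff`): `K x (t/α) e^(-yt) dt/t = K x v e^(-(αy)v) dv/v`; then `B_int`
and `binet` at `ζ = α y`.

`subN_int`, `subN_eq`: `KN v = K (5/2) v + (e^(-11v/25) - 1) + (e^(-911v/600) - 1)`; with `ζ = e y`:
`∫ KN v e^(-ζv) dv/v = J (5/2) ζ + log(ζ/(ζ+11/25)) + log(ζ/(ζ+911/600))` by `binet` and `fru`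
(`(e^(-αv) - 1) e^(-ζv) = e^(-(ζ+α)v) - e^(-ζv)`).
-/

set_option autoImplicit false

namespace Pool.Agent.Lib.MP_8382de_an.W3

open MeasureTheory Set

private theorem Sub_fun (g : ℝ → ℝ) {α : ℝ} (hα : 0 < α) (y t : ℝ) :
    g (t / α) * Real.exp (-(y * t)) / t =
      α⁻¹ * (g (α⁻¹ * t) * Real.exp (-(α * y * (α⁻¹ * t))) / (α⁻¹ * t)) := by
  have e1 : t / α = α⁻¹ * t := by rw [div_eq_inv_mul]
  have e2 : α * y * (α⁻¹ * t) = y * t := by field_simp
  rw [e1, e2]
  rcases eq_or_ne t 0 with ht | ht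
  · simp [ht]
  · field_simp

private theorem Sub_int' (g : ℝ → ℝ) {α y : ℝ} (hα : 0 < α)
    (h : IntegrableOn (fun v : ℝ => g v * Real.exp (-(α * y * v)) / v) (Ioi 0)) :
    IntegrableOn (fun t : ℝ => g (t / α) * Real.exp (-(y * t)) / t) (Ioi 0) := by
  have hinv : 0 < α⁻¹ := inv_pos.2 hα
  have h1 := (integrableOn_Ioi_comp_mul_left_iff
    (fun v : ℝ => g v * Real.exp (-(α * y * v)) / v) 0 hinv).2 (by simpa using h)
  have h2 := h1.const_mul α⁻¹
  have e : (fun t : ℝ => g (t / α) * Real.exp (-(y * t)) / t) =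
      fun t : ℝ => α⁻¹ * (g (α⁻¹ * t) * Real.exp (-(α * y * (α⁻¹ * t))) / (α⁻¹ * t)) := by
    funext t
    exact Sub_fun g hα y t
  rw [e]
  exact h2

private theorem Sub_eq' (g : ℝ → ℝ) {α y : ℝ} (hα : 0 < α) :
    ∫ t in Ioi (0 : ℝ), g (t / α) * Real.exp (-(y * t)) / t =
      ∫ v in Ioi (0 : ℝ), g v * Real.exp (-(α * y * v)) / v := by
  have hinv : 0 < α⁻¹ := inv_pos.2 hα
  have e : (fun t : ℝ => g (t / α) * Real.exp (-(y * t)) / t) =
      fun t : ℝ => α⁻¹ * (g (α⁻¹ * t) * Real.exp (-(α * y * (α⁻¹ * t))) / (α⁻¹ * t)) := by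
    funext t
    exact Sub_fun g hα y t
  rw [e, integral_const_mul]
  have h1 := integral_comp_mul_left_Ioi (fun v : ℝ => g v * Real.exp (-(α * y * v)) / v) 0 hinv
  rw [h1]
  simp only [mul_zero, inv_inv, smul_eq_mul]
  field_simp

theorem sub_int {x α y : ℝ} (hα : 0 < α) (hy : 0 < y) (hx : 0 < α * y + x) :
    IntegrableOn (fun t : ℝ => K x (t / α) * Real.exp (-(y * t)) / t) (Ioi 0) :=
  Sub_int' (K x) hα (B_int (mul_pos hα hy) hx)

theorem sub_eq {x α y : ℝ} (hα : 0 < α) (hy : 0 < y) (hx : 0 < α * y + x) :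
    ∫ t in Ioi (0 : ℝ), K x (t / α) * Real.exp (-(y * t)) / t = J x (α * y) := by
  rw [Sub_eq' (K x) hα]
  exact binet (mul_pos hα hy) hx

private theorem Sub_KN (ζ v : ℝ) : KN v * Real.exp (-(ζ * v)) / v =
    K (5 / 2) v * Real.exp (-(ζ * v)) / v +
      (Real.exp (-((ζ + 11 / 25) * v)) - Real.exp (-(ζ * v))) / v +
      (Real.exp (-((ζ + 911 / 600) * v)) - Real.exp (-(ζ * v))) / v := by
  have e1 : Real.exp (-((ζ + 11 / 25) * v)) =
      Real.exp (-(ζ * v)) * Real.exp (-(11 / 25 * v)) := by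
    rw [← Real.exp_add]; congr 1; ring
  have e2 : Real.exp (-((ζ + 911 / 600) * v)) =
      Real.exp (-(ζ * v)) * Real.exp (-(911 / 600 * v)) := by
    rw [← Real.exp_add]; congr 1; ring
  rw [e1, e2]
  unfold KN
  ring

private theorem Sub_N1 {ζ : ℝ} (h : 0 < ζ) :
    IntegrableOn (fun v : ℝ => K (5 / 2) v * Real.exp (-(ζ * v)) / v +
      (Real.exp (-((ζ + 11 / 25) * v)) - Real.exp (-(ζ * v))) / v) (Ioi 0) :=
  (B_int h (by linarith)).add (fru_int (by linarith) h)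

theorem subN_int {e y : ℝ} (he : 0 < e) (hy : 0 < y) :
    IntegrableOn (fun t : ℝ => KN (t / e) * Real.exp (-(y * t)) / t) (Ioi 0) := by
  have hz : 0 < e * y := mul_pos he hy
  refine Sub_int' KN he ?_
  have e1 : (fun v : ℝ => KN v * Real.exp (-(e * y * v)) / v) = fun v : ℝ =>
      K (5 / 2) v * Real.exp (-(e * y * v)) / v +
      (Real.exp (-((e * y + 11 / 25) * v)) - Real.exp (-(e * y * v))) / v +
      (Real.exp (-((e * y + 911 / 600) * v)) - Real.exp (-(e * y * v))) / v := by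
    funext v
    exact Sub_KN (e * y) v
  rw [e1]
  exact (Sub_N1 hz).add (fru_int (by linarith) hz)

theorem subN_eq {e y : ℝ} (he : 0 < e) (hy : 0 < y) :
    ∫ t in Ioi (0 : ℝ), KN (t / e) * Real.exp (-(y * t)) / t =
      J (5 / 2) (e * y) + 2 * Real.log (e * y) - Real.log (e * y + 11 / 25) -
        Real.log (e * y + 911 / 600) := by
  have hz : 0 < e * y := mul_pos he hy
  rw [Sub_eq' KN he]
  have e1 : (fun v : ℝ => KN v * Real.exp (-(e * y * v)) / v) = fun v : ℝ =>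
      (K (5 / 2) v * Real.exp (-(e * y * v)) / v +
      (Real.exp (-((e * y + 11 / 25) * v)) - Real.exp (-(e * y * v))) / v) +
      (Real.exp (-((e * y + 911 / 600) * v)) - Real.exp (-(e * y * v))) / v := by
    funext v
    exact Sub_KN (e * y) v
  rw [e1, integral_add (Sub_N1 hz) (fru_int (by linarith) hz),
    integral_add (B_int hz (by linarith)) (fru_int (by linarith) hz),
    binet hz (by linarith), fru (by linarith) hz, fru (by linarith) hz,
    Real.log_div hz.ne' (by linarith), Real.log_div hz.ne' (by linarith)]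
  ring

end Pool.Agent.Lib.MP_8382de_an.W3
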